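import Pool.Agent.Helper37.Ad.Base

/-!
# Project ADL, module Res: the residue field of a finite extension of `ℚ_p`

Only Mathlib. `O = {x | ‖x‖ ≤ 1}` is a local ring with maximal ideal `{x | ‖x‖ < 1}`, and `k` is its residue field. Lifts to
`O` of elements of `k` which are linearly independent over `ZMod p` are linearly independent over `ℚ_[p]`: in a relation divide
by a coefficient of maximal norm and reduce. So `k` is finite of dimension at most `[E : ℚ_[p]]` over `ZMod p`.
-/

set_option autoImplicit false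

namespace Pool.Agent.Helper37.Ad

/-- the ring of integers -/
private def Oi (E : Type) [NontriviallyNormedField E] [IsUltrametricDist E] : Subring E where
  carrier := {x | ‖x‖ ≤ 1}
  mul_mem' := fun {a b} ha hb => by
    show ‖a * b‖ ≤ 1
    rw [norm_mul]
    exact mul_le_one₀ ha (norm_nonneg _) hb
  one_mem' := by
    show ‖(1 : E)‖ ≤ 1
    rw [norm_one]
  add_mem' := fun {a b} ha hb => by
    show ‖a + b‖ ≤ 1
    exact (IsUltrametricDist.norm_add_le_max a b).trans (max_le ha hb)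
  zero_mem' := by
    show ‖(0 : E)‖ ≤ 1
    rw [norm_zero]
    exact zero_le_one
  neg_mem' := fun {a} ha => by
    show ‖-a‖ ≤ 1
    rw [norm_neg]
    exact ha

private theorem mem_Oi {E : Type} [NontriviallyNormedField E] [IsUltrametricDist E] (x : E) :
    x ∈ Oi E ↔ ‖x‖ ≤ 1 := Iff.rfl

private theorem unit_Oi {E : Type} [NontriviallyNormedField E] [IsUltrametricDist E] (x : Oi E) :
    IsUnit x ↔ ‖(x : E)‖ = 1 := by
  constructor
  · rintro ⟨u, rfl⟩
    have h1 : ((u : Oi E) : E) * ((u⁻¹ : (Oi E)ˣ) : Oi E) = 1 := by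
      have h2 := u.mul_inv
      have h3 := congrArg (fun y : Oi E => (y : E)) h2
      exact h3
    have h2 : ‖((u : Oi E) : E)‖ * ‖(((u⁻¹ : (Oi E)ˣ) : Oi E) : E)‖ = 1 := by
      rw [← norm_mul, h1, norm_one]
    have h3 := (mem_Oi _).1 (u : Oi E).2
    have h4 := (mem_Oi _).1 ((u⁻¹ : (Oi E)ˣ) : Oi E).2
    refine le_antisymm h3 ?_
    rw [← h2]
    exact mul_le_of_le_one_right (norm_nonneg _) h4
  · intro h
    have h0 : (x : E) ≠ 0 := by
      intro h0
      rw [h0, norm_zero] at h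
      exact zero_ne_one h
    refine IsUnit.of_mul_eq_one (⟨(x : E)⁻¹, ?_⟩ : Oi E) ?_
    · rw [mem_Oi, norm_inv, h, inv_one]
    · apply Subtype.ext
      exact mul_inv_cancel₀ h0

private theorem local_Oi (E : Type) [NontriviallyNormedField E] [IsUltrametricDist E] :
    IsLocalRing (Oi E) := by
  have : Nontrivial (Oi E) := inferInstance
  refine IsLocalRing.of_isUnit_or_isUnit_one_sub_self fun a => ?_
  rcases lt_or_eq_of_le ((mem_Oi _).1 a.2) with h | h
  · right
    rw [unit_Oi]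
    show ‖(1 : E) - (a : E)‖ = 1
    have h1 : ‖(1 : E)‖ ≠ ‖-(a : E)‖ := by
      rw [norm_one, norm_neg]
      exact h.ne'
    have h2 := IsUltrametricDist.norm_add_eq_max_of_norm_ne_norm h1
    rw [sub_eq_add_neg, h2, norm_one, norm_neg, max_eq_left h.le]
  · left
    rwa [unit_Oi]

/-- lifts of linearly independent elements are linearly independent -/
private theorem lift_indep {p : ℕ} [Fact p.Prime] {E : Type} [NontriviallyNormedField E]
    [IsUltrametricDist E] [NormedAlgebra ℚ_[p] E] {k : Type} [Field k] [CharP k p]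
    [Algebra (ZMod p) k] {O : Subring E} (hO : ∀ x : E, x ∈ O ↔ ‖x‖ ≤ 1) (φ : O →+* k)
    (hφ : ∀ x : O, φ x = 0 ↔ ‖(x : E)‖ < 1) {s : Finset k}
    (hs : LinearIndependent (ZMod p) fun i : s => (i : k)) (x : s → O)
    (hx : ∀ i, φ (x i) = i) : LinearIndependent ℚ_[p] fun i : s => (x i : E) := by
  classical
  rw [Fintype.linearIndependent_iff]
  intro c hc
  by_contra hne
  push Not at hne
  obtain ⟨j, hj⟩ := hne
  obtain ⟨i0, -, hi0⟩ := Finset.exists_max_image Finset.univ (fun i => ‖c i‖) ⟨j, Finset.mem_univ j⟩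
  have hc0 : c i0 ≠ 0 := by
    intro h
    have h1 := hi0 j (Finset.mem_univ j)
    rw [h, norm_zero] at h1
    exact hj (norm_le_zero_iff.1 h1)
  have hd : ∀ i, ‖(c i0)⁻¹ * c i‖ ≤ 1 := by
    intro i
    rw [norm_mul, norm_inv, inv_mul_le_iff₀ (norm_pos_iff.2 hc0), mul_one]
    exact hi0 i (Finset.mem_univ i)
  let d : s → ℤ_[p] := fun i => ⟨(c i0)⁻¹ * c i, hd i⟩
  have hO' : ∀ z : ℤ_[p], algebraMap ℚ_[p] E (z : ℚ_[p]) ∈ O := by
    intro z
    rw [hO, norm_algebraMap']
    exact z.2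
  let e : s → O := fun i => ⟨algebraMap ℚ_[p] E (d i : ℚ_[p]), hO' (d i)⟩
  let n : s → ℕ := fun i => (d i).zmodRepr
  have he : ∀ i, φ (e i) = ((n i : ZMod p) : ZMod p) • (1 : k) := by
    intro i
    have h1 : φ (e i - ((n i : ℕ) : O)) = 0 := by
      rw [hφ]
      have h2 : ((e i - ((n i : ℕ) : O) : O) : E) =
          algebraMap ℚ_[p] E (((d i - ((d i).zmodRepr : ℤ_[p]) : ℤ_[p]) : ℚ_[p])) := by
        show algebraMap ℚ_[p] E (d i : ℚ_[p]) - ((n i : ℕ) : E) = _
        rw [PadicInt.coe_sub, map_sub, PadicInt.coe_natCast, map_natCast]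
      rw [h2, norm_algebraMap']
      exact PadicInt.norm_sub_zmodRepr_lt_one (d i)
    rw [map_sub, map_natCast, sub_eq_zero] at h1
    rw [h1, Algebra.smul_def, mul_one, map_natCast]
  have hsum : ∑ i, e i * x i = 0 := by
    apply Subtype.ext
    have h1 : ((∑ i, e i * x i : O) : E) = ∑ i, ((c i0)⁻¹ * c i) • (x i : E) := by
      rw [AddSubmonoidClass.coe_finsetSum]
      refine Finset.sum_congr rfl fun i _ => ?_
      rw [Algebra.smul_def]
      rfl
    rw [h1]
    have h2 : ∑ i, ((c i0)⁻¹ * c i) • (x i : E) = (c i0)⁻¹ • ∑ i, c i • (x i : E) := by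
      rw [Finset.smul_sum]
      exact Finset.sum_congr rfl fun i _ => mul_smul _ _ _
    rw [h2, hc, smul_zero]
    rfl
  have hsum2 : ∑ i, ((n i : ℕ) : ZMod p) • (i : k) = 0 := by
    have h1 := congrArg φ hsum
    rw [map_sum, map_zero] at h1
    rw [← h1]
    refine Finset.sum_congr rfl fun i _ => ?_
    rw [map_mul, he, hx, smul_one_mul]
  have h3 := (Fintype.linearIndependent_iff.1 hs) (fun i => ((n i : ℕ) : ZMod p)) hsum2 i0
  have h4 := he i0
  rw [h3, zero_smul, hφ] at h4
  have h5 : ((e i0 : O) : E) = 1 := by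
    show algebraMap ℚ_[p] E ((c i0)⁻¹ * c i0) = 1
    rw [inv_mul_cancel₀ hc0, map_one]
  rw [h5, norm_one] at h4
  exact lt_irrefl _ h4

theorem exists_residue {p : ℕ} [Fact p.Prime] (E : Type) [NontriviallyNormedField E]
    [IsUltrametricDist E] [NormedAlgebra ℚ_[p] E] [FiniteDimensional ℚ_[p] E] :
    ∃ (O : Subring E) (k : Type) (_ : Field k) (_ : Finite k) (_ : CharP k p) (φ : O →+* k),
      (∀ x : E, x ∈ O ↔ ‖x‖ ≤ 1) ∧ Function.Surjective φ ∧ (∀ x : O, φ x = 0 ↔ ‖(x : E)‖ < 1) ∧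
      Nat.card k ≤ p ^ Module.finrank ℚ_[p] E := by
  classical
  have hp : p.Prime := Fact.out
  have hloc : IsLocalRing (Oi E) := local_Oi E
  have hφ : ∀ x : Oi E, IsLocalRing.residue (Oi E) x = 0 ↔ ‖(x : E)‖ < 1 := by
    intro x
    rw [IsLocalRing.residue_eq_zero_iff, IsLocalRing.mem_maximalIdeal, mem_nonunits_iff, unit_Oi]
    exact ⟨fun h => lt_of_le_of_ne ((mem_Oi _).1 x.2) h, fun h => h.ne⟩
  have hchar : CharP (IsLocalRing.ResidueField (Oi E)) p := by
    rw [CharP.charP_iff_prime_eq_zero hp]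
    have h1 : IsLocalRing.residue (Oi E) ((p : ℕ) : Oi E) = 0 := by
      rw [hφ]
      have h2 : ((((p : ℕ) : Oi E) : Oi E) : E) = algebraMap ℚ_[p] E ((p : ℕ) : ℚ_[p]) := by
        rw [map_natCast]
        rfl
      rw [h2, norm_algebraMap']
      exact Padic.norm_p_lt_one
    rwa [map_natCast] at h1
  let _ : Algebra (ZMod p) (IsLocalRing.ResidueField (Oi E)) := ZMod.algebra _ p
  have hrank : Module.rank (ZMod p) (IsLocalRing.ResidueField (Oi E)) ≤ Module.finrank ℚ_[p] E := by
    refine rank_le fun s hs => ?_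
    choose x hx using fun i : s => IsLocalRing.residue_surjective (R := Oi E) (i : _)
    have h1 := lift_indep (mem_Oi (E := E)) (IsLocalRing.residue (Oi E)) hφ hs x hx
    have h2 := h1.fintype_card_le_finrank
    rwa [Fintype.card_coe] at h2
  have hfin : Module.Finite (ZMod p) (IsLocalRing.ResidueField (Oi E)) := by
    rw [← Module.rank_lt_aleph0_iff]
    exact hrank.trans_lt Cardinal.natCast_lt_aleph0
  have hfin2 : Finite (IsLocalRing.ResidueField (Oi E)) := Module.finite_of_finite (ZMod p)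
  refine ⟨Oi E, IsLocalRing.ResidueField (Oi E), inferInstance, hfin2, hchar,
    IsLocalRing.residue (Oi E), mem_Oi, IsLocalRing.residue_surjective, hφ, ?_⟩
  rw [Module.natCard_eq_pow_finrank (K := ZMod p) (V := IsLocalRing.ResidueField (Oi E)),
    Nat.card_zmod]
  refine Nat.pow_le_pow_right hp.pos ?_
  exact Module.finrank_le_of_rank_le hrank

end Pool.Agent.Helper37.Ad
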