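import Pool.Agent.Helper37.Fd.DefsD

/-!
# Definitions: extension of scalars, compatibility of Frobenius polynomials at a place
-/

set_option autoImplicit false

open NumberField Polynomial

namespace Pool.Agent.Helper37.Ad

open Pool.Agent.Helper37.Fd

/-- The extension of scalars of a representation along a homomorphism of fields. -/
noncomputable def extend {E F : Type*} [Field E] [Field F] (φ : E →+* F) {G : Type*} [Group G]
    (V : G →* GL (Fin 2) E) : G →* GL (Fin 2) F :=
  (Matrix.GeneralLinearGroup.map φ).comp V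

/-- At the element `r` of `G` the characteristic polynomials of `V v` and of `T (ℓ v)` (over `E v`) are
the images of the polynomials `f r`, `g r` with coefficients in the integers of `M`. -/
def Matches {M : Type*} [Field M] [NumberField M] {Λ : Type*} (ℓ : Λ → ℕ) [∀ v, Fact (ℓ v).Prime]
    (E : Λ → Type*) [∀ v, NontriviallyNormedField (E v)] [∀ v, NormedAlgebra ℚ_[ℓ v] (E v)]
    (j : ∀ v, M →+* E v) {G : Type*} [Group G] (V : ∀ v, G →* GL (Fin 2) (E v)) {n : ℕ}
    (T : ∀ (l : ℕ) [Fact l.Prime], G →* GL (Fin n) ℚ_[l]) (f g : G → (𝓞 M)[X]) (v : Λ) (r : G) :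
    Prop :=
  (V v r : Matrix (Fin 2) (Fin 2) (E v)).charpoly =
      (f r).map ((j v).comp (algebraMap (𝓞 M) M)) ∧
    (baseChange (E v) (T (ℓ v)) r : Matrix (Fin n) (Fin n) (E v)).charpoly =
      (g r).map ((j v).comp (algebraMap (𝓞 M) M))

end Pool.Agent.Helper37.Ad
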