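import Mathlib

/-!
# Project ADL, module NormF: an algebraic integer which is small at infinitely many places is zero

Only Mathlib. If `ω ≠ 0`, the absolute norm `N` of the ideal `(ω)` is a nonzero multiple of `ω`, and it is
small at all places of `B`, so it is divisible by the residue characteristics of infinitely many places.
-/

set_option autoImplicit false

open NumberField

namespace Pool.Agent.Helper37.Ad

private lemma norm_le_one' {M : Type*} [Field M] [NumberField M] {E : Type*}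
    [NontriviallyNormedField E] [IsUltrametricDist E] (j : M →+* E) (x : 𝓞 M) :
    ‖j (x : M)‖ ≤ 1 := by
  have h1 : IsIntegral ℤ (x : M) := RingOfIntegers.isIntegral_coe x
  have h2 : IsIntegral ℤ (j (x : M)) := h1.map j.toIntAlgHom
  have h3 : IsIntegral (NormedField.valuation (K := E)).integer (j (x : M)) := h2.tower_top
  have h4 := (Valuation.integer.integers (NormedField.valuation (K := E))).mem_of_integral h3
  rw [Valuation.mem_integer_iff, NormedField.valuation_apply] at h4
  exact_mod_cast h4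

theorem eq_zero_of_small {M : Type*} [Field M] [NumberField M] {Λ : Type*} (ℓ : Λ → ℕ)
    [∀ v, Fact (ℓ v).Prime] (hfin : ∀ l, {v | ℓ v = l}.Finite) (E : Λ → Type*)
    [∀ v, NontriviallyNormedField (E v)] [∀ v, IsUltrametricDist (E v)]
    [∀ v, NormedAlgebra ℚ_[ℓ v] (E v)] (j : ∀ v, M →+* E v) (ω : 𝓞 M) (B : Set Λ)
    (hB : B.Infinite) (h : ∀ v ∈ B, ‖j v (ω : M)‖ < 1) : ω = 0 := by
  by_contra hω
  have hI : Ideal.span {ω} ≠ ⊥ := by
    rw [Ne, Ideal.span_singleton_eq_bot]
    exact hω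
  obtain ⟨c, hc⟩ : ω ∣ ((Ideal.absNorm (Ideal.span {ω}) : ℕ) : 𝓞 M) :=
    Ideal.mem_span_singleton.1 (Ideal.absNorm_mem _)
  have hN : Ideal.absNorm (Ideal.span {ω}) ≠ 0 := by
    rw [Ne, Ideal.absNorm_eq_zero_iff]
    exact hI
  generalize Ideal.absNorm (Ideal.span {ω}) = N at hc hN
  have hdvd : ∀ v ∈ B, ℓ v ∣ N := by
    intro v hv
    have h1 : ‖((N : ℕ) : E v)‖ < 1 := by
      have e : ((N : ℕ) : E v) = j v (ω : M) * j v (c : M) := by
        have := congrArg (fun x : 𝓞 M => j v (x : M)) hc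
        simpa using this
      rw [e, norm_mul]
      calc ‖j v (ω : M)‖ * ‖j v (c : M)‖ ≤ ‖j v (ω : M)‖ * 1 :=
            mul_le_mul_of_nonneg_left (norm_le_one' (j v) c) (norm_nonneg _)
        _ < 1 := by rw [mul_one]; exact h v hv
    have h2 : ‖((N : ℕ) : ℚ_[ℓ v])‖ < 1 := by
      have e : ((N : ℕ) : E v) = algebraMap ℚ_[ℓ v] (E v) ((N : ℕ) : ℚ_[ℓ v]) := by simp
      rw [e, norm_algebraMap'] at h1
      exact h1
    exact Padic.norm_natCast_lt_one_iff.1 h2
  refine hB (Set.Finite.subset (Set.Finite.biUnion (N.divisors.finite_toSet) fun l _ => hfin l) ?_)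
  intro v hv
  rw [Set.mem_iUnion₂]
  exact ⟨ℓ v, by simpa using ⟨hdvd v hv, hN⟩, rfl⟩

end Pool.Agent.Helper37.Ad
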