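import Pool.Agent.Helper37.Ad.Base

/-!
# Project ADL, module Adic: levels and reduction of an integral `l`-adic representation

Only Mathlib and `Itg` (Base.lean) are needed.

PLAN. `exists_levels`: `A k = {g | ∀ i j, ‖T g i j - 1 i j‖ ≤ (l : ℝ) ^ (-((k : ℤ) + 1))}`. For a
matrix `X` over `ℚ_[l]` write `X = O(k)` if all entries have norm `≤ l ^ (-(k+1))`. With `T a = 1 + X`,
`T b = 1 + Y`, `X = O(k)`, `Y = O(k)`: products of integral matrices with `O(k)` matrices are `O(k)`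
(ultrametric), so `A k` is a subgroup (`T a⁻¹ - 1 = - T a⁻¹ (T a - 1)`), normal
(`T (g a g⁻¹) - 1 = T g (T a - 1) T g⁻¹`), closed and open (inequalities between norms are clopen in the
ultrametric setting; simplest: `‖x‖ ≤ l ^ (-(k+1))` iff `‖x‖ < l ^ (-k)`, `padicNorm` values, see
`Padic.norm_le_pow_iff_norm_lt_pow_add_one`; or `IsUltrametricDist.isOpen_closedBall`). The commutator:
`T (a b a⁻¹ b⁻¹) - 1 = (T a T b - T b T a) T (b a)⁻¹ = (X Y - Y X) T (b a)⁻¹`, and the entries of `X Y` have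
norm `≤ l ^ (-2(k+1)) ≤ l ^ (-(k+2))`. Powers: if `T a = 1 + X`, `X = O(k)`, then
`T (a ^ l) = 1 + l X + ... + X ^ l`, `O(k+1)` (the binomial coefficients `C(l, i)`, `0 < i < l`, are divisible by
`l`; `X ^ l` has entries of norm `≤ l ^ (-(l (k+1))) ≤ l ^ (-(k+2))` as `l ≥ 2`); induction on `k` for
`a ^ (l ^ k)`. `a ∈ A 0` iff all norms `≤ l⁻¹` iff all norms `< 1`. The infimum: norms `≤ l ^ (-(k+1))` for all
`k` means `= 0`.

`exists_red`: an integral matrix over `ℚ_[l]` is `X.map (↑)` for a matrix `X` over `ℤ_[l]`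
(`X i j = ⟨T g i j, _⟩`); put `τ g = ` the reduction of `X` by `PadicInt.toZMod`; multiplicative, since the
coercion is injective. (`G →* Matrix` first, then units: `GL` of `ZMod l` from `X` for `g` and `g⁻¹`;
or `MonoidHom.toHomUnits`.)
-/

set_option autoImplicit false

namespace Pool.Agent.Helper37.Ad

private theorem exists_int {l : ℕ} [Fact l.Prime] {G : Type*} [Group G] {n : ℕ}
    (T : G →* GL (Fin n) ℚ_[l]) (hTi : ∀ g, Itg (T g : Matrix (Fin n) (Fin n) ℚ_[l])) :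
    ∃ S : G →* GL (Fin n) ℤ_[l], ∀ g, (T g : Matrix (Fin n) (Fin n) ℚ_[l]) =
      (S g : Matrix (Fin n) (Fin n) ℤ_[l]).map (fun x : ℤ_[l] => (x : ℚ_[l])) := by
  have hinj : Function.Injective (fun X : Matrix (Fin n) (Fin n) ℤ_[l] =>
      X.map (fun x : ℤ_[l] => (x : ℚ_[l]))) := by
    intro X Y h
    ext i j
    have := congrFun (congrFun h i) j
    exact PadicInt.ext this
  have hmul : ∀ X Y : Matrix (Fin n) (Fin n) ℤ_[l],
      (X * Y).map (fun x : ℤ_[l] => (x : ℚ_[l])) =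
      X.map (fun x : ℤ_[l] => (x : ℚ_[l])) * Y.map (fun x : ℤ_[l] => (x : ℚ_[l])) := by
    intro X Y
    exact Matrix.map_mul (f := (PadicInt.Coe.ringHom : ℤ_[l] →+* ℚ_[l]))
  have hone : (1 : Matrix (Fin n) (Fin n) ℤ_[l]).map (fun x : ℤ_[l] => (x : ℚ_[l])) = 1 := by
    refine Matrix.map_one _ ?_ ?_ <;> simp
  let X : G → Matrix (Fin n) (Fin n) ℤ_[l] := fun g i j =>
    ⟨(T g : Matrix (Fin n) (Fin n) ℚ_[l]) i j, hTi g i j⟩
  have hX : ∀ g, (X g).map (fun x : ℤ_[l] => (x : ℚ_[l])) = (T g : Matrix (Fin n) (Fin n) ℚ_[l]) := by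
    intro g
    ext i j
    rfl
  let M : G →* Matrix (Fin n) (Fin n) ℤ_[l] :=
    { toFun := X
      map_one' := by
        apply hinj
        show (X 1).map _ = (1 : Matrix (Fin n) (Fin n) ℤ_[l]).map _
        rw [hX, hone, map_one]
        rfl
      map_mul' := by
        intro a b
        apply hinj
        show (X (a * b)).map _ = (X a * X b).map _
        rw [hmul, hX, hX, hX, map_mul]
        rfl }
  exact ⟨M.toHomUnits, fun g => (hX g).symm⟩

private def Dv {l : ℕ} [Fact l.Prime] {n : ℕ} (m : ℕ) (X : Matrix (Fin n) (Fin n) ℤ_[l]) : Prop :=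
  ∃ Y : Matrix (Fin n) (Fin n) ℤ_[l], X = (l : ℤ_[l]) ^ m • Y

private theorem Dv_iff {l : ℕ} [Fact l.Prime] {n : ℕ} (m : ℕ) (X : Matrix (Fin n) (Fin n) ℤ_[l]) :
    Dv m X ↔ ∀ i j, ‖X i j‖ ≤ (l : ℝ) ^ (-(m : ℤ)) := by
  constructor
  · rintro ⟨Y, rfl⟩ i j
    rw [PadicInt.norm_le_pow_iff_mem_span_pow, Ideal.mem_span_singleton]
    exact ⟨Y i j, rfl⟩
  · intro h
    have h1 : ∀ i j, ∃ y : ℤ_[l], X i j = (l : ℤ_[l]) ^ m * y := by
      intro i j
      have h2 := h i j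
      rw [PadicInt.norm_le_pow_iff_mem_span_pow, Ideal.mem_span_singleton] at h2
      exact h2
    choose Y hY using h1
    exact ⟨Y, by
      ext i j
      rw [hY]
      rfl⟩

private theorem Dv.mul {l : ℕ} [Fact l.Prime] {n : ℕ} {m k : ℕ}
    {X Y : Matrix (Fin n) (Fin n) ℤ_[l]} (hX : Dv m X) (hY : Dv k Y) : Dv (m + k) (X * Y) := by
  obtain ⟨X', rfl⟩ := hX
  obtain ⟨Y', rfl⟩ := hY
  exact ⟨X' * Y', by rw [Matrix.smul_mul, Matrix.mul_smul, smul_smul, pow_add]⟩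

private theorem Dv.mul_right {l : ℕ} [Fact l.Prime] {n : ℕ} {m : ℕ}
    {X : Matrix (Fin n) (Fin n) ℤ_[l]} (hX : Dv m X) (Y : Matrix (Fin n) (Fin n) ℤ_[l]) :
    Dv m (X * Y) := by
  obtain ⟨X', rfl⟩ := hX
  exact ⟨X' * Y, by rw [Matrix.smul_mul]⟩

private theorem Dv.add {l : ℕ} [Fact l.Prime] {n : ℕ} {m : ℕ}
    {X Y : Matrix (Fin n) (Fin n) ℤ_[l]} (hX : Dv m X) (hY : Dv m Y) : Dv m (X + Y) := by
  obtain ⟨X', rfl⟩ := hX
  obtain ⟨Y', rfl⟩ := hY
  exact ⟨X' + Y', by rw [smul_add]⟩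

private theorem Dv.sub {l : ℕ} [Fact l.Prime] {n : ℕ} {m : ℕ}
    {X Y : Matrix (Fin n) (Fin n) ℤ_[l]} (hX : Dv m X) (hY : Dv m Y) : Dv m (X - Y) := by
  obtain ⟨X', rfl⟩ := hX
  obtain ⟨Y', rfl⟩ := hY
  exact ⟨X' - Y', by rw [smul_sub]⟩

private theorem Dv.mono {l : ℕ} [Fact l.Prime] {n : ℕ} {m k : ℕ} (h : k ≤ m)
    {X : Matrix (Fin n) (Fin n) ℤ_[l]} (hX : Dv m X) : Dv k X := by
  obtain ⟨X', rfl⟩ := hX
  exact ⟨(l : ℤ_[l]) ^ (m - k) • X', by rw [smul_smul, ← pow_add, Nat.add_sub_cancel' h]⟩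

private theorem one_add_pow {R : Type*} [Ring R] (Z : R) (k : ℕ) :
    ∃ W : R, (1 + Z) ^ k = 1 + (k : R) * Z + Z * Z * W := by
  induction k with
  | zero => exact ⟨0, by simp⟩
  | succ k ih =>
    obtain ⟨W, hW⟩ := ih
    refine ⟨(k : R) + W + W * Z, ?_⟩
    have hk : (k : R) * Z = Z * (k : R) := (Nat.cast_commute k Z).eq
    rw [pow_succ, hW]
    push_cast
    have h1 : (k : R) * Z * Z = Z * Z * (k : R) := by
      rw [hk, mul_assoc, hk, mul_assoc]
    calc (1 + (k : R) * Z + Z * Z * W) * (1 + Z)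
        = 1 + ((k : R) * Z + Z) + ((k : R) * Z * Z + Z * Z * W + Z * Z * W * Z) := by noncomm_ring
      _ = 1 + ((k : R) + 1) * Z + Z * Z * ((k : R) + W + W * Z) := by
          rw [h1]
          noncomm_ring

theorem exists_levels {l : ℕ} [Fact l.Prime] {G : Type*} [Group G] [TopologicalSpace G] {n : ℕ}
    (T : G →* GL (Fin n) ℚ_[l]) (hT : Continuous T)
    (hTi : ∀ g, Itg (T g : Matrix (Fin n) (Fin n) ℚ_[l])) :
    ∃ A : ℕ → Subgroup G, (∀ k, (A k).Normal) ∧ (∀ k, IsClosed (A k : Set G)) ∧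
      (∀ k, IsOpen (A k : Set G)) ∧ Antitone A ∧
      (∀ g, g ∈ A 0 ↔ ∀ i j, ‖(T g : Matrix (Fin n) (Fin n) ℚ_[l]) i j -
        (1 : Matrix (Fin n) (Fin n) ℚ_[l]) i j‖ < 1) ∧
      (∀ k, ∀ a ∈ A k, ∀ b ∈ A k, a * b * a⁻¹ * b⁻¹ ∈ A (k + 1)) ∧
      (∀ k, ∀ a ∈ A 0, a ^ l ^ k ∈ A k) ∧ ⨅ k, A k = T.ker := by
  obtain ⟨S, hS⟩ := exists_int T hTi
  have hl0 : (0 : ℝ) < l := by exact_mod_cast (Fact.out : l.Prime).pos
  -- the levels
  let A : ℕ → Subgroup G := fun k =>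
    { carrier := {g | Dv (k + 1) ((S g : Matrix (Fin n) (Fin n) ℤ_[l]) - 1)}
      one_mem' := by
        show Dv (k + 1) ((S 1 : Matrix (Fin n) (Fin n) ℤ_[l]) - 1)
        rw [map_one, Units.val_one, sub_self]
        exact ⟨0, by rw [smul_zero]⟩
      mul_mem' := by
        intro a b ha hb
        show Dv (k + 1) ((S (a * b) : Matrix (Fin n) (Fin n) ℤ_[l]) - 1)
        have h1 : ((S (a * b) : Matrix (Fin n) (Fin n) ℤ_[l]) - 1) =
            ((S a : Matrix (Fin n) (Fin n) ℤ_[l]) - 1) * (S b : Matrix (Fin n) (Fin n) ℤ_[l]) +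
              ((S b : Matrix (Fin n) (Fin n) ℤ_[l]) - 1) := by
          rw [map_mul, Units.val_mul]
          noncomm_ring
        rw [h1]
        exact (Dv.mul_right ha _).add hb
      inv_mem' := by
        intro a ha
        show Dv (k + 1) ((S a⁻¹ : Matrix (Fin n) (Fin n) ℤ_[l]) - 1)
        have h0 : (S a : Matrix (Fin n) (Fin n) ℤ_[l]) * (S a⁻¹ : Matrix (Fin n) (Fin n) ℤ_[l]) = 1 := by
          rw [← Units.val_mul, ← map_mul, mul_inv_cancel, map_one, Units.val_one]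
        have h1 : ((S a⁻¹ : Matrix (Fin n) (Fin n) ℤ_[l]) - 1) =
            ((S a : Matrix (Fin n) (Fin n) ℤ_[l]) - 1) * (-(S a⁻¹ : Matrix (Fin n) (Fin n) ℤ_[l])) := by
          rw [mul_neg, sub_mul, h0]
          noncomm_ring
        rw [h1]
        exact Dv.mul_right ha _ }
  have hmem : ∀ k g, g ∈ A k ↔ Dv (k + 1) ((S g : Matrix (Fin n) (Fin n) ℤ_[l]) - 1) :=
    fun _ _ => Iff.rfl
  have hent : ∀ g i j, ‖(T g : Matrix (Fin n) (Fin n) ℚ_[l]) i j -
      (1 : Matrix (Fin n) (Fin n) ℚ_[l]) i j‖ =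
      ‖((S g : Matrix (Fin n) (Fin n) ℤ_[l]) - 1) i j‖ := by
    intro g i j
    rw [hS g, Matrix.map_apply, Matrix.sub_apply, PadicInt.norm_def]
    push_cast
    congr 2
    rw [Matrix.one_apply, Matrix.one_apply]
    split_ifs <;> simp
  have hmem' : ∀ k g, g ∈ A k ↔ ∀ i j, ‖(T g : Matrix (Fin n) (Fin n) ℚ_[l]) i j -
      (1 : Matrix (Fin n) (Fin n) ℚ_[l]) i j‖ ≤ (l : ℝ) ^ (-((k + 1 : ℕ) : ℤ)) := by
    intro k g
    rw [hmem, Dv_iff]
    refine forall_congr' fun i => forall_congr' fun j => ?_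
    rw [hent]
  have hcont : ∀ i j, Continuous fun g => (T g : Matrix (Fin n) (Fin n) ℚ_[l]) i j -
      (1 : Matrix (Fin n) (Fin n) ℚ_[l]) i j := by
    intro i j
    exact ((Units.continuous_val.comp hT).matrix_elem i j).sub continuous_const
  have hclopen : ∀ k, IsClopen (A k : Set G) := by
    intro k
    have h1 : (A k : Set G) = ⋂ i, ⋂ j, (fun g => (T g : Matrix (Fin n) (Fin n) ℚ_[l]) i j -
        (1 : Matrix (Fin n) (Fin n) ℚ_[l]) i j) ⁻¹'
        Metric.closedBall (0 : ℚ_[l]) ((l : ℝ) ^ (-((k + 1 : ℕ) : ℤ))) := by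
      ext g
      simp only [SetLike.mem_coe, hmem', Set.mem_iInter, Set.mem_preimage, Metric.mem_closedBall,
        dist_zero_right]
    rw [h1]
    refine isClopen_iInter_of_finite fun i => isClopen_iInter_of_finite fun j => ?_
    exact (IsUltrametricDist.isClopen_closedBall (0 : ℚ_[l]) (zpow_pos hl0 _).ne').preimage (hcont i j)
  refine ⟨A, ?_, fun k => (hclopen k).1, fun k => (hclopen k).2, ?_, ?_, ?_, ?_, ?_⟩
  · intro k
    constructor
    intro a ha g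
    rw [hmem] at ha ⊢
    have h0 : (S g : Matrix (Fin n) (Fin n) ℤ_[l]) * (S g⁻¹ : Matrix (Fin n) (Fin n) ℤ_[l]) = 1 := by
      rw [← Units.val_mul, ← map_mul, mul_inv_cancel, map_one, Units.val_one]
    have h1 : ((S (g * a * g⁻¹) : Matrix (Fin n) (Fin n) ℤ_[l]) - 1) =
        (S g : Matrix (Fin n) (Fin n) ℤ_[l]) * (((S a : Matrix (Fin n) (Fin n) ℤ_[l]) - 1) *
          (S g⁻¹ : Matrix (Fin n) (Fin n) ℤ_[l])) := by
      rw [map_mul, map_mul, Units.val_mul, Units.val_mul, sub_mul, one_mul, mul_sub, h0, mul_assoc]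
    rw [h1]
    obtain ⟨Y, hY⟩ := Dv.mul_right ha (S g⁻¹ : Matrix (Fin n) (Fin n) ℤ_[l])
    exact ⟨(S g : Matrix (Fin n) (Fin n) ℤ_[l]) * Y, by rw [hY, Matrix.mul_smul]⟩
  · intro j k hjk g hg
    rw [hmem] at hg ⊢
    exact hg.mono (by omega)
  · intro g
    rw [hmem']
    refine forall_congr' fun i => forall_congr' fun j => ?_
    rw [Padic.norm_le_pow_iff_norm_lt_pow_add_one]
    norm_num
  · intro k a ha b hb
    rw [hmem] at ha hb ⊢
    set X := (S a : Matrix (Fin n) (Fin n) ℤ_[l]) - 1 with hX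
    set Y := (S b : Matrix (Fin n) (Fin n) ℤ_[l]) - 1 with hY
    have e : a * b * a⁻¹ * b⁻¹ = a * b * (b * a)⁻¹ := by group
    have h0 : (S (b * a) : Matrix (Fin n) (Fin n) ℤ_[l]) *
        (S (b * a)⁻¹ : Matrix (Fin n) (Fin n) ℤ_[l]) = 1 := by
      rw [← Units.val_mul, ← map_mul, mul_inv_cancel, map_one, Units.val_one]
    have h1 : ((S (a * b * a⁻¹ * b⁻¹) : Matrix (Fin n) (Fin n) ℤ_[l]) - 1) =
        (X * Y - Y * X) * (S (b * a)⁻¹ : Matrix (Fin n) (Fin n) ℤ_[l]) := by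
      have h2 : X * Y - Y * X = (S (a * b) : Matrix (Fin n) (Fin n) ℤ_[l]) -
          (S (b * a) : Matrix (Fin n) (Fin n) ℤ_[l]) := by
        rw [map_mul, map_mul, Units.val_mul, Units.val_mul, hX, hY]
        noncomm_ring
      rw [h2, sub_mul, h0, e, map_mul, Units.val_mul]
    rw [h1]
    refine Dv.mul_right ?_ _
    exact ((ha.mul hb).mono (by omega)).sub ((hb.mul ha).mono (by omega))
  · have hstep : ∀ k, ∀ a ∈ A k, a ^ l ∈ A (k + 1) := by
      intro k a ha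
      rw [hmem] at ha ⊢
      set Z := (S a : Matrix (Fin n) (Fin n) ℤ_[l]) - 1 with hZ
      obtain ⟨W, hW⟩ := one_add_pow Z l
      have h1 : ((S (a ^ l) : Matrix (Fin n) (Fin n) ℤ_[l]) - 1) =
          ((l : ℕ) : Matrix (Fin n) (Fin n) ℤ_[l]) * Z + Z * Z * W := by
        rw [map_pow, Units.val_pow_eq_pow_val,
          show (S a : Matrix (Fin n) (Fin n) ℤ_[l]) = 1 + Z by rw [hZ]; abel, hW]
        abel
      rw [h1]
      refine Dv.add ?_ ?_
      · obtain ⟨Z', hZ'⟩ := ha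
        refine ⟨Z', ?_⟩
        have h2 : ((l : ℕ) : Matrix (Fin n) (Fin n) ℤ_[l]) * Z' = (l : ℤ_[l]) • Z' := by
          rw [← nsmul_eq_mul]
          ext i j
          rw [Matrix.smul_apply, Matrix.smul_apply, nsmul_eq_mul, smul_eq_mul]
        rw [hZ', Matrix.mul_smul, h2, smul_smul, ← pow_succ]
      · exact Dv.mul_right ((ha.mul ha).mono (by omega)) W
    intro k
    induction k with
    | zero =>
      intro a ha
      simpa using ha
    | succ k ih =>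
      intro a ha
      rw [pow_succ, pow_mul]
      exact hstep k _ (ih a ha)
  · ext g
    rw [Subgroup.mem_iInf, MonoidHom.mem_ker]
    constructor
    · intro h
      ext i j
      by_contra hne
      have h0 : (T g : Matrix (Fin n) (Fin n) ℚ_[l]) i j - (1 : Matrix (Fin n) (Fin n) ℚ_[l]) i j ≠ 0 :=
        sub_ne_zero.2 hne
      have h1 : 0 < ‖(T g : Matrix (Fin n) (Fin n) ℚ_[l]) i j -
          (1 : Matrix (Fin n) (Fin n) ℚ_[l]) i j‖ := norm_pos_iff.2 h0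
      have hl1 : ((l : ℝ)⁻¹) < 1 := inv_lt_one_of_one_lt₀ (by exact_mod_cast (Fact.out : l.Prime).one_lt)
      obtain ⟨k, hk⟩ := exists_pow_lt_of_lt_one h1 hl1
      have h2 := (hmem' k g).1 (h k) i j
      have h3 : (l : ℝ) ^ (-((k + 1 : ℕ) : ℤ)) ≤ ((l : ℝ)⁻¹) ^ k := by
        rw [zpow_neg, zpow_natCast, ← inv_pow]
        exact pow_le_pow_of_le_one (inv_pos.2 hl0).le hl1.le (Nat.le_succ k)
      linarith
    · intro h k
      rw [hmem']
      intro i j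
      rw [h, Units.val_one, sub_self, norm_zero]
      exact (zpow_pos hl0 _).le

theorem exists_red {l : ℕ} [Fact l.Prime] {G : Type*} [Group G] {n : ℕ}
    (T : G →* GL (Fin n) ℚ_[l]) (hTi : ∀ g, Itg (T g : Matrix (Fin n) (Fin n) ℚ_[l])) :
    ∃ τ : G →* GL (Fin n) (ZMod l), ∀ g, ∃ X : Matrix (Fin n) (Fin n) ℤ_[l],
      (T g : Matrix (Fin n) (Fin n) ℚ_[l]) = X.map (fun x : ℤ_[l] => (x : ℚ_[l])) ∧
      (τ g : Matrix (Fin n) (Fin n) (ZMod l)) = X.map (PadicInt.toZMod : ℤ_[l] →+* ZMod l) := by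
  obtain ⟨S, hS⟩ := exists_int T hTi
  refine ⟨(Matrix.GeneralLinearGroup.map (PadicInt.toZMod : ℤ_[l] →+* ZMod l)).comp S, fun g =>
    ⟨(S g : Matrix (Fin n) (Fin n) ℤ_[l]), hS g, rfl⟩⟩

/-- the kernel of the reduction -/
theorem red_eq_one {l : ℕ} [Fact l.Prime] {n : ℕ} {A : Matrix (Fin n) (Fin n) ℚ_[l]}
    {B : Matrix (Fin n) (Fin n) (ZMod l)} {X : Matrix (Fin n) (Fin n) ℤ_[l]}
    (hA : A = X.map (fun x : ℤ_[l] => (x : ℚ_[l])))
    (hB : B = X.map (PadicInt.toZMod : ℤ_[l] →+* ZMod l)) :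
    B = 1 ↔ ∀ i j, ‖A i j - (1 : Matrix (Fin n) (Fin n) ℚ_[l]) i j‖ < 1 := by
  have hent : ∀ i j, B i j = (1 : Matrix (Fin n) (Fin n) (ZMod l)) i j ↔
      ‖A i j - (1 : Matrix (Fin n) (Fin n) ℚ_[l]) i j‖ < 1 := by
    intro i j
    have h1 : A i j - (1 : Matrix (Fin n) (Fin n) ℚ_[l]) i j =
        ((X i j - (1 : Matrix (Fin n) (Fin n) ℤ_[l]) i j : ℤ_[l]) : ℚ_[l]) := by
      rw [hA, Matrix.map_apply]
      push_cast
      congr 1
      rw [Matrix.one_apply, Matrix.one_apply]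
      split_ifs <;> simp
    have h2 : B i j - (1 : Matrix (Fin n) (Fin n) (ZMod l)) i j =
        (PadicInt.toZMod : ℤ_[l] →+* ZMod l) (X i j - (1 : Matrix (Fin n) (Fin n) ℤ_[l]) i j) := by
      rw [hB, Matrix.map_apply, map_sub]
      congr 1
      rw [Matrix.one_apply, Matrix.one_apply]
      split_ifs <;> simp
    rw [← sub_eq_zero, h2, ← RingHom.mem_ker, PadicInt.ker_toZMod, PadicInt.maximalIdeal_eq_span_p,
      Ideal.mem_span_singleton, ← PadicInt.norm_lt_one_iff_dvd, PadicInt.norm_def, h1]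
  constructor
  · intro h i j
    rw [← hent, h]
  · intro h
    ext i j
    rw [hent]
    exact h i j

end Pool.Agent.Helper37.Ad
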