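import Pool.Agent.Helper37.Ad.Res
import Pool.Agent.Helper37.Ad.Adic
import Pool.Agent.Helper37.Fd.DefsD
import Pool.Agent.NLL.Resid

/-!
# Project ADL, module ResV: the residual relation at a large place

PLAN. `C` is the number of `NLL.residual n a`. Take `O`, `k`, `φ` from `exists_residue` (so
`Nat.card k ≤ p ^ a`) and `τ : G → GL_n(F_p)` from `exists_red` for `T`. As all `V g` are integral, there is
`ρ : G →* GL (Fin 2) k` whose matrix is the entrywise reduction of `V g` (lift `V g` to a matrix over `O`,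
multiplicative; then `RingHom.mapMatrix φ`; units because `V g⁻¹` is integral too; `MonoidHom.toHomUnits`).
`ZMod.algebra k p` is the algebra structure. The hypotheses of `NLL.residual`:
(1) `τ x = 1` implies (`red_eq_one`) that the entries of `T x - 1` have norm `< 1`, so by `hker` not
`NSm (V x)`: `V x 0 1`, `V x 1 0`, `V x 0 0 - V x 1 1` have norm `≠ 1`, hence `< 1` (they are integral), so
`ρ x` is the scalar `φ (V x 0 0)`.
(2) Irreducibility: let `w ≠ 0` and `x`, `y` with `V x = !![1, 1; 0, 1]`, `V y = !![1, 0; 1, 1]`. If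
`ρ x w = c w` then `c = 1` and `w 1 = 0`; if `ρ y w = c w` then `w 0 = 0` (write out: `w 0 + w 1 = c w 0`,
`w 1 = c w 1`). So for every `w ≠ 0` one of `x`, `y` works (if both fail for `w` then `w = 0`).
(3) `ρ x = !![1, 1; 0, 1]` has order `p`: its `j`-th power is `!![1, j; 0, 1]`.
CONCLUSION: `det (Wm ..) = 0` over `k`. Every entry of `Wm (det V g) (tr² - 2 det) (T g over E)` lies in
`O` and reduces to the corresponding entry over `k` (two ring homomorphisms `ℤ_[p] → k`, the one through
`toZMod` and the one through `ℤ_[p] → O → k`, agree: `x - (toZMod x).val` is a multiple of `p`), so the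
determinant `D ∈ O` over `E` satisfies `φ D = 0`, i.e. `‖D‖ < 1`. (Work with a matrix over the subring `O`
and map it to `E` by `O.subtype` and to `k` by `φ`: `RingHom.map_det`.)
-/

set_option autoImplicit false

namespace Pool.Agent.Helper37.Ad

open Pool.Agent.Helper37.Fd Pool.Agent.NLL

private theorem resv_Wm_map {R S : Type*} [CommRing R] [CommRing S] (f : R →+* S) {n : ℕ}
    (d s : R) (T : Matrix (Fin n) (Fin n) R) : (Wm d s T).map f = Wm (f d) (f s) (T.map f) := by
  ext p q
  have h1 : ∀ i j, ((T.map f) * (T.map f)) i j = f ((T * T) i j) := by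
    intro i j
    rw [← Matrix.map_mul, Matrix.map_apply]
  simp only [Wm, Matrix.map_apply, Matrix.of_apply, map_sub, map_add, map_mul, h1]
  congr 1
  · congr 2
    split_ifs <;> simp
  · congr 2
    split_ifs <;> simp

private theorem resv_hom {p : ℕ} [Fact p.Prime] {k : Type} [Field k] [CharP k p]
    (ψ : ℤ_[p] →+* k) (x : ℤ_[p]) :
    ψ x = (ZMod.castHom (dvd_refl p) k) (PadicInt.toZMod x) := by
  have h1 := PadicInt.toZMod_spec x
  rw [PadicInt.maximalIdeal_eq_span_p, Ideal.mem_span_singleton] at h1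
  obtain ⟨y, hy⟩ := h1
  have h2 : x = ((PadicInt.toZMod x).val : ℤ_[p]) + p * y := by
    rw [← hy, ZMod.natCast_val]
    ring
  have h3 : ψ x = (((PadicInt.toZMod x).val : ℕ) : k) := by
    conv_lhs => rw [h2]
    rw [map_add, map_mul, map_natCast, map_natCast, CharP.cast_eq_zero k p, zero_mul, add_zero]
  rw [h3, ZMod.castHom_apply, ZMod.natCast_val]

theorem residual_place (n a : ℕ) : ∃ C : ℕ, ∀ (p : ℕ) [Fact p.Prime], C < p →
    ∀ (E : Type) [NontriviallyNormedField E] [IsUltrametricDist E] [NormedAlgebra ℚ_[p] E]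
    [FiniteDimensional ℚ_[p] E], Module.finrank ℚ_[p] E ≤ a →
    ∀ (G : Type) [Group G] (V : G →* GL (Fin 2) E) (T : G →* GL (Fin n) ℚ_[p]),
    (∀ g, Itg (V g : Matrix (Fin 2) (Fin 2) E)) →
    (∀ g, Itg (T g : Matrix (Fin n) (Fin n) ℚ_[p])) →
    (∀ y : Matrix.SpecialLinearGroup (Fin 2) E, Itg (y : Matrix (Fin 2) (Fin 2) E) →
      ∃ g, (V g : Matrix (Fin 2) (Fin 2) E) = (y : Matrix (Fin 2) (Fin 2) E)) →
    (∀ g : G, (∀ i j, ‖(T g : Matrix (Fin n) (Fin n) ℚ_[p]) i j -
      (1 : Matrix (Fin n) (Fin n) ℚ_[p]) i j‖ < 1) →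
      ¬ NSm (V g : Matrix (Fin 2) (Fin 2) E)) →
    ∀ g : G, ‖(Wm (V g : Matrix (Fin 2) (Fin 2) E).det
      ((V g : Matrix (Fin 2) (Fin 2) E).trace ^ 2 - 2 * (V g : Matrix (Fin 2) (Fin 2) E).det)
      (baseChange E T g : Matrix (Fin n) (Fin n) E)).det‖ < 1 := by
  obtain ⟨C, hC⟩ := residual n a
  refine ⟨C, ?_⟩
  intro p _ hCp E _ _ _ _ hfin G _ V T hV hT hfull hker g
  obtain ⟨O, k, _, _, _, φ, hO, hφs, hφ0, hcard⟩ := exists_residue (p := p) E
  letI : Algebra (ZMod p) k := (ZMod.castHom (dvd_refl p) k).toAlgebra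
  obtain ⟨τ, hτ⟩ := exists_red T hT
  have hcard' : Nat.card k ≤ p ^ a :=
    hcard.trans (Nat.pow_le_pow_right (Fact.out : p.Prime).pos hfin)
  -- the integral lift of `V`
  let MV : G →* Matrix (Fin 2) (Fin 2) O :=
    { toFun := fun x => Matrix.of fun i j =>
        ⟨(V x : Matrix (Fin 2) (Fin 2) E) i j, (hO _).2 (hV x i j)⟩
      map_one' := by
        ext i j
        simp only [Matrix.of_apply, map_one, Units.val_one, Matrix.one_apply]
        split_ifs <;> rfl
      map_mul' := by
        intro x y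
        ext i j
        simp only [Matrix.of_apply, map_mul, Units.val_mul, Matrix.mul_apply]
        rw [AddSubmonoidClass.coe_finsetSum]
        rfl }
  have hMV : ∀ x i j, ((MV x i j : O) : E) = (V x : Matrix (Fin 2) (Fin 2) E) i j :=
    fun x i j => rfl
  let ρ : G →* GL (Fin 2) k :=
    MonoidHom.toHomUnits ((φ.mapMatrix : Matrix (Fin 2) (Fin 2) O →+* _).toMonoidHom.comp MV)
  have hρ : ∀ x, (ρ x : Matrix (Fin 2) (Fin 2) k) = (MV x).map φ := fun x => rfl
  have hφ1 : ∀ (z : O), ‖(z : E)‖ ≠ 1 → φ z = 0 := by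
    intro z hz
    rw [hφ0]
    exact lt_of_le_of_ne ((hO _).1 z.2) hz
  -- the unipotent elements
  obtain ⟨x0, hx0⟩ := hfull ⟨!![1, 1; 0, 1], by simp [Matrix.det_fin_two]⟩ (by
    intro i j
    fin_cases i <;> fin_cases j <;> simp)
  obtain ⟨y0, hy0⟩ := hfull ⟨!![1, 0; 1, 1], by simp [Matrix.det_fin_two]⟩ (by
    intro i j
    fin_cases i <;> fin_cases j <;> simp)
  have hρx : (ρ x0 : Matrix (Fin 2) (Fin 2) k) = !![1, 1; 0, 1] := by
    rw [hρ]
    have e : MV x0 = !![1, 1; 0, 1] := by
      ext i j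
      rw [hMV, hx0]
      fin_cases i <;> fin_cases j <;> simp
    rw [e]
    ext i j
    fin_cases i <;> fin_cases j <;> simp
  have hρy : (ρ y0 : Matrix (Fin 2) (Fin 2) k) = !![1, 0; 1, 1] := by
    rw [hρ]
    have e : MV y0 = !![1, 0; 1, 1] := by
      ext i j
      rw [hMV, hy0]
      fin_cases i <;> fin_cases j <;> simp
    rw [e]
    ext i j
    fin_cases i <;> fin_cases j <;> simp
  have hres := hC p hCp k hcard' G ρ τ ?_ ?_ ?_ g
  · -- transfer
    obtain ⟨X, hX1, hX2⟩ := hτ g
    let ι : ℤ_[p] →+* O := RingHom.codRestrict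
      ((algebraMap ℚ_[p] E).comp (PadicInt.Coe.ringHom : ℤ_[p] →+* ℚ_[p])) O (by
        intro x
        rw [hO, RingHom.comp_apply, norm_algebraMap']
        exact PadicInt.norm_le_one x)
    have hι : ∀ x, ((ι x : O) : E) = algebraMap ℚ_[p] E (x : ℚ_[p]) := fun x => rfl
    have hφι : ∀ x, φ (ι x) = algebraMap (ZMod p) k (PadicInt.toZMod x) := by
      intro x
      exact resv_hom (φ.comp ι) x
    have h1 : (Wm (MV g).det ((MV g).trace ^ 2 - 2 * (MV g).det) (X.map ι)).map φ =
        Wm (ρ g : Matrix (Fin 2) (Fin 2) k).det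
          ((ρ g : Matrix (Fin 2) (Fin 2) k).trace ^ 2 -
            2 * (ρ g : Matrix (Fin 2) (Fin 2) k).det)
          ((τ g : Matrix (Fin n) (Fin n) (ZMod p)).map (algebraMap (ZMod p) k)) := by
      rw [resv_Wm_map, hρ]
      have e1 : φ (MV g).det = ((MV g).map φ).det := RingHom.map_det φ (MV g)
      have e2 : φ (MV g).trace = ((MV g).map φ).trace := by
        simp only [Matrix.trace_fin_two, map_add, Matrix.map_apply]
      have e3 : (X.map ι).map φ =
          (τ g : Matrix (Fin n) (Fin n) (ZMod p)).map (algebraMap (ZMod p) k) := by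
        rw [hX2]
        ext i j
        simp only [Matrix.map_apply]
        exact hφι _
      rw [map_sub, map_mul, map_pow, e1, e2, e3, map_ofNat]
    have h2 : (Wm (MV g).det ((MV g).trace ^ 2 - 2 * (MV g).det) (X.map ι)).map O.subtype =
        Wm (V g : Matrix (Fin 2) (Fin 2) E).det
          ((V g : Matrix (Fin 2) (Fin 2) E).trace ^ 2 -
            2 * (V g : Matrix (Fin 2) (Fin 2) E).det)
          (baseChange E T g : Matrix (Fin n) (Fin n) E) := by
      rw [resv_Wm_map]
      have e0 : (MV g).map O.subtype = (V g : Matrix (Fin 2) (Fin 2) E) := by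
        ext i j
        rfl
      have e1 : O.subtype (MV g).det = (V g : Matrix (Fin 2) (Fin 2) E).det := by
        rw [← e0]
        exact RingHom.map_det O.subtype (MV g)
      have e2 : O.subtype (MV g).trace = (V g : Matrix (Fin 2) (Fin 2) E).trace := by
        rw [← e0]
        simp only [Matrix.trace_fin_two, map_add, Matrix.map_apply]
      have e3 : (X.map ι).map O.subtype = (baseChange E T g : Matrix (Fin n) (Fin n) E) := by
        have e4 : (baseChange E T g : Matrix (Fin n) (Fin n) E) =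
            (T g : Matrix (Fin n) (Fin n) ℚ_[p]).map (algebraMap ℚ_[p] E) := rfl
        rw [e4, hX1]
        ext i j
        rfl
      rw [map_sub, map_mul, map_pow, e1, e2, e3, map_ofNat]
    rw [← h2]
    have h3 : ((Wm (MV g).det ((MV g).trace ^ 2 - 2 * (MV g).det) (X.map ι)).map
        O.subtype).det = O.subtype (Wm (MV g).det ((MV g).trace ^ 2 - 2 * (MV g).det)
        (X.map ι)).det := (RingHom.map_det O.subtype _).symm
    have h4 : φ (Wm (MV g).det ((MV g).trace ^ 2 - 2 * (MV g).det) (X.map ι)).det = 0 := by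
      rw [RingHom.map_det φ]
      show ((Wm (MV g).det ((MV g).trace ^ 2 - 2 * (MV g).det) (X.map ι)).map φ).det = 0
      rw [h1]
      exact hres
    rw [h3]
    exact (hφ0 _).1 h4
  · -- scalars
    intro x hx
    obtain ⟨X, hX1, hX2⟩ := hτ x
    have h1 := (red_eq_one hX1 hX2).1 (by rw [hx, Units.val_one])
    have h2 := hker x h1
    rw [NSm, not_or, not_or] at h2
    obtain ⟨h01, h10, h00⟩ := h2
    refine ⟨φ (MV x 0 0), ?_⟩
    have a1 : φ (MV x 0 1) = 0 := hφ1 _ h01
    have a2 : φ (MV x 1 0) = 0 := hφ1 _ h10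
    have a3 : φ (MV x 0 0) = φ (MV x 1 1) := by
      have h3 : φ (MV x 0 0 - MV x 1 1) = 0 := hφ1 _ h00
      rw [map_sub, sub_eq_zero] at h3
      exact h3
    rw [hρ]
    ext i j
    fin_cases i <;> fin_cases j <;> simp [a1, a2, a3]
  · -- irreducibility
    intro w hw
    by_contra hcon
    push Not at hcon
    obtain ⟨c, hc⟩ := hcon x0
    obtain ⟨d, hd⟩ := hcon y0
    rw [hρx] at hc
    rw [hρy] at hd
    have c0 : w 0 + w 1 = c * w 0 := by
      have := congrFun hc 0
      simpa [Matrix.mulVec, dotProduct, Fin.sum_univ_two] using this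
    have c1 : w 1 = c * w 1 := by
      have := congrFun hc 1
      simpa [Matrix.mulVec, dotProduct, Fin.sum_univ_two] using this
    have d0 : w 0 = d * w 0 := by
      have := congrFun hd 0
      simpa [Matrix.mulVec, dotProduct, Fin.sum_univ_two] using this
    have d1 : w 0 + w 1 = d * w 1 := by
      have := congrFun hd 1
      simpa [Matrix.mulVec, dotProduct, Fin.sum_univ_two] using this
    have hw1 : w 1 = 0 := by
      by_contra h
      have hc1 : c = 1 := by
        have : (c - 1) * w 1 = 0 := by linear_combination -c1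
        rcases mul_eq_zero.1 this with h' | h'
        · linear_combination h'
        · exact absurd h' h
      rw [hc1, one_mul] at c0
      exact h (by linear_combination c0)
    have hw0 : w 0 = 0 := by
      rw [hw1, add_zero, mul_zero] at d1
      exact d1
    exact hw (by
      ext i
      fin_cases i
      · exact hw0
      · exact hw1)
  · -- order divisible by `p`
    refine ⟨x0, ?_⟩
    have hpow : ∀ j : ℕ, ((ρ x0 : Matrix (Fin 2) (Fin 2) k)) ^ j = !![1, (j : k); 0, 1] := by
      intro j
      induction j with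
      | zero =>
        rw [pow_zero]
        ext i j
        fin_cases i <;> fin_cases j <;> simp
      | succ j ih =>
        rw [pow_succ, ih, hρx]
        ext i j
        fin_cases i <;> fin_cases j <;> simp [Matrix.mul_apply, Fin.sum_univ_two, add_comm]
    have h1 := hpow (orderOf (ρ x0))
    rw [← Units.val_pow_eq_pow_val, pow_orderOf_eq_one, Units.val_one] at h1
    have h2 := congrFun (congrFun h1 0) 1
    have h3 : ((orderOf (ρ x0) : ℕ) : k) = 0 := by
      simpa using h2.symm
    exact (CharP.cast_eq_zero_iff k p _).1 h3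

end Pool.Agent.Helper37.Ad
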