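import Pool.Agent.Helper37.Ad.Comm
import Pool.Agent.Helper27.FM.Defs

/-!
# Project ADL, module Irr: strong irreducibility

If `V(G)` contains all matrices of `SL_2(O)` near `1` then `V` is strongly irreducible (powers of
`!![1, t; 0, 1]` and `!![1, 0; t, 1]` lie in every open subgroup and generate the matrix algebra);
if `V` is trivial on `A ⊓ U` with `U` open then `V(A)` contains no neighbourhood of `1` in `SL_2(O)`.
-/

set_option autoImplicit false

namespace Pool.Agent.Helper37.Ad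

open Pool.Agent.Helper27.FM

private theorem exists_pow {G : Type*} [Group G] [TopologicalSpace G] [IsTopologicalGroup G]
    [CompactSpace G] (U : Subgroup G) (hU : IsOpen (U : Set G)) (x : G) :
    ∃ a : ℕ, 0 < a ∧ x ^ a ∈ U := by
  have hf : Finite (G ⧸ U) := Subgroup.quotient_finite_of_isOpen U hU
  have hi : U.index ≠ 0 := by
    rw [Subgroup.index]
    exact Nat.card_ne_zero.2 ⟨⟨((1 : G) : G ⧸ U)⟩, hf⟩
  obtain ⟨a, ha0, -, ha⟩ := Subgroup.exists_pow_mem_of_index_ne_zero hi x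
  exact ⟨a, ha0, ha⟩

private theorem up_pow {E : Type*} [Field E] (t : E) (a : ℕ) :
    (!![1, t; 0, 1] : Matrix (Fin 2) (Fin 2) E) ^ a = !![1, (a : E) * t; 0, 1] := by
  induction a with
  | zero =>
    rw [pow_zero]
    ext i j
    fin_cases i <;> fin_cases j <;> simp
  | succ n ih =>
    rw [pow_succ, ih]
    ext i j
    fin_cases i <;> fin_cases j <;> simp [Matrix.mul_apply, Fin.sum_univ_two]
    ring

private theorem dn_pow {E : Type*} [Field E] (t : E) (a : ℕ) :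
    (!![1, 0; t, 1] : Matrix (Fin 2) (Fin 2) E) ^ a = !![1, 0; (a : E) * t, 1] := by
  induction a with
  | zero =>
    rw [pow_zero]
    ext i j
    fin_cases i <;> fin_cases j <;> simp
  | succ n ih =>
    rw [pow_succ, ih]
    ext i j
    fin_cases i <;> fin_cases j <;> simp [Matrix.mul_apply, Fin.sum_univ_two]
    ring

private theorem itg_up {E : Type*} [NormedField E] {t : E} (ht : ‖t‖ ≤ 1) :
    Itg (!![1, t; 0, 1] : Matrix (Fin 2) (Fin 2) E) := by
  intro i j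
  fin_cases i <;> fin_cases j <;> simp [ht]

private theorem itg_dn {E : Type*} [NormedField E] {t : E} (ht : ‖t‖ ≤ 1) :
    Itg (!![1, 0; t, 1] : Matrix (Fin 2) (Fin 2) E) := by
  intro i j
  fin_cases i <;> fin_cases j <;> simp [ht]

private theorem near_up {E : Type*} [NormedField E] {t : E} {ε : ℝ} (hε : 0 < ε) (ht : ‖t‖ < ε) :
    Near ε (!![1, t; 0, 1] : Matrix (Fin 2) (Fin 2) E) := by
  intro i j
  fin_cases i <;> fin_cases j <;> simp [ht, hε]

private theorem near_dn {E : Type*} [NormedField E] {t : E} {ε : ℝ} (hε : 0 < ε) (ht : ‖t‖ < ε) :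
    Near ε (!![1, 0; t, 1] : Matrix (Fin 2) (Fin 2) E) := by
  intro i j
  fin_cases i <;> fin_cases j <;> simp [ht, hε]

private theorem V_pow {E : Type*} [Field E] {G : Type*} [Group G] (V : G →* GL (Fin 2) E) (x : G)
    (a : ℕ) : (V (x ^ a) : Matrix (Fin 2) (Fin 2) E) = (V x : Matrix (Fin 2) (Fin 2) E) ^ a := by
  rw [map_pow, Units.val_pow_eq_pow_val]

theorem strIrr_of_near {E : Type*} [NontriviallyNormedField E] [IsUltrametricDist E] [CharZero E]
    {G : Type*} [Group G] [TopologicalSpace G] [IsTopologicalGroup G] [CompactSpace G]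
    (V : G →* GL (Fin 2) E) {ε : ℝ} (hε : 0 < ε)
    (h : ∀ y : Matrix.SpecialLinearGroup (Fin 2) E, Itg (y : Matrix (Fin 2) (Fin 2) E) →
      Near ε (y : Matrix (Fin 2) (Fin 2) E) →
      ∃ g, (V g : Matrix (Fin 2) (Fin 2) E) = (y : Matrix (Fin 2) (Fin 2) E)) :
    StronglyIrreducible V := by
  intro U hU
  obtain ⟨t, ht0, ht⟩ := NormedField.exists_norm_lt E (lt_min one_pos hε)
  have ht1 : ‖t‖ ≤ 1 := (ht.trans_le (min_le_left _ _)).le
  have ht2 : ‖t‖ < ε := ht.trans_le (min_le_right _ _)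
  have htn : t ≠ 0 := norm_pos_iff.1 ht0
  obtain ⟨x, hx⟩ := h ⟨!![1, t; 0, 1], by simp [Matrix.det_fin_two]⟩ (itg_up ht1) (near_up hε ht2)
  obtain ⟨y, hy⟩ := h ⟨!![1, 0; t, 1], by simp [Matrix.det_fin_two]⟩ (itg_dn ht1) (near_dn hε ht2)
  have hx' : (V x : Matrix (Fin 2) (Fin 2) E) = !![1, t; 0, 1] := hx
  have hy' : (V y : Matrix (Fin 2) (Fin 2) E) = !![1, 0; t, 1] := hy
  obtain ⟨a, ha0, ha⟩ := exists_pow U hU x
  obtain ⟨b, hb0, hb⟩ := exists_pow U hU y
  have hA : (V (x ^ a) : Matrix (Fin 2) (Fin 2) E) = !![1, (a : E) * t; 0, 1] := by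
    rw [V_pow, hx', up_pow]
  have hB : (V (y ^ b) : Matrix (Fin 2) (Fin 2) E) = !![1, 0; (b : E) * t, 1] := by
    rw [V_pow, hy', dn_pow]
  have hC : (V (x ^ a * y ^ b) : Matrix (Fin 2) (Fin 2) E) =
      !![1, (a : E) * t; 0, 1] * !![1, 0; (b : E) * t, 1] := by
    rw [map_mul, Units.val_mul, hA, hB]
  have hat : (a : E) * t ≠ 0 := mul_ne_zero (Nat.cast_ne_zero.2 ha0.ne') htn
  have hbt : (b : E) * t ≠ 0 := mul_ne_zero (Nat.cast_ne_zero.2 hb0.ne') htn
  generalize (a : E) * t = α at hA hC hat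
  generalize (b : E) * t = β at hB hC hbt
  set W := Submodule.span E ((fun g => (V g : Matrix (Fin 2) (Fin 2) E)) '' (U : Set G)) with hW
  have m1 : (1 : Matrix (Fin 2) (Fin 2) E) ∈ W :=
    Submodule.subset_span ⟨1, U.one_mem, by simp⟩
  have mA : (!![1, α; 0, 1] : Matrix (Fin 2) (Fin 2) E) ∈ W :=
    Submodule.subset_span ⟨x ^ a, ha, hA⟩
  have mB : (!![1, 0; β, 1] : Matrix (Fin 2) (Fin 2) E) ∈ W :=
    Submodule.subset_span ⟨y ^ b, hb, hB⟩
  have mC : (!![1, α; 0, 1] * !![1, 0; β, 1] : Matrix (Fin 2) (Fin 2) E) ∈ W :=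
    Submodule.subset_span ⟨x ^ a * y ^ b, U.mul_mem ha hb, hC⟩
  have m12 : (!![0, 1; 0, 0] : Matrix (Fin 2) (Fin 2) E) ∈ W := by
    have h1 := W.smul_mem α⁻¹ (W.sub_mem mA m1)
    have h2 : α⁻¹ • ((!![1, α; 0, 1] : Matrix (Fin 2) (Fin 2) E) - 1) = !![0, 1; 0, 0] := by
      ext i j
      fin_cases i <;> fin_cases j <;> simp [hat]
    rwa [h2] at h1
  have m21 : (!![0, 0; 1, 0] : Matrix (Fin 2) (Fin 2) E) ∈ W := by
    have h1 := W.smul_mem β⁻¹ (W.sub_mem mB m1)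
    have h2 : β⁻¹ • ((!![1, 0; β, 1] : Matrix (Fin 2) (Fin 2) E) - 1) = !![0, 0; 1, 0] := by
      ext i j
      fin_cases i <;> fin_cases j <;> simp [hbt]
    rwa [h2] at h1
  have m11 : (!![1, 0; 0, 0] : Matrix (Fin 2) (Fin 2) E) ∈ W := by
    have h1 := W.smul_mem (α * β)⁻¹ (W.add_mem (W.sub_mem (W.sub_mem mC mA) mB) m1)
    have h2 : (α * β)⁻¹ • ((!![1, α; 0, 1] * !![1, 0; β, 1] : Matrix (Fin 2) (Fin 2) E) -
        !![1, α; 0, 1] - !![1, 0; β, 1] + 1) = !![1, 0; 0, 0] := by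
      have hne : α * β ≠ 0 := mul_ne_zero hat hbt
      have h3 : ((!![1, α; 0, 1] * !![1, 0; β, 1] : Matrix (Fin 2) (Fin 2) E) -
        !![1, α; 0, 1] - !![1, 0; β, 1] + 1) = !![α * β, 0; 0, 0] := by
        ext i j
        fin_cases i <;> fin_cases j <;> simp
      rw [h3]
      ext i j
      fin_cases i <;> fin_cases j <;> simp
      field_simp
    rwa [h2] at h1
  have m22 : (!![0, 0; 0, 1] : Matrix (Fin 2) (Fin 2) E) ∈ W := by
    have h1 := W.sub_mem m1 m11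
    have h2 : (1 : Matrix (Fin 2) (Fin 2) E) - !![1, 0; 0, 0] = !![0, 0; 0, 1] := by
      ext i j
      fin_cases i <;> fin_cases j <;> simp
    rwa [h2] at h1
  rw [eq_top_iff]
  intro M _
  have hM : M = M 0 0 • (!![1, 0; 0, 0] : Matrix (Fin 2) (Fin 2) E) + M 0 1 • !![0, 1; 0, 0] +
      M 1 0 • !![0, 0; 1, 0] + M 1 1 • !![0, 0; 0, 1] := by
    ext i j
    fin_cases i <;> fin_cases j <;> simp
  rw [hM]
  exact W.add_mem (W.add_mem (W.add_mem (W.smul_mem _ m11) (W.smul_mem _ m12)) (W.smul_mem _ m21))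
    (W.smul_mem _ m22)

/-- if `V` is trivial on `A ⊓ U` for an open subgroup `U` then `V(A)` contains no open subgroup of
`SL_2(O)` -/
theorem not_near_of_trivial {E : Type*} [NontriviallyNormedField E] [IsUltrametricDist E] [CharZero E]
    {G : Type*} [Group G] [TopologicalSpace G] [IsTopologicalGroup G] [CompactSpace G]
    (V : G →* GL (Fin 2) E) (A U : Subgroup G) (hU : IsOpen (U : Set G))
    (htriv : ∀ g ∈ A, g ∈ U → (V g : Matrix (Fin 2) (Fin 2) E) = 1) {ε : ℝ} (hε : 0 < ε) :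
    ¬ ∀ y : Matrix.SpecialLinearGroup (Fin 2) E, Itg (y : Matrix (Fin 2) (Fin 2) E) →
      Near ε (y : Matrix (Fin 2) (Fin 2) E) →
      ∃ g ∈ A, (V g : Matrix (Fin 2) (Fin 2) E) = (y : Matrix (Fin 2) (Fin 2) E) := by
  intro h
  obtain ⟨t, ht0, ht⟩ := NormedField.exists_norm_lt E (lt_min one_pos hε)
  have ht1 : ‖t‖ ≤ 1 := (ht.trans_le (min_le_left _ _)).le
  have ht2 : ‖t‖ < ε := ht.trans_le (min_le_right _ _)
  have htn : t ≠ 0 := norm_pos_iff.1 ht0
  obtain ⟨x, hxA, hx⟩ := h ⟨!![1, t; 0, 1], by simp [Matrix.det_fin_two]⟩ (itg_up ht1)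
    (near_up hε ht2)
  have hx' : (V x : Matrix (Fin 2) (Fin 2) E) = !![1, t; 0, 1] := hx
  obtain ⟨a, ha0, ha⟩ := exists_pow U hU x
  have h1 := htriv (x ^ a) (A.pow_mem hxA a) ha
  rw [V_pow, hx', up_pow] at h1
  have h2 := congrFun (congrFun h1 0) 1
  have hat : (a : E) * t ≠ 0 := mul_ne_zero (Nat.cast_ne_zero.2 ha0.ne') htn
  apply hat
  simpa using h2

end Pool.Agent.Helper37.Ad
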