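import Pool.Agent.Helper37.Ad.LawG

/-!
# Project ADL, module Lift: the law modulo a subgroup of `p`-power index

PLAN. `R = M ⊓ ⨅ l, (τ l).ker` is a normal subgroup of finite index of `U` (finite intersection of
subgroups of finite index: `(τ l).ker` has finite index because the range is finite). `Q = U ⧸ R` is
finite; let `f : Q →* U ⧸ M` (surjective) and `τ' l : Q →* GL (Fin n) (K l)` be the induced maps. Let `P`
be a Sylow `p`-subgroup of `Q`. As `U ⧸ M` is a `p`-group, `P → U ⧸ M` is surjective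
(`Sylow.mapSurjective` and: a Sylow subgroup of a `p`-group is everything). So there are
`a, b ∈ P` with `f a = x mod M`, `f b = y mod M`; choose `x', y' ∈ U` representing `a`, `b`. Put
`z = x' ^ n! * y' ^ n! * (x' ^ n!)⁻¹ * (y' ^ n!)⁻¹`. By `law_hom` for the finite `p`-group `P` and
`τ' l` restricted to `P` we get `τ l z = 1` for all `l`; and `z` is congruent to the same expression in
`x`, `y` modulo `M`.
-/

set_option autoImplicit false

namespace Pool.Agent.Helper37.Ad

theorem law_lift {p n : ℕ} [Fact p.Prime] {U : Type*} [Group U] (M : Subgroup U) [M.Normal]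
    (hM : M.FiniteIndex) (hMp : IsPGroup p (U ⧸ M)) {F : Type*} [Finite F] (K : F → Type*)
    [∀ l, Field (K l)] (hK : ∀ l, (p : K l) ≠ 0) (τ : ∀ l, U →* GL (Fin n) (K l))
    (hτ : ∀ l, Finite (τ l).range) (x y : U) :
    ∃ z : U, (∀ l, τ l z = 1) ∧
      z * (x ^ n.factorial * y ^ n.factorial * (x ^ n.factorial)⁻¹ * (y ^ n.factorial)⁻¹)⁻¹ ∈ M := by
  classical
  set R : Subgroup U := M ⊓ ⨅ l, (τ l).ker with hR
  haveI := hM
  haveI hker : ∀ l, ((τ l).ker).FiniteIndex := by
    intro l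
    haveI := hτ l
    infer_instance
  haveI hinf : (⨅ l, (τ l).ker).FiniteIndex := Subgroup.finiteIndex_iInf hker
  haveI hRf : R.FiniteIndex := by
    rw [hR]
    infer_instance
  have hinfn : (⨅ l, (τ l).ker).Normal := by
    refine ⟨fun a ha g => ?_⟩
    rw [Subgroup.mem_iInf] at ha ⊢
    intro l
    have h1 := ha l
    rw [MonoidHom.mem_ker] at h1 ⊢
    rw [map_mul, map_mul, h1, map_inv, mul_one, mul_inv_cancel]
  haveI hRn : R.Normal := by
    refine ⟨fun a ha g => ?_⟩
    rw [hR, Subgroup.mem_inf] at ha ⊢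
    exact ⟨(inferInstance : M.Normal).conj_mem a ha.1 g, hinfn.conj_mem a ha.2 g⟩
  have hRM : R ≤ M := inf_le_left
  have hRk : ∀ l, R ≤ (τ l).ker := fun l => inf_le_right.trans (iInf_le _ l)
  haveI : Finite (U ⧸ R) := Subgroup.finite_quotient_of_finiteIndex
  set f : U ⧸ R →* U ⧸ M := QuotientGroup.lift R (QuotientGroup.mk' M) (by
    intro g hg
    exact (QuotientGroup.eq_one_iff g).2 (hRM hg)) with hf
  have hfmk : ∀ g : U, f (QuotientGroup.mk' R g) = QuotientGroup.mk' M g := fun g => rfl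
  have hfs : Function.Surjective f := by
    intro q
    obtain ⟨g, rfl⟩ := QuotientGroup.mk'_surjective M q
    exact ⟨QuotientGroup.mk' R g, hfmk g⟩
  let τ' : ∀ l, U ⧸ R →* GL (Fin n) (K l) := fun l => QuotientGroup.lift R (τ l) (by
    intro g hg
    exact hRk l hg)
  have hτ' : ∀ l (g : U), τ' l (QuotientGroup.mk' R g) = τ l g := fun l g => rfl
  obtain ⟨P⟩ : Nonempty (Sylow p (U ⧸ R)) := inferInstance
  have htop : ((P.mapSurjective hfs : Sylow p (U ⧸ M)) : Subgroup (U ⧸ M)) = ⊤ :=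
    ((P.mapSurjective hfs).is_maximal' (hMp.to_subgroup ⊤) le_top).symm
  rw [Sylow.coe_mapSurjective] at htop
  have hsur : ∀ g : U, ∃ g' : U, QuotientGroup.mk' R g' ∈ (P : Subgroup (U ⧸ R)) ∧
      QuotientGroup.mk' M g' = QuotientGroup.mk' M g := by
    intro g
    have h1 : QuotientGroup.mk' M g ∈ (P : Subgroup (U ⧸ R)).map f := by
      rw [htop]
      exact Subgroup.mem_top _
    obtain ⟨a, ha, hga⟩ := Subgroup.mem_map.1 h1
    obtain ⟨g', rfl⟩ := QuotientGroup.mk'_surjective R a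
    exact ⟨g', ha, by rw [← hga, hfmk]⟩
  obtain ⟨x', hx', hxx⟩ := hsur x
  obtain ⟨y', hy', hyy⟩ := hsur y
  refine ⟨x' ^ n.factorial * y' ^ n.factorial * (x' ^ n.factorial)⁻¹ * (y' ^ n.factorial)⁻¹, ?_, ?_⟩
  · intro l
    have h2 := law_hom (hK l) P.2 ((τ' l).comp (P : Subgroup (U ⧸ R)).subtype)
      ⟨QuotientGroup.mk' R x', hx'⟩ ⟨QuotientGroup.mk' R y', hy'⟩
    have h3 : τ l (x' ^ n.factorial) * τ l (y' ^ n.factorial) =
        τ l (y' ^ n.factorial) * τ l (x' ^ n.factorial) := h2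
    rw [map_mul, map_mul, map_mul, h3, map_inv, map_inv, mul_inv_cancel_right, mul_inv_cancel]
  · have h4 : QuotientGroup.mk' M
        (x' ^ n.factorial * y' ^ n.factorial * (x' ^ n.factorial)⁻¹ * (y' ^ n.factorial)⁻¹ *
          (x ^ n.factorial * y ^ n.factorial * (x ^ n.factorial)⁻¹ * (y ^ n.factorial)⁻¹)⁻¹) = 1 := by
      simp only [map_mul, map_inv, map_pow]
      rw [hxx, hyy, mul_inv_cancel]
    exact (QuotientGroup.eq_one_iff _).1 h4

end Pool.Agent.Helper37.Ad
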