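import Pool.Agent.Helper37.Ad.Comm

/-!
# Project ADL, module Pow: congruence subgroups at `p`
-/

set_option autoImplicit false

namespace Pool.Agent.Helper37.Ad

open Matrix

section aux

variable {E : Type*} [NontriviallyNormedField E] [IsUltrametricDist E] {n : ℕ}

/-- entries of norm at most `r` -/
private def Bd (r : ℝ) (A : Matrix (Fin n) (Fin n) E) : Prop := ∀ i j, ‖A i j‖ ≤ r

omit [IsUltrametricDist E] in
private theorem Bd.mono {r s : ℝ} {A : Matrix (Fin n) (Fin n) E} (h : Bd r A) (hrs : r ≤ s) :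
    Bd s A := fun i j => (h i j).trans hrs

omit [IsUltrametricDist E] in
private theorem Bd.neg {r : ℝ} {A : Matrix (Fin n) (Fin n) E} (h : Bd r A) : Bd r (-A) := by
  intro i j
  rw [Matrix.neg_apply, norm_neg]
  exact h i j

private theorem Bd.add {r : ℝ} {A B : Matrix (Fin n) (Fin n) E} (hA : Bd r A) (hB : Bd r B) :
    Bd r (A + B) := by
  intro i j
  rw [Matrix.add_apply]
  exact (IsUltrametricDist.norm_add_le_max _ _).trans (max_le (hA i j) (hB i j))

private theorem Bd.mul {r s : ℝ} {A B : Matrix (Fin n) (Fin n) E} (hA : Bd r A) (hB : Bd s B)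
    (hr : 0 ≤ r) (hs : 0 ≤ s) : Bd (r * s) (A * B) := by
  intro i j
  rw [Matrix.mul_apply]
  refine IsUltrametricDist.norm_sum_le_of_forall_le_of_nonneg (mul_nonneg hr hs) ?_
  intro k _
  rw [norm_mul]
  exact mul_le_mul (hA i k) (hB k j) (norm_nonneg _) hr

private theorem Bd.sum {ι : Type*} {r : ℝ} (hr : 0 ≤ r) (s : Finset ι)
    (f : ι → Matrix (Fin n) (Fin n) E) (h : ∀ k ∈ s, Bd r (f k)) : Bd r (∑ k ∈ s, f k) := by
  intro i j
  rw [Matrix.sum_apply]
  exact IsUltrametricDist.norm_sum_le_of_forall_le_of_nonneg hr fun k hk => h k hk i j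

omit [IsUltrametricDist E] in
private theorem bd_one : Bd 1 (1 : Matrix (Fin n) (Fin n) E) := by
  intro i j
  rw [Matrix.one_apply]
  split_ifs
  · rw [norm_one]
  · rw [norm_zero]
    exact zero_le_one

private theorem Bd.pow {r : ℝ} {A : Matrix (Fin n) (Fin n) E} (hA : Bd r A) (hr : 0 ≤ r)
    (m : ℕ) : Bd (r ^ m) (A ^ m) := by
  induction m with
  | zero =>
    rw [pow_zero, pow_zero]
    exact bd_one
  | succ m ih =>
    rw [pow_succ, pow_succ]
    exact ih.mul hA (pow_nonneg hr m) hr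

/-- the key estimate -/
private theorem bd_pow_p {p : ℕ} (hp : p.Prime) {A : Matrix (Fin n) (Fin n) E} {r : ℝ}
    (hA : Bd r (A - 1)) (hr : 0 ≤ r) (hr1 : r ≤ ‖(p : E)‖) :
    Bd (r * ‖(p : E)‖) (A ^ p - 1) := by
  obtain ⟨X, hX⟩ : ∃ X, X = A - 1 := ⟨_, rfl⟩
  rw [← hX] at hA
  have hp1 : ‖(p : E)‖ ≤ 1 := IsUltrametricDist.norm_natCast_le_one E p
  have hr1' : r ≤ 1 := hr1.trans hp1
  have hA1 : A = X + 1 := by rw [hX, sub_add_cancel]
  have e : A ^ p - 1 = ∑ m ∈ Finset.range p, ((p.choose (m + 1) : ℕ) : Matrix (Fin n) (Fin n) E) *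
      X ^ (m + 1) := by
    rw [hA1, (Commute.one_right X).add_pow, Finset.sum_range_succ']
    simp only [one_pow, mul_one, pow_zero, Nat.choose_zero_right, Nat.cast_one,
      add_sub_cancel_right]
    refine Finset.sum_congr rfl fun m _ => ?_
    exact (Nat.cast_commute _ _).symm
  rw [e]
  refine Bd.sum (mul_nonneg hr (norm_nonneg _)) _ _ ?_
  intro m hm
  rw [Finset.mem_range] at hm
  have hXm := hA.pow hr (m + 1)
  by_cases hmp : m + 1 = p
  · rw [hmp, Nat.choose_self, Nat.cast_one, one_mul]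
    refine (hA.pow hr p).mono ?_
    calc r ^ p ≤ r ^ 2 := pow_le_pow_of_le_one hr hr1' hp.two_le
      _ = r * r := pow_two r
      _ ≤ r * ‖(p : E)‖ := mul_le_mul_of_nonneg_left hr1 hr
  · have hdvd : p ∣ p.choose (m + 1) :=
      hp.dvd_choose_self (Nat.succ_ne_zero m) (by omega)
    obtain ⟨c, hc⟩ := hdvd
    intro i j
    have e2 : (((p.choose (m + 1) : ℕ) : Matrix (Fin n) (Fin n) E) * X ^ (m + 1)) i j =
        ((p.choose (m + 1) : ℕ) : E) * (X ^ (m + 1)) i j := by
      rw [← nsmul_eq_mul, Matrix.smul_apply, nsmul_eq_mul]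
    rw [e2, norm_mul, hc, Nat.cast_mul, norm_mul]
    have h1 : ‖(c : E)‖ ≤ 1 := IsUltrametricDist.norm_natCast_le_one E c
    have h2 : ‖(X ^ (m + 1)) i j‖ ≤ r := by
      refine (hXm i j).trans ?_
      rw [pow_succ]
      exact mul_le_of_le_one_left hr (pow_le_one₀ hr hr1')
    calc ‖(p : E)‖ * ‖(c : E)‖ * ‖(X ^ (m + 1)) i j‖ ≤ ‖(p : E)‖ * 1 * r := by
          gcongr
      _ = r * ‖(p : E)‖ := by ring

end aux

theorem exists_cong {p : ℕ} [Fact p.Prime] {E : Type*} [NontriviallyNormedField E]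
    [IsUltrametricDist E] [NormedAlgebra ℚ_[p] E] {G : Type*} [Group G] [TopologicalSpace G] {n : ℕ}
    (V : G →* GL (Fin n) E) (hV : Continuous V)
    (hVi : ∀ g, Itg (V g : Matrix (Fin n) (Fin n) E)) :
    ∃ B : ℕ → Subgroup G, (∀ k, (B k).Normal) ∧ (∀ k, IsClosed (B k : Set G)) ∧
      (∀ k, IsOpen (B k : Set G)) ∧ Antitone B ∧
      (∀ k g, g ∈ B k ↔ ∀ i j, ‖(V g : Matrix (Fin n) (Fin n) E) i j -
        (1 : Matrix (Fin n) (Fin n) E) i j‖ ≤ ‖(p : E)‖ ^ (k + 1)) ∧
      (∀ k, ∀ a ∈ B 0, a ^ p ^ k ∈ B k) ∧ ⨅ k, B k = V.ker := by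
  have hpp : p.Prime := Fact.out
  have hpn : ‖(p : E)‖ = (p : ℝ)⁻¹ := by
    rw [← map_natCast (algebraMap ℚ_[p] E) p, norm_algebraMap', Padic.norm_p]
  have hp0 : 0 < ‖(p : E)‖ := by
    rw [hpn]
    exact inv_pos.2 (by exact_mod_cast hpp.pos)
  have hp1 : ‖(p : E)‖ < 1 := by
    rw [hpn]
    exact inv_lt_one_of_one_lt₀ (by exact_mod_cast hpp.one_lt)
  have hc0 : ∀ k : ℕ, 0 < ‖(p : E)‖ ^ (k + 1) := fun k => pow_pos hp0 _
  have hVb : ∀ g, Bd 1 (V g : Matrix (Fin n) (Fin n) E) := hVi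
  have hinv : ∀ g, (V g⁻¹ : Matrix (Fin n) (Fin n) E) * (V g : Matrix (Fin n) (Fin n) E) = 1 := by
    intro g
    rw [← Units.val_mul, ← map_mul, inv_mul_cancel, map_one, Units.val_one]
  have hinv' : ∀ g, (V g : Matrix (Fin n) (Fin n) E) * (V g⁻¹ : Matrix (Fin n) (Fin n) E) = 1 := by
    intro g
    rw [← Units.val_mul, ← map_mul, mul_inv_cancel, map_one, Units.val_one]
  let B : ℕ → Subgroup G := fun k =>
    { carrier := {g | Bd (‖(p : E)‖ ^ (k + 1)) ((V g : Matrix (Fin n) (Fin n) E) - 1)}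
      mul_mem' := by
        intro a b ha hb
        have e : (V (a * b) : Matrix (Fin n) (Fin n) E) - 1 =
            ((V a : Matrix (Fin n) (Fin n) E) - 1) * (V b : Matrix (Fin n) (Fin n) E) +
              ((V b : Matrix (Fin n) (Fin n) E) - 1) := by
          rw [map_mul, Units.val_mul, sub_mul, one_mul]
          abel
        change Bd _ ((V (a * b) : Matrix (Fin n) (Fin n) E) - 1)
        rw [e]
        have h1 := Bd.mul ha (hVb b) (hc0 k).le zero_le_one
        rw [mul_one] at h1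
        exact h1.add hb
      one_mem' := by
        change Bd _ ((V 1 : Matrix (Fin n) (Fin n) E) - 1)
        rw [map_one, Units.val_one, sub_self]
        intro i j
        rw [Matrix.zero_apply, norm_zero]
        exact (hc0 k).le
      inv_mem' := by
        intro a ha
        have e : (V a⁻¹ : Matrix (Fin n) (Fin n) E) - 1 =
            -((V a⁻¹ : Matrix (Fin n) (Fin n) E) * ((V a : Matrix (Fin n) (Fin n) E) - 1)) := by
          rw [mul_sub, hinv, mul_one, neg_sub]
        change Bd _ ((V a⁻¹ : Matrix (Fin n) (Fin n) E) - 1)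
        rw [e]
        have h1 := Bd.mul (hVb a⁻¹) ha zero_le_one (hc0 k).le
        rw [one_mul] at h1
        exact h1.neg }
  have hB : ∀ k g, g ∈ B k ↔ Bd (‖(p : E)‖ ^ (k + 1)) ((V g : Matrix (Fin n) (Fin n) E) - 1) :=
    fun k g => Iff.rfl
  have hB' : ∀ k g, g ∈ B k ↔ ∀ i j, ‖(V g : Matrix (Fin n) (Fin n) E) i j -
      (1 : Matrix (Fin n) (Fin n) E) i j‖ ≤ ‖(p : E)‖ ^ (k + 1) := fun k g => Iff.rfl
  have hcont : ∀ i j, Continuous fun g => (V g : Matrix (Fin n) (Fin n) E) i j -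
      (1 : Matrix (Fin n) (Fin n) E) i j := fun i j =>
    ((Units.continuous_val.comp hV).matrix_elem i j).sub continuous_const
  have hset : ∀ k, (B k : Set G) = ⋂ i, ⋂ j, (fun g => (V g : Matrix (Fin n) (Fin n) E) i j -
      (1 : Matrix (Fin n) (Fin n) E) i j) ⁻¹' Metric.closedBall 0 (‖(p : E)‖ ^ (k + 1)) := by
    intro k
    ext g
    rw [SetLike.mem_coe, hB' k g]
    simp only [Set.mem_iInter, Set.mem_preimage, mem_closedBall_zero_iff]
  refine ⟨B, ?_, ?_, ?_, ?_, hB', ?_, ?_⟩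
  · intro k
    refine ⟨fun a ha g => ?_⟩
    rw [hB] at ha ⊢
    have e : (V (g * a * g⁻¹) : Matrix (Fin n) (Fin n) E) - 1 =
        (V g : Matrix (Fin n) (Fin n) E) * ((V a : Matrix (Fin n) (Fin n) E) - 1) *
          (V g⁻¹ : Matrix (Fin n) (Fin n) E) := by
      rw [map_mul, map_mul, Units.val_mul, Units.val_mul, mul_sub, sub_mul, mul_one, hinv']
    rw [e]
    have h1 := Bd.mul (Bd.mul (hVb g) ha zero_le_one (hc0 k).le) (hVb g⁻¹)
      (by rw [one_mul]; exact (hc0 k).le) zero_le_one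
    rw [one_mul, mul_one] at h1
    exact h1
  · intro k
    rw [hset]
    exact isClosed_iInter fun i => isClosed_iInter fun j => Metric.isClosed_closedBall.preimage
      (hcont i j)
  · intro k
    rw [hset]
    exact isOpen_iInter_of_finite fun i => isOpen_iInter_of_finite fun j =>
      (IsUltrametricDist.isOpen_closedBall 0 (hc0 k).ne').preimage (hcont i j)
  · intro k l hkl g hg
    rw [hB] at hg ⊢
    exact hg.mono (pow_le_pow_of_le_one hp0.le hp1.le (by omega))
  · intro k a ha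
    induction k with
    | zero => rwa [pow_zero, pow_one]
    | succ k ih =>
      rw [hB] at ih ⊢
      have e1 : a ^ p ^ (k + 1) = (a ^ p ^ k) ^ p := by rw [pow_succ, pow_mul]
      rw [e1, map_pow, Units.val_pow_eq_pow_val]
      have h1 := bd_pow_p hpp ih (hc0 k).le
        (by simpa using pow_le_pow_of_le_one hp0.le hp1.le (show 1 ≤ k + 1 by omega))
      rw [← pow_succ] at h1
      exact h1
  · ext g
    rw [Subgroup.mem_iInf, MonoidHom.mem_ker]
    constructor
    · intro h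
      apply Units.ext
      rw [Units.val_one]
      ext i j
      by_contra hne
      have h1 : 0 < ‖(V g : Matrix (Fin n) (Fin n) E) i j -
          (1 : Matrix (Fin n) (Fin n) E) i j‖ := norm_pos_iff.2 (sub_ne_zero.2 hne)
      obtain ⟨k, hk⟩ := exists_pow_lt_of_lt_one h1 hp1
      have h2 := (hB' k g).1 (h k) i j
      have h3 : ‖(p : E)‖ ^ (k + 1) ≤ ‖(p : E)‖ ^ k :=
        pow_le_pow_of_le_one hp0.le hp1.le (by omega)
      linarith
    · intro h k
      rw [hB, h, Units.val_one, sub_self]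
      intro i j
      rw [Matrix.zero_apply, norm_zero]
      exact (hc0 k).le

end Pool.Agent.Helper37.Ad
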