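import Pool.Agent.Helper37.Ad.Adic
import Pool.Agent.Helper37.Ad.Lift
import Pool.Agent.Helper37.Ad.Pow

/-!
# Project ADL, module Kern: a nonscalar image of the kernel of the prime-to-`p` torsion

`exists_kernel`: if the image of `V` contains all `y ∈ SL_2(O)` near `1`, then there is `g ∈ G` which is
trivial under all `T l`, `l ≠ p`, and whose image under `V` is not scalar.
-/

set_option autoImplicit false

namespace Pool.Agent.Helper37.Ad

/-- powers of an upper unipotent matrix -/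
private theorem kern_upper {E : Type*} [Field E] (t : E) (N : ℕ) :
    (!![1, t; 0, 1] : Matrix (Fin 2) (Fin 2) E) ^ N = !![1, (N : E) * t; 0, 1] := by
  induction N with
  | zero =>
    rw [pow_zero]
    ext i j
    fin_cases i <;> fin_cases j <;> simp
  | succ N ih =>
    rw [pow_succ, ih]
    ext i j
    fin_cases i <;> fin_cases j <;> simp [Matrix.mul_apply, Fin.sum_univ_two]
    ring

private theorem kern_lower {E : Type*} [Field E] (t : E) (N : ℕ) :
    (!![1, 0; t, 1] : Matrix (Fin 2) (Fin 2) E) ^ N = !![1, 0; (N : E) * t, 1] := by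
  induction N with
  | zero =>
    rw [pow_zero]
    ext i j
    fin_cases i <;> fin_cases j <;> simp
  | succ N ih =>
    rw [pow_succ, ih]
    ext i j
    fin_cases i <;> fin_cases j <;> simp [Matrix.mul_apply, Fin.sum_univ_two]
    ring

private theorem kern_nsc {E : Type*} [NormedField E] (C : Matrix (Fin 2) (Fin 2) E) (a : E) (ha : a ≠ 0)
    (h : C * (!![1, 0; a, 1] * !![1, a; 0, 1]) = !![1, a; 0, 1] * !![1, 0; a, 1]) : Nsc C := by
  rintro ⟨s, hs⟩
  rw [hs] at h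
  have h1 := congrFun (congrFun h 0) 0
  have h2 := congrFun (congrFun h 0) 1
  simp [Matrix.mul_apply, Fin.sum_univ_two] at h1 h2
  have hs1 : s = 1 := by
    have h3 : (s - 1) * a = 0 := by
      linear_combination h2
    rcases mul_eq_zero.1 h3 with h4 | h4
    · exact sub_eq_zero.1 h4
    · exact absurd h4 ha
  rw [hs1] at h1
  have : a * a = 0 := by
    have := h1
    linear_combination -this
  exact ha (mul_self_eq_zero.1 this)

private theorem kern_exp {P : Type*} (f : P → ℕ) (F : Finset P) (p k : ℕ) (hp : p.Prime)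
    (hf : ∀ l ∈ F, (f l).Prime ∧ f l ≠ p) :
    ∃ e : ℕ, (∃ m, e = p ^ k * m + 1) ∧ ∀ l ∈ F, ∃ m, e = f l ^ k * m := by
  classical
  set q := ∏ l ∈ F, f l with hq
  have hcop : Nat.Coprime q (p ^ k) := by
    refine Nat.Coprime.pow_right k ?_
    rw [hq]
    refine Nat.Coprime.prod_left ?_
    intro l hl
    exact (Nat.coprime_primes (hf l hl).1 hp).2 (hf l hl).2
  have hφ : 0 < Nat.totient (p ^ k) := Nat.totient_pos.2 (pow_pos hp.pos k)
  refine ⟨q ^ (Nat.totient (p ^ k) * k), ?_, ?_⟩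
  · have h1 : (q ^ Nat.totient (p ^ k)) ^ k ≡ 1 ^ k [MOD p ^ k] :=
      (Nat.ModEq.pow_totient hcop).pow k
    rw [one_pow, ← pow_mul] at h1
    have hq0 : 0 < q := by
      rw [hq]
      exact Finset.prod_pos fun l hl => (hf l hl).1.pos
    have h2 : p ^ k ∣ q ^ (Nat.totient (p ^ k) * k) - 1 :=
      (Nat.modEq_iff_dvd' (Nat.one_le_pow _ _ hq0)).1 h1.symm
    obtain ⟨m, hm⟩ := h2
    refine ⟨m, ?_⟩
    have := Nat.one_le_pow (Nat.totient (p ^ k) * k) q hq0
    omega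
  · intro l hl
    have hd : f l ∣ q := by
      rw [hq]
      exact Finset.dvd_prod_of_mem f hl
    have h3 : f l ^ k ∣ q ^ (Nat.totient (p ^ k) * k) :=
      (pow_dvd_pow_of_dvd hd k).trans (pow_dvd_pow q (Nat.le_mul_of_pos_left k hφ))
    obtain ⟨m, hm⟩ := h3
    exact ⟨m, hm⟩

/-- one finite step -/
private theorem kern_step {p n : ℕ} [Fact p.Prime] {G : Type*} [Group G] {P : Type*}
    (f : P → ℕ) [∀ l, Fact (f l).Prime] (hf : ∀ l, f l ≠ p) (B : ℕ → Subgroup G)
    (hBn : ∀ k, (B k).Normal) (hBf : ∀ k, (B k).FiniteIndex)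
    (hBp : ∀ k, ∀ a ∈ B 0, a ^ p ^ k ∈ B k)
    (A : P → ℕ → Subgroup G) (hAp : ∀ l k, ∀ a ∈ A l 0, a ^ f l ^ k ∈ A l k)
    (τ : ∀ l, G →* GL (Fin n) (ZMod (f l))) (hτ : ∀ l g, τ l g = 1 → g ∈ A l 0)
    (x y : G) (hx : x ∈ B 0) (hy : y ∈ B 0) (F : Finset P) (k : ℕ) :
    ∃ z, (∀ l ∈ F, z ∈ A l k) ∧
      z * (x ^ n.factorial * y ^ n.factorial * (x ^ n.factorial)⁻¹ * (y ^ n.factorial)⁻¹)⁻¹ ∈ B k := by
  classical
  have := hBn k
  have := hBf k
  have hpk : IsPGroup p (B 0 ⧸ (B k).subgroupOf (B 0)) := by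
    intro a
    obtain ⟨a, rfl⟩ := QuotientGroup.mk_surjective a
    refine ⟨k, ?_⟩
    rw [← QuotientGroup.mk_pow, QuotientGroup.eq_one_iff, Subgroup.mem_subgroupOf]
    exact hBp k a a.2
  obtain ⟨z, hz1, hz2⟩ := law_lift (p := p) (n := n) ((B k).subgroupOf (B 0)) inferInstance hpk
    (F := {l // l ∈ F}) (fun l => ZMod (f l.1)) (fun l h0 => by
      have h1 : f l.1 ∣ p := (ZMod.natCast_eq_zero_iff p (f l.1)).1 h0
      exact hf l.1 ((Nat.prime_dvd_prime_iff_eq (Fact.out : (f l.1).Prime) (Fact.out : p.Prime)).1 h1))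
    (fun l => (τ l.1).comp (B 0).subtype) (fun l => by
      have : Finite (GL (Fin n) (ZMod (f l.1))) := inferInstance
      infer_instance) ⟨x, hx⟩ ⟨y, hy⟩
  rw [Subgroup.mem_subgroupOf] at hz2
  have hz2' : (z : G) * (x ^ n.factorial * y ^ n.factorial * (x ^ n.factorial)⁻¹ *
      (y ^ n.factorial)⁻¹)⁻¹ ∈ B k := by
    simpa using hz2
  obtain ⟨e, ⟨m, hm⟩, he⟩ := kern_exp f F p k Fact.out
    (fun l _ => ⟨(Fact.out : (f l).Prime), hf l⟩)
  refine ⟨(z : G) ^ e, ?_, ?_⟩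
  · intro l hl
    obtain ⟨m', hm'⟩ := he l hl
    rw [hm', pow_mul]
    refine Subgroup.pow_mem _ (hAp l k _ (hτ l _ ?_)) _
    have := hz1 ⟨l, hl⟩
    simpa using this
  · have h1 : (z : G) ^ e = ((z : G) ^ p ^ k) ^ m * z := by
      rw [hm, pow_succ, pow_mul]
    rw [h1, mul_assoc]
    exact Subgroup.mul_mem _ (Subgroup.pow_mem _ (hBp k _ z.2) _) hz2'

theorem exists_kernel {p : ℕ} [Fact p.Prime] {E : Type*} [NontriviallyNormedField E]
    [IsUltrametricDist E] [NormedAlgebra ℚ_[p] E] {G : Type*} [Group G] [TopologicalSpace G]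
    [IsTopologicalGroup G] [CompactSpace G] (V : G →* GL (Fin 2) E) (hV : Continuous V)
    (hVi : ∀ g, Itg (V g : Matrix (Fin 2) (Fin 2) E)) {ε : ℝ} (hε : 0 < ε)
    (h : ∀ y : Matrix.SpecialLinearGroup (Fin 2) E, Itg (y : Matrix (Fin 2) (Fin 2) E) →
      Near ε (y : Matrix (Fin 2) (Fin 2) E) →
      ∃ g, (V g : Matrix (Fin 2) (Fin 2) E) = (y : Matrix (Fin 2) (Fin 2) E))
    {n : ℕ} (T : ∀ (l : ℕ) [Fact l.Prime], G →* GL (Fin n) ℚ_[l])
    (hT : ∀ (l : ℕ) [Fact l.Prime], Continuous (T l))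
    (hTi : ∀ (l : ℕ) [Fact l.Prime] (g : G), Itg (T l g : Matrix (Fin n) (Fin n) ℚ_[l])) :
    ∃ g, (∀ (l : ℕ) [Fact l.Prime], l ≠ p → T l g = 1) ∧
      Nsc (V g : Matrix (Fin 2) (Fin 2) E) := by
  classical
  obtain ⟨B, hBn, hBc, hBo, hBa, hBm, hBp, hBi⟩ := exists_cong (p := p) V hV hVi
  -- the small element `t`
  have hp0 : 0 < ‖(p : E)‖ := by
    have : (p : E) = algebraMap ℚ_[p] E (p : ℚ_[p]) := by simp
    rw [this, norm_algebraMap', Padic.norm_p]
    have := (Fact.out : p.Prime).pos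
    positivity
  have hp1 : ‖(p : E)‖ < 1 := by
    have : (p : E) = algebraMap ℚ_[p] E (p : ℚ_[p]) := by simp
    rw [this, norm_algebraMap']
    exact Padic.norm_p_lt_one
  have : CharZero E := charZero_of_injective_algebraMap (algebraMap ℚ_[p] E).injective
  obtain ⟨m, hm⟩ := exists_pow_lt_of_lt_one hε hp1
  set t : E := (p : E) ^ (m + 1) with ht
  have htp : ‖t‖ ≤ ‖(p : E)‖ := by
    rw [ht, norm_pow, pow_succ]
    exact mul_le_of_le_one_left hp0.le (pow_le_one₀ hp0.le hp1.le)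
  have htε : ‖t‖ < ε := by
    refine lt_of_le_of_lt ?_ hm
    rw [ht, norm_pow]
    exact pow_le_pow_of_le_one hp0.le hp1.le (Nat.le_succ m)
  have ht1 : ‖t‖ ≤ 1 := htp.trans hp1.le
  have ht0 : t ≠ 0 := by
    rw [ht]
    exact pow_ne_zero _ (norm_pos_iff.1 hp0)
  obtain ⟨x, hx⟩ := h ⟨!![1, t; 0, 1], by simp [Matrix.det_fin_two]⟩
    (by intro i j; fin_cases i <;> fin_cases j <;> simp [ht1])
    (by intro i j; fin_cases i <;> fin_cases j <;> simp [htε, hε])
  obtain ⟨y, hy⟩ := h ⟨!![1, 0; t, 1], by simp [Matrix.det_fin_two]⟩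
    (by intro i j; fin_cases i <;> fin_cases j <;> simp [ht1])
    (by intro i j; fin_cases i <;> fin_cases j <;> simp [htε, hε])
  have hx' : (V x : Matrix (Fin 2) (Fin 2) E) = !![1, t; 0, 1] := hx
  have hy' : (V y : Matrix (Fin 2) (Fin 2) E) = !![1, 0; t, 1] := hy
  have hxB : x ∈ B 0 := by
    rw [hBm]
    intro i j
    rw [hx']
    fin_cases i <;> fin_cases j <;> simp [htp]
  have hyB : y ∈ B 0 := by
    rw [hBm]
    intro i j
    rw [hy']
    fin_cases i <;> fin_cases j <;> simp [htp]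
  set N := n.factorial with hN
  set c : G := x ^ N * y ^ N * (x ^ N)⁻¹ * (y ^ N)⁻¹ with hc
  have hN0 : (N : E) * t ≠ 0 := by
    refine mul_ne_zero ?_ ht0
    exact_mod_cast (Nat.factorial_pos n).ne'
  have hcV : Nsc (V c : Matrix (Fin 2) (Fin 2) E) := by
    refine kern_nsc _ ((N : E) * t) hN0 ?_
    have h1 : c * (y ^ N * x ^ N) = x ^ N * y ^ N := by
      rw [hc]
      group
    have h2 : (V c : Matrix (Fin 2) (Fin 2) E) * ((V y : Matrix (Fin 2) (Fin 2) E) ^ N *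
        (V x : Matrix (Fin 2) (Fin 2) E) ^ N) = (V x : Matrix (Fin 2) (Fin 2) E) ^ N *
        (V y : Matrix (Fin 2) (Fin 2) E) ^ N := by
      have h3 := congrArg (fun g => ((V g : GL (Fin 2) E) : Matrix (Fin 2) (Fin 2) E)) h1
      simpa only [map_mul, map_pow, Units.val_mul, Units.val_pow_eq_pow_val] using h3
    rw [hx', hy', kern_upper, kern_lower] at h2
    exact h2
  -- the levels at the primes different from `p`
  let P : Type := {l : ℕ // l.Prime ∧ l ≠ p}
  have hPf : ∀ l : P, Fact (l.1).Prime := fun l => ⟨l.2.1⟩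
  have hlev := fun l : P => exists_levels (T l.1) (hT l.1) (hTi l.1)
  choose A hAn hAc hAo hAa hA0 hAcm hAp hAi using hlev
  have hred := fun l : P => exists_red (T l.1) (hTi l.1)
  choose τ X hX1 hX2 using hred
  have hBf : ∀ k, (B k).FiniteIndex := fun k => by
    have := (B k).quotient_finite_of_isOpen (hBo k)
    exact Subgroup.finiteIndex_of_finite_quotient
  have hstep : ∀ (F : Finset P) (k : ℕ), ∃ z, (∀ l ∈ F, z ∈ A l k) ∧ z * c⁻¹ ∈ B k := by
    intro F k
    exact kern_step (fun l : P => l.1) (fun l => l.2.2) B hBn hBf hBp A (fun l k => hAp l k) τ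
      (fun l g hg => by
        rw [hA0]
        rw [← red_eq_one (hX1 l g) (hX2 l g), hg]
        rfl) x y hxB hyB F k
  have hclosed : ∀ i : Finset P × ℕ, IsClosed {z : G | (∀ l ∈ i.1, z ∈ A l i.2) ∧ z * c⁻¹ ∈ B i.2} := by
    intro i
    have h1 : {z : G | (∀ l ∈ i.1, z ∈ A l i.2) ∧ z * c⁻¹ ∈ B i.2} =
        (⋂ l ∈ i.1, (A l i.2 : Set G)) ∩ (fun z => z * c⁻¹) ⁻¹' (B i.2 : Set G) := by
      ext z
      simp
    rw [h1]
    exact (isClosed_biInter fun l _ => hAc l i.2).inter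
      ((hBc i.2).preimage (continuous_mul_const c⁻¹))
  have hcpt : (⋂ i : Finset P × ℕ, {z : G | (∀ l ∈ i.1, z ∈ A l i.2) ∧ z * c⁻¹ ∈ B i.2}).Nonempty := by
    refine IsCompact.nonempty_iInter_of_directed_nonempty_isCompact_isClosed _ ?_ ?_ ?_ ?_
    · intro i j
      refine ⟨(i.1 ∪ j.1, max i.2 j.2), ?_, ?_⟩
      · rintro z ⟨hz1, hz2⟩
        exact ⟨fun l hl => hAa l (le_max_left _ _) (hz1 l (Finset.mem_union_left _ hl)),
          hBa (le_max_left _ _) hz2⟩
      · rintro z ⟨hz1, hz2⟩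
        exact ⟨fun l hl => hAa l (le_max_right _ _) (hz1 l (Finset.mem_union_right _ hl)),
          hBa (le_max_right _ _) hz2⟩
    · intro i
      exact hstep i.1 i.2
    · exact fun i => (hclosed i).isCompact
    · exact hclosed
  obtain ⟨z, hz⟩ := hcpt
  rw [Set.mem_iInter] at hz
  refine ⟨z, ?_, ?_⟩
  · intro l hl hlp
    let l' : P := ⟨l, hl.out, hlp⟩
    have h1 : z ∈ ⨅ k, A l' k := by
      rw [Subgroup.mem_iInf]
      intro k
      exact (hz ({l'}, k)).1 l' (Finset.mem_singleton_self _)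
    rw [hAi l'] at h1
    exact h1
  · have h1 : z * c⁻¹ ∈ ⨅ k, B k := by
      rw [Subgroup.mem_iInf]
      intro k
      exact (hz (∅, k)).2
    rw [hBi, MonoidHom.mem_ker, map_mul, map_inv, mul_inv_eq_one] at h1
    rw [h1]
    exact hcV

end Pool.Agent.Helper37.Ad
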