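import Pool.Agent.Helper37.Ad.Cpt
import Pool.Agent.Helper37.Ad.Kern
import Pool.Agent.Helper37.Ad.Irr
import Pool.Agent.Helper37.TorsionFieldCritArchive
import Pool.Agent.Helper37.Ad.MDefs

/-!
# Project ADL, module SmallF: small places, with an extension `F` of `E v`

(adapted from `small_place` of helper16)
-/

set_option autoImplicit false

namespace Pool.Agent.Helper37.Ad

open Pool.Agent.Helper27.FM Pool.Agent.Helper37.Af Pool.Agent.Helper37.Fd

theorem continuous_extend {p : ℕ} [Fact p.Prime] {E F : Type*} [NontriviallyNormedField E]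
    [NormedAlgebra ℚ_[p] E] [FiniteDimensional ℚ_[p] E] [NontriviallyNormedField F]
    [NormedAlgebra ℚ_[p] F] (φ : E →ₐ[ℚ_[p]] F) {G : Type*} [Group G] [TopologicalSpace G]
    {V : G →* GL (Fin 2) E} (hV : Continuous V) : Continuous (extend (φ : E →+* F) V) := by
  have hφ : Continuous φ := LinearMap.continuous_of_finiteDimensional φ.toLinearMap
  have h1 : Continuous fun g => (V g : Matrix (Fin 2) (Fin 2) E) := Units.continuous_val.comp hV
  have h2 : Continuous fun g => (((V g)⁻¹ : GL (Fin 2) E) : Matrix (Fin 2) (Fin 2) E) :=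
    Units.continuous_coe_inv.comp hV
  refine Units.continuous_iff.mpr ⟨?_, ?_⟩
  · refine continuous_matrix fun a b => ?_
    exact hφ.comp ((continuous_apply_apply a b).comp h1)
  · refine continuous_matrix fun a b => ?_
    exact hφ.comp ((continuous_apply_apply a b).comp h2)

theorem strIrr_extend {E F : Type*} [Field E] [Field F] (φ : E →+* F) {G : Type*} [Group G]
    [TopologicalSpace G] {V : G →* GL (Fin 2) E} (hV : StronglyIrreducible V) :
    StronglyIrreducible (extend φ V) := by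
  intro U hU
  have h0 := hV U hU
  rw [eq_top_iff]
  rintro A -
  have key : ∀ B : Matrix (Fin 2) (Fin 2) E, B.map φ ∈ Submodule.span F
      ((fun g => (extend φ V g : Matrix (Fin 2) (Fin 2) F)) '' (U : Set G)) := by
    intro B
    have hB : B ∈ Submodule.span E
        ((fun g => (V g : Matrix (Fin 2) (Fin 2) E)) '' (U : Set G)) := by
      rw [h0]
      trivial
    induction hB using Submodule.span_induction with
    | mem x hx =>
      obtain ⟨g, hg, rfl⟩ := hx
      exact Submodule.subset_span ⟨g, hg, rfl⟩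
    | zero =>
      have : (0 : Matrix (Fin 2) (Fin 2) E).map φ = 0 := by ext; simp
      rw [this]
      exact Submodule.zero_mem _
    | add x y _ _ hx hy =>
      have : (x + y).map φ = x.map φ + y.map φ := by ext; simp
      rw [this]
      exact Submodule.add_mem _ hx hy
    | smul c x _ hx =>
      have : (c • x).map φ = φ c • x.map φ := by ext; simp
      rw [this]
      exact Submodule.smul_mem _ _ hx
  rw [Matrix.matrix_eq_sum_single A]
  refine Submodule.sum_mem _ fun i _ => Submodule.sum_mem _ fun k _ => ?_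
  have h1 : Matrix.single i k (A i k) = A i k • (Matrix.single i k (1 : E)).map φ := by
    ext a b
    by_cases h : i = a ∧ k = b
    · obtain ⟨rfl, rfl⟩ := h
      simp
    · simp [Matrix.single_apply_of_ne _ _ _ _ _ h]
  rw [h1]
  exact Submodule.smul_mem _ _ (key _)

theorem small_placeF {Λ : Type*} {E : Λ → Type*} [∀ v, NontriviallyNormedField (E v)]
    [∀ v, IsUltrametricDist (E v)] {G : Type*} [Group G] [TopologicalSpace G]
    [IsTopologicalGroup G] [CompactSpace G] [TotallyDisconnectedSpace G]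
    (V : ∀ v, G →* GL (Fin 2) (E v)) (hV : ∀ v, Continuous (V v)) (v : Λ)
    {p : ℕ} [Fact p.Prime] [NormedAlgebra ℚ_[p] (E v)] [FiniteDimensional ℚ_[p] (E v)]
    (hVi : ∀ g, Itg (V v g : Matrix (Fin 2) (Fin 2) (E v))) {ε : ℝ} (hε : 0 < ε)
    (h : Full V ⊤ v ε)
    {n : ℕ} (T : ∀ (l : ℕ) [Fact l.Prime], G →* GL (Fin n) ℚ_[l])
    (hT : ∀ (l : ℕ) [Fact l.Prime], Continuous (T l))
    (hTi : ∀ (l : ℕ) [Fact l.Prime] (g : G), Itg (T l g : Matrix (Fin n) (Fin n) ℚ_[l]))
    {F : Type*} [NontriviallyNormedField F] [IsUltrametricDist F] [NormedAlgebra ℚ_[p] F]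
    [FiniteDimensional ℚ_[p] F] (φ : E v →ₐ[ℚ_[p]] F)
    (hss : Semisimple (baseChange F (T p)))
    (hgen : IdempotentGenerated p (extend (φ : E v →+* F) (V v)) (baseChange F (T p)))
    (hPC : ¬ PotentiallyContained (extend (φ : E v →+* F) (V v)) (baseChange F (T p))) :
    ∃ ε' : ℝ, 0 < ε' ∧ Full V (commonKernel T) v ε' := by
  have : CharZero (E v) :=
    charZero_of_injective_algebraMap (algebraMap ℚ_[p] (E v)).injective
  have hnear : ∀ y : Matrix.SpecialLinearGroup (Fin 2) (E v),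
      Itg (y : Matrix (Fin 2) (Fin 2) (E v)) → Near ε (y : Matrix (Fin 2) (Fin 2) (E v)) →
      ∃ g, (V v g : Matrix (Fin 2) (Fin 2) (E v)) = (y : Matrix (Fin 2) (Fin 2) (E v)) := by
    intro y hy hy'
    obtain ⟨g, _, hg, _⟩ := h y hy hy'
    exact ⟨g, hg⟩
  have hstr : StronglyIrreducible (V v) := strIrr_of_near (V v) hε hnear
  -- an element of the kernel of `T p` with nonscalar image
  have h1 : ∃ g, T p g = 1 ∧ Nsc (V v g : Matrix (Fin 2) (Fin 2) (E v)) := by
    by_contra hcon
    push Not at hcon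
    have hres := Pool.Agent.Results.MP_6cbef8_nt.TorsionFieldCrit.result p
      (extend (φ : E v →+* F) (V v)) (continuous_extend φ (hV v)) (strIrr_extend _ hstr)
      (J := Unit) (fun _ => n) (fun _ => T p) (fun _ => hT p) (fun _ => Or.inr ⟨hss, hgen⟩)
    have hl : ∃ U : Subgroup G, IsOpen (U : Set G) ∧ ∀ g ∈ U, (∀ _j : Unit, T p g = 1) →
        ∃ c : F, (extend (φ : E v →+* F) (V v) g : Matrix (Fin 2) (Fin 2) F) =
          c • (1 : Matrix (Fin 2) (Fin 2) F) := by
      refine ⟨⊤, by simp, fun g _ hg => ?_⟩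
      have h2 := hcon g (hg ())
      unfold Nsc at h2
      obtain ⟨c, hc⟩ := not_not.mp h2
      refine ⟨φ c, ?_⟩
      change (V v g : Matrix (Fin 2) (Fin 2) (E v)).map (φ : E v →+* F) = _
      rw [hc]
      ext a b
      by_cases hab : a = b
      · subst hab
        simp
      · simp [hab]
    obtain ⟨_, hj⟩ := hres.mp hl
    exact hPC hj
  obtain ⟨g₁, hg₁, hns₁⟩ := h1
  obtain ⟨ε₁, hε₁, hfull₁⟩ := full_of_nsc V v hε h (T p).ker (MonoidHom.mem_ker.mpr hg₁) hns₁
  obtain ⟨h₀, hh₀, hns₀⟩ := exists_kernel (p := p) (V v) (hV v) hVi hε hnear T hT hTi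
  obtain ⟨y, hy, hy', hys⟩ := comm_small (V v h₀) hns₀ hε₁
  obtain ⟨gy, hgy, hVgy, _⟩ := hfull₁ y hy hy'
  have hgy1 : T p gy = 1 := MonoidHom.mem_ker.mp hgy
  have hc : h₀ * gy * h₀⁻¹ * gy⁻¹ ∈ commonKernel T := by
    unfold commonKernel
    rw [Subgroup.mem_iInf]
    intro l
    rw [Subgroup.mem_iInf]
    intro hl
    rw [MonoidHom.mem_ker]
    by_cases hlp : l = p
    · subst hlp
      have h3 : T l gy = 1 := hgy1
      simp [h3]
    · have h3 : T l h₀ = 1 := hh₀ l hlp
      simp [h3]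
  have hnorm : (commonKernel T).Normal := by
    unfold commonKernel
    exact Subgroup.normal_iInf_normal fun l => Subgroup.normal_iInf_normal fun hl =>
      MonoidHom.normal_ker _
  have hVi' : (((V v gy)⁻¹ : GL (Fin 2) (E v)) : Matrix (Fin 2) (Fin 2) (E v)) =
      ((y⁻¹ : Matrix.SpecialLinearGroup (Fin 2) (E v)) : Matrix (Fin 2) (Fin 2) (E v)) := by
    have h4 : V v gy = (y : GL (Fin 2) (E v)) := Units.ext hVgy
    rw [h4, ← Matrix.SpecialLinearGroup.coe_GL_coe_matrix y⁻¹]
    congr 1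
    simp
  refine full_of_nsc V v hε h (commonKernel T) hc ?_
  have h5 : (V v (h₀ * gy * h₀⁻¹ * gy⁻¹) : Matrix (Fin 2) (Fin 2) (E v)) =
      (V v h₀ : Matrix (Fin 2) (Fin 2) (E v)) * (y : Matrix (Fin 2) (Fin 2) (E v)) *
        (((V v h₀)⁻¹ : GL (Fin 2) (E v)) : Matrix (Fin 2) (Fin 2) (E v)) *
        ((y⁻¹ : Matrix.SpecialLinearGroup (Fin 2) (E v)) : Matrix (Fin 2) (Fin 2) (E v)) := by
    rw [map_mul, map_mul, map_mul, map_inv, map_inv, Units.val_mul, Units.val_mul, Units.val_mul,
      hVgy, hVi']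
  rw [h5]
  exact hys

end Pool.Agent.Helper37.Ad
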