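import Pool.Agent.Helper37.Mv.Rel
import Pool.Agent.Helper37.Af.Main
import Pool.Agent.NLL.WPoly
import Pool.Agent.NLL.Tri

/-!
# Project ADL, module Trans: the relation `det Wm = 0` and potential containment

PLAN. `om_of_contained`: pass to an algebraic closure `Eb` of `E` (`Wm` commutes with the map). Let
`d = det V`, `s = tr² - 2 d`, and let `a, b` be the roots of the characteristic polynomial of `V` in `Eb`
(`d = a b`, `s = a² + b²`). By `T j = j V` with `j` injective (also over `Eb`: injectivity of `mulVec` of a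
matrix is preserved, e.g. `j` has a left inverse) an eigenvector `w` of `V` for `a` gives the
eigenvector `j w` of `T`, so `a` and `b` are roots of `T.charpoly`. `det_Wm` (Tri.lean) writes the determinant as
a product over pairs of roots containing the factor `d a² - s a b + d b² = 0`.

`contained_of_om`: let `P` be the polynomial of `exists_wpoly` (WPoly.lean) for `n`; its variables
`(Fin 2 × Fin 2) ⊕ (Σ _ : Unit, Fin n × Fin n)` and evaluation point `ent` correspond to
`Vars Unit Unit (fun _ => n)` and `allEntries` (rename the variables `Sum.inl a ↦ Sum.inl ⟨(), a⟩`; the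
converse map of evaluation points is clear). By `contained_of_adOccurs` (Af/Main.lean) it is enough to show
`AdOccurs V T`. Suppose not; apply `no_relation` (Mv/Rel.lean) with `ι = J = Unit` and the Haar measure of `G`
(`MeasurableSpace G := borel G`, `MeasureTheory.Measure.haar`): the set of the `g` with `P = 0` and
`NontrivialAt` is null. But it contains the open subgroup `U` (`P = 0` on `U` by `hrel`, and
`NontrivialAt` by the last part of `exists_wpoly`), which has positive Haar measure.
-/

set_option autoImplicit false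

namespace Pool.Agent.Helper37.Ad

open Pool.Agent.Helper27.FM Pool.Agent.Helper37.Af Pool.Agent.NLL Pool.Agent.Helper37.Mv
  MeasureTheory Polynomial

private theorem mulVec_inj_map {E A : Type*} [Field E] [Field A] (ψ : E →+* A) {n m : ℕ}
    (j : Matrix (Fin n) (Fin m) E) (hj : Function.Injective j.mulVec) :
    Function.Injective (j.map ψ).mulVec := by
  obtain ⟨l, hl⟩ : ∃ l : Matrix (Fin m) (Fin n) E, l * j = 1 := by
    obtain ⟨f, hf⟩ := (Matrix.toLin' j).exists_leftInverse_of_injective
      (LinearMap.ker_eq_bot.mpr hj)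
    refine ⟨LinearMap.toMatrix' f, ?_⟩
    rw [← LinearMap.toMatrix'_toLin' j, ← LinearMap.toMatrix'_comp, hf, LinearMap.toMatrix'_id]
  intro x y hxy
  have h1 : (l.map ψ) * (j.map ψ) = 1 := by
    rw [← Matrix.map_mul, hl]
    ext a b
    by_cases h : a = b
    · subst h; simp
    · simp [h]
  have h2 := congrArg (l.map ψ).mulVec hxy
  change (l.map ψ).mulVec ((j.map ψ).mulVec x) = (l.map ψ).mulVec ((j.map ψ).mulVec y) at h2
  rwa [Matrix.mulVec_mulVec, Matrix.mulVec_mulVec, h1, Matrix.one_mulVec, Matrix.one_mulVec] at h2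

private theorem root_of_eigen {A : Type*} [Field A] {n : ℕ} (T : Matrix (Fin n) (Fin n) A) (a : A)
    (w : Fin n → A) (hw : w ≠ 0) (h : T.mulVec w = a • w) : T.charpoly.IsRoot a := by
  rw [Polynomial.IsRoot, Matrix.eval_charpoly]
  apply (Matrix.exists_mulVec_eq_zero_iff).mp
  refine ⟨w, hw, ?_⟩
  rw [Matrix.sub_mulVec, h]
  simp

private theorem om_closed {A : Type*} [Field A] [IsAlgClosed A] {n : ℕ}
    (V : Matrix (Fin 2) (Fin 2) A) (T : Matrix (Fin n) (Fin n) A) (j : Matrix (Fin n) (Fin 2) A)
    (hj : Function.Injective j.mulVec) (h : T * j = j * V) :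
    (Wm V.det (V.trace ^ 2 - 2 * V.det) T).det = 0 := by
  have hroot : ∀ a, V.charpoly.IsRoot a → T.charpoly.IsRoot a := by
    intro a ha
    rw [Polynomial.IsRoot, Matrix.eval_charpoly] at ha
    obtain ⟨w, hw, hw'⟩ := (Matrix.exists_mulVec_eq_zero_iff).mpr ha
    rw [Matrix.sub_mulVec] at hw'
    have h1 : V.mulVec w = a • w := by
      have : (Matrix.scalar (Fin 2) a).mulVec w = a • w := by simp
      rw [this] at hw'
      exact (sub_eq_zero.mp hw').symm
    refine root_of_eigen T a (j.mulVec w) ?_ ?_
    · intro h0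
      apply hw
      apply hj
      rw [h0, Matrix.mulVec_zero]
    · rw [Matrix.mulVec_mulVec, h, ← Matrix.mulVec_mulVec, h1, Matrix.mulVec_smul]
  obtain ⟨a, ha⟩ := IsAlgClosed.exists_root V.charpoly (by
    rw [Matrix.charpoly_degree_eq_dim]; simp)
  have hq : ∀ x, V.charpoly.IsRoot x ↔ x ^ 2 - V.trace * x + V.det = 0 := by
    intro x
    rw [Polynomial.IsRoot, Matrix.charpoly_fin_two]
    simp
  have ha' := (hq a).mp ha
  have hb' : V.charpoly.IsRoot (V.trace - a) := by
    rw [hq]
    linear_combination ha'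
  have hTne : T.charpoly ≠ 0 := (Matrix.charpoly_monic T).ne_zero
  rw [det_Wm]
  apply Multiset.prod_eq_zero
  rw [Multiset.mem_map]
  refine ⟨(a, V.trace - a), ?_, ?_⟩
  · rw [Multiset.mem_product]
    exact ⟨(Polynomial.mem_roots hTne).mpr (hroot a ha), (Polynomial.mem_roots hTne).mpr
      (hroot _ hb')⟩
  · have hd : V.det = a * (V.trace - a) := by linear_combination ha'
    simp only
    rw [hd]
    ring

theorem om_of_contained {E : Type*} [Field E] {n : ℕ} (V : Matrix (Fin 2) (Fin 2) E)
    (T : Matrix (Fin n) (Fin n) E) (j : Matrix (Fin n) (Fin 2) E)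
    (hj : Function.Injective j.mulVec) (h : T * j = j * V) :
    (Wm V.det (V.trace ^ 2 - 2 * V.det) T).det = 0 := by
  obtain ⟨ψ, hψ⟩ : ∃ ψ : E →+* AlgebraicClosure E, ψ = algebraMap E (AlgebraicClosure E) :=
    ⟨_, rfl⟩
  have h1 := om_closed (V.map ψ) (T.map ψ) (j.map ψ) (mulVec_inj_map ψ j hj) (by
    rw [← Matrix.map_mul, h, Matrix.map_mul])
  apply ψ.injective
  rw [map_zero, ← h1, RingHom.map_det]
  congr 1
  have hd : (V.map ψ).det = ψ V.det := (RingHom.map_det ψ V).symm
  have ht : (V.map ψ).trace = ψ V.trace := by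
    rw [Matrix.trace_fin_two, Matrix.trace_fin_two]
    simp
  have hT : ∀ i k, (T.map ψ * T.map ψ) i k = ψ ((T * T) i k) := by
    intro i k
    rw [← Matrix.map_mul, Matrix.map_apply]
  ext p q
  simp only [RingHom.mapMatrix_apply, Wm, Matrix.map_apply, Matrix.of_apply, hd, ht, hT, map_add,
    map_sub, map_mul, map_pow, map_ofNat]
  split_ifs <;> simp

theorem contained_of_om (p : ℕ) [Fact p.Prime] {E : Type*} [NontriviallyNormedField E]
    [IsUltrametricDist E] [CompleteSpace E] [NormedAlgebra ℚ_[p] E] {G : Type*} [Group G]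
    [TopologicalSpace G] [IsTopologicalGroup G] [CompactSpace G] [TotallyDisconnectedSpace G]
    {n : ℕ} (V : G →* GL (Fin 2) E) (T : G →* GL (Fin n) E) (hV : Continuous V)
    (hT : Continuous T) (hirr : StronglyIrreducible V) (hss : Semisimple T)
    (hgen : IdempotentGenerated p V T) (U : Subgroup G) (hU : IsOpen (U : Set G))
    (hrel : ∀ g ∈ U, (Wm (V g : Matrix (Fin 2) (Fin 2) E).det
      ((V g : Matrix (Fin 2) (Fin 2) E).trace ^ 2 - 2 * (V g : Matrix (Fin 2) (Fin 2) E).det)
      (T g : Matrix (Fin n) (Fin n) E)).det = 0) : PotentiallyContained V T := by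
  have : CharZero E := charZero_of_injective_algebraMap (algebraMap ℚ_[p] E).injective
  by_contra hcon
  have hocc : ¬ AdOccurs V T := fun h => hcon (contained_of_adOccurs p hV hirr hT hss hgen h)
  let _ : MeasurableSpace G := borel G
  have : BorelSpace G := ⟨rfl⟩
  obtain ⟨P, -, hP, hP'⟩ := exists_wpoly E n
  set ren : (Fin 2 × Fin 2) ⊕ (Σ _ : Unit, Fin n × Fin n) → Vars Unit Unit (fun _ => n) :=
    Sum.map (fun a => ⟨(), a⟩) id with hren
  have hev : ∀ (x : Matrix (Fin 2) (Fin 2) E) (z : Unit → Matrix (Fin n) (Fin n) E),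
      allEntries (fun _ : Unit => x) z ∘ ren = ent x z := by
    intro x z
    funext a
    cases a <;> rfl
  have h0 := no_relation p (Measure.haar : Measure G) (ι := Unit) (J := Unit) (n := fun _ => n)
    (V := fun _ => V) (T := fun _ => T) (fun _ => hV) (fun _ => hirr)
    (fun i k hik => absurd (Subsingleton.elim i k) hik) (fun _ => hT) (fun _ _ => hocc)
    (MvPolynomial.rename ren P)
  have h1 : (Measure.haar : Measure G) (U : Set G) = 0 := by
    refine measure_mono_null ?_ h0
    intro g hg
    refine ⟨?_, ?_⟩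
    · rw [MvPolynomial.eval_rename, hev, hP]
      exact hrel g hg
    · obtain ⟨x, hx, hx'⟩ := hP' (T g) (V g : Matrix (Fin 2) (Fin 2) E).det
      refine ⟨fun _ => x, fun _ => hx, ?_⟩
      rw [MvPolynomial.eval_rename, hev]
      exact hx'
  exact (hU.measure_pos _ ⟨1, U.one_mem⟩).ne' h1

end Pool.Agent.Helper37.Ad
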