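import Pool.Agent.Helper37.Ad.BigP
import Pool.Agent.Helper37.Ad.SmallF
import Pool.Agent.Helper37.Ad.ResV
import Pool.Agent.Helper37.Ad.NormF
import Pool.Agent.Helper37.Ad.Trans
import Pool.Agent.NLL.Size
import Pool.Agent.Helper37.Ad.MDefs

/-!
# Project ADL, Main: the adelic dichotomy
-/

set_option autoImplicit false

open NumberField Polynomial

namespace Pool.Agent.Helper37.Ad

open Pool.Agent.Helper27.FM Pool.Agent.Helper37.Af Pool.Agent.Helper37.Fd Pool.Agent.NLL

private theorem bc_cont {p : ℕ} [Fact p.Prime] (E : Type*) [NontriviallyNormedField E]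
    [NormedAlgebra ℚ_[p] E] {G : Type*} [Group G] [TopologicalSpace G] {n : ℕ}
    {T : G →* GL (Fin n) ℚ_[p]} (hT : Continuous T) : Continuous (baseChange E T) := by
  have h1 : Continuous fun g => (T g : Matrix (Fin n) (Fin n) ℚ_[p]) :=
    Units.continuous_val.comp hT
  have h2 : Continuous fun g =>
      (((T g)⁻¹ : GL (Fin n) ℚ_[p]) : Matrix (Fin n) (Fin n) ℚ_[p]) :=
    Units.continuous_coe_inv.comp hT
  refine Units.continuous_iff.mpr ⟨?_, ?_⟩
  · refine continuous_matrix fun a b => ?_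
    exact (continuous_algebraMap ℚ_[p] E).comp ((continuous_apply_apply a b).comp h1)
  · refine continuous_matrix fun a b => ?_
    exact (continuous_algebraMap ℚ_[p] E).comp ((continuous_apply_apply a b).comp h2)

private theorem wm_cont {E : Type*} [NontriviallyNormedField E] {G : Type*} [TopologicalSpace G]
    {n : ℕ} {A : G → Matrix (Fin 2) (Fin 2) E} {B : G → Matrix (Fin n) (Fin n) E}
    (hA : Continuous A) (hB : Continuous B) :
    Continuous fun g => (Wm (A g).det ((A g).trace ^ 2 - 2 * (A g).det) (B g)).det := by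
  refine Continuous.matrix_det ?_
  refine continuous_matrix fun p q => ?_
  have hd : Continuous fun g => (A g).det := hA.matrix_det
  have ht : Continuous fun g => (A g).trace := hA.matrix_trace
  have hBB : Continuous fun g => B g * B g := hB.matrix_mul hB
  have hB1 : ∀ i j, Continuous fun g => B g i j := fun i j => hB.matrix_elem i j
  have hB2 : ∀ i j, Continuous fun g => (B g * B g) i j := fun i j => hBB.matrix_elem i j
  simp only [Wm, Matrix.of_apply]
  have := hB1 p.1 q.1
  have := hB1 q.2 p.2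
  have := hB2 p.1 q.1
  have := hB2 q.2 p.2
  fun_prop

section

variable {M : Type} [Field M] [NumberField M] {Λ : Type} (ℓ : Λ → ℕ) [∀ v, Fact (ℓ v).Prime]
  (E : Λ → Type) [∀ v, NontriviallyNormedField (E v)] [∀ v, IsUltrametricDist (E v)]
  [∀ v, NormedAlgebra ℚ_[ℓ v] (E v)] (j : ∀ v, M →+* E v)
  (F : Λ → Type) [∀ v, NontriviallyNormedField (F v)] [∀ v, IsUltrametricDist (F v)]
  [∀ v, NormedAlgebra ℚ_[ℓ v] (F v)] (φ : ∀ v, E v →ₐ[ℚ_[ℓ v]] F v)
  {G : Type} [Group G] [TopologicalSpace G] [IsTopologicalGroup G] [CompactSpace G]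
  [TotallyDisconnectedSpace G]
  (V : ∀ v, G →* GL (Fin 2) (E v)) {n : ℕ} (T : ∀ (l : ℕ) [Fact l.Prime], G →* GL (Fin n) ℚ_[l])
  (f g : G → (𝓞 M)[X])

omit [∀ v, IsUltrametricDist (E v)] [TopologicalSpace G] [IsTopologicalGroup G] [CompactSpace G]
  [TotallyDisconnectedSpace G] in
/-- the relation at a place is the image of a number of `M` -/
private theorem rel_eq (v : Λ) (r : G) (h : Matches ℓ E j V T f g v r) :
    (Wm (V v r : Matrix (Fin 2) (Fin 2) (E v)).det
      ((V v r : Matrix (Fin 2) (Fin 2) (E v)).trace ^ 2 -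
        2 * (V v r : Matrix (Fin 2) (Fin 2) (E v)).det)
      (baseChange (E v) (T (ℓ v)) r : Matrix (Fin n) (Fin n) (E v))).det =
      j v (om n (f r) (g r) : 𝓞 M) := by
  have hι : Function.Injective ((j v).comp (algebraMap (𝓞 M) M)) :=
    (j v).injective.comp (FaithfulSMul.algebraMap_injective (𝓞 M) M)
  have hg : (g r).Monic := by
    apply monic_of_injective hι
    rw [← h.2]
    exact Matrix.charpoly_monic _
  exact om_map ((j v).comp (algebraMap (𝓞 M) M)) (f r) (g r) hg _ _ h.1 h.2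

omit [∀ v, IsUltrametricDist (E v)] [∀ v, IsUltrametricDist (F v)] [TopologicalSpace G]
  [IsTopologicalGroup G] [CompactSpace G] [TotallyDisconnectedSpace G] in
/-- the relation at a place over the extension `F v` -/
private theorem rel_eqF (v : Λ) (r : G) (h : Matches ℓ E j V T f g v r) :
    (Wm (extend (φ v : E v →+* F v) (V v) r : Matrix (Fin 2) (Fin 2) (F v)).det
      ((extend (φ v : E v →+* F v) (V v) r : Matrix (Fin 2) (Fin 2) (F v)).trace ^ 2 -
        2 * (extend (φ v : E v →+* F v) (V v) r : Matrix (Fin 2) (Fin 2) (F v)).det)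
      (baseChange (F v) (T (ℓ v)) r : Matrix (Fin n) (Fin n) (F v))).det =
      φ v (j v (om n (f r) (g r) : 𝓞 M)) := by
  have hι : Function.Injective ((j v).comp (algebraMap (𝓞 M) M)) :=
    (j v).injective.comp (FaithfulSMul.algebraMap_injective (𝓞 M) M)
  have hg : (g r).Monic := by
    apply monic_of_injective hι
    rw [← h.2]
    exact Matrix.charpoly_monic _
  have h1 : (extend (φ v : E v →+* F v) (V v) r : Matrix (Fin 2) (Fin 2) (F v)).charpoly =
      (f r).map ((φ v : E v →+* F v).comp ((j v).comp (algebraMap (𝓞 M) M))) := by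
    rw [← Polynomial.map_map, ← h.1, ← Matrix.charpoly_map]
    rfl
  have h2 : (baseChange (F v) (T (ℓ v)) r : Matrix (Fin n) (Fin n) (F v)).charpoly =
      (g r).map ((φ v : E v →+* F v).comp ((j v).comp (algebraMap (𝓞 M) M))) := by
    rw [← Polynomial.map_map, ← h.2, ← Matrix.charpoly_map]
    congr 1
    ext a b
    exact ((φ v).commutes _).symm
  exact om_map ((φ v : E v →+* F v).comp ((j v).comp (algebraMap (𝓞 M) M))) (f r) (g r) hg _ _
    h1 h2

/-- a relation at many elements gives potential containment -/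
private theorem contained_of_rel (v : Λ) [FiniteDimensional ℚ_[ℓ v] (E v)]
    [FiniteDimensional ℚ_[ℓ v] (F v)] (Φ : Finset Λ)
    (hvF : v ∈ Φ) (hV : Continuous (V v)) (hT : Continuous (T (ℓ v)))
    (hirr : StronglyIrreducible (V v))
    (hss : Semisimple (baseChange (F v) (T (ℓ v))))
    (hgen : IdempotentGenerated (ℓ v) (extend (φ v : E v →+* F v) (V v))
      (baseChange (F v) (T (ℓ v))))
    (D : Set G) (hD : Dense {r | r ∈ D ∧ ∀ w ∈ Φ, Matches ℓ E j V T f g w r})
    (U : Subgroup G) (hU : IsOpen (U : Set G))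
    (h : ∀ r ∈ U, r ∈ D → (∀ w ∈ Φ, Matches ℓ E j V T f g w r) → om n (f r) (g r) = 0) :
    PotentiallyContained (extend (φ v : E v →+* F v) (V v)) (baseChange (F v) (T (ℓ v))) := by
  have : CompleteSpace (F v) := FiniteDimensional.complete ℚ_[ℓ v] (F v)
  have hV' := continuous_extend (φ v) hV
  refine contained_of_om (ℓ v) _ (baseChange (F v) (T (ℓ v))) hV' (bc_cont (F v) hT)
    (strIrr_extend _ hirr) hss hgen U hU ?_
  -- the set of zeros is closed and contains a dense subset of `U`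
  have hcont := wm_cont (Units.continuous_val.comp hV')
    (Units.continuous_val.comp (bc_cont (F v) hT))
  have hcl := isClosed_singleton.preimage hcont (t := ({0} : Set (F v)))
  have hdense : (U : Set G) ⊆ closure ((U : Set G) ∩
      {r | r ∈ D ∧ ∀ w ∈ Φ, Matches ℓ E j V T f g w r}) := hD.open_subset_closure_inter hU
  intro x hx
  have h1 : x ∈ closure ((U : Set G) ∩ {r | r ∈ D ∧ ∀ w ∈ Φ, Matches ℓ E j V T f g w r}) :=
    hdense hx
  have h2 : (U : Set G) ∩ {r | r ∈ D ∧ ∀ w ∈ Φ, Matches ℓ E j V T f g w r} ⊆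
      (fun a => (Wm (extend (φ v : E v →+* F v) (V v) a : Matrix (Fin 2) (Fin 2) (F v)).det
      ((extend (φ v : E v →+* F v) (V v) a : Matrix (Fin 2) (Fin 2) (F v)).trace ^ 2 -
        2 * (extend (φ v : E v →+* F v) (V v) a : Matrix (Fin 2) (Fin 2) (F v)).det)
      (baseChange (F v) (T (ℓ v)) a : Matrix (Fin n) (Fin n) (F v))).det) ⁻¹' {0} := by
    rintro r ⟨hrU, hrD, hrF⟩
    have h3 := rel_eqF ℓ E j F φ V T f g v r (hrF v hvF)
    rw [h r hrU hrD hrF] at h3
    rw [Set.mem_preimage, Set.mem_singleton_iff, h3]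
    simp
  exact (hcl.closure_subset_iff.mpr h2) h1

theorem adelic [Nonempty Λ] (hfin : ∀ l, {v | ℓ v = l}.Finite)
    [∀ v, FiniteDimensional ℚ_[ℓ v] (E v)] [∀ v, FiniteDimensional ℚ_[ℓ v] (F v)] (a : ℕ)
    (ha : ∀ v, Module.finrank ℚ_[ℓ v] (E v) ≤ a)
    (hV : ∀ v, Continuous (V v)) (hVi : ∀ v g, Itg (V v g : Matrix (Fin 2) (Fin 2) (E v)))
    (hT : ∀ (l : ℕ) [Fact l.Prime], Continuous (T l))
    (hTi : ∀ (l : ℕ) [Fact l.Prime] (g : G), Itg (T l g : Matrix (Fin n) (Fin n) ℚ_[l]))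
    (hopen : AdelicallyOpen ⊤ V)
    (hss : ∀ v, Semisimple (baseChange (F v) (T (ℓ v))))
    (hgen : ∀ v, IdempotentGenerated (ℓ v) (extend (φ v : E v →+* F v) (V v))
      (baseChange (F v) (T (ℓ v))))
    (D : Set G)
    (hD : ∀ Φ : Finset Λ, Dense {r | r ∈ D ∧ ∀ v ∈ Φ, Matches ℓ E j V T f g v r})
    (hD' : ∀ r ∈ D, {v | ¬ Matches ℓ E j V T f g v r}.Finite) :
    List.TFAE [
      ∃ v, PotentiallyContained (extend (φ v : E v →+* F v) (V v))
        (baseChange (F v) (T (ℓ v))),
      ∀ v, PotentiallyContained (extend (φ v : E v →+* F v) (V v))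
        (baseChange (F v) (T (ℓ v))),
      ¬ AdelicallyOpen (commonKernel T) V] := by
  classical
  have hE0 : ∀ v, CharZero (E v) := fun v =>
    charZero_of_injective_algebraMap (algebraMap ℚ_[ℓ v] (E v)).injective
  obtain ⟨S, ε, hε, hbig, hsmall⟩ := full_of_open V ⊤ hopen
  have hfull : ∀ v, ∃ ε' : ℝ, 0 < ε' ∧ Full V ⊤ v ε' := by
    intro v
    by_cases hv : v ∈ S
    · exact ⟨ε, hε, hsmall v hv⟩
    · exact ⟨2, two_pos, hbig v hv⟩
  have hirr : ∀ v, StronglyIrreducible (V v) := by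
    intro v
    obtain ⟨ε', h1, h2⟩ := hfull v
    refine strIrr_of_near (V v) h1 fun y hy hy' => ?_
    obtain ⟨g, -, hg, -⟩ := h2 y hy hy'
    exact ⟨g, hg⟩
  tfae_have 1 → 2 := by
    rintro ⟨v, U, hU, i, hi, hUi⟩ w
    refine contained_of_rel ℓ E j F φ V T f g w {v, w} (by simp) (hV w) (hT _) (hirr w) (hss w)
      (hgen w) D (hD _) U hU ?_
    intro r hrU _ hrF
    have h1 := om_of_contained _ _ i hi (hUi r hrU)
    rw [rel_eqF ℓ E j F φ V T f g v r (hrF v (by simp))] at h1
    rw [map_eq_zero, map_eq_zero] at h1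
    exact_mod_cast h1
  tfae_have 2 → 3 := by
    intro h hA
    obtain ⟨v⟩ := ‹Nonempty Λ›
    obtain ⟨U, hU, i, hi, hUi⟩ := h v
    obtain ⟨S', ε', hε', h1, h2⟩ := full_of_open V _ hA
    have h3 : ∃ ε'' : ℝ, 0 < ε'' ∧ Full V (commonKernel T) v ε'' := by
      by_cases hv : v ∈ S'
      · exact ⟨ε', hε', h2 v hv⟩
      · exact ⟨2, two_pos, h1 v hv⟩
    obtain ⟨ε'', h4, h5⟩ := h3
    refine not_near_of_trivial (V v) (commonKernel T) U hU ?_ h4 fun y hy hy' => ?_
    · intro x hx hxU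
      have h6 := hUi x hxU
      have h7 : T (ℓ v) x = 1 := by
        have h8 := Subgroup.mem_iInf.mp (Subgroup.mem_iInf.mp hx (ℓ v)) inferInstance
        exact h8
      have h8 : baseChange (F v) (T (ℓ v)) x = 1 := by
        change Matrix.GeneralLinearGroup.map (algebraMap ℚ_[ℓ v] (F v)) (T (ℓ v) x) = 1
        rw [h7, map_one]
      rw [h8, Units.val_one, Matrix.one_mul] at h6
      have h9 : (extend (φ v : E v →+* F v) (V v) x : Matrix (Fin 2) (Fin 2) (F v)) = 1 := by
        apply Matrix.ext_of_mulVec_single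
        intro k
        apply hi
        rw [Matrix.mulVec_mulVec, ← h6, Matrix.one_mulVec]
      ext a b
      apply (φ v : E v →+* F v).injective
      have h10 := congrFun (congrFun h9 a) b
      change φ v ((V v x : Matrix (Fin 2) (Fin 2) (E v)) a b) = _ at h10
      change φ v ((V v x : Matrix (Fin 2) (Fin 2) (E v)) a b) = φ v _
      rw [h10]
      by_cases hab : a = b
      · subst hab
        simp
      · simp [hab]
    · obtain ⟨x, hx, hx', -⟩ := h5 y hy hy'
      exact ⟨x, hx, hx'⟩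
  tfae_have 3 → 1 := by
    intro h
    by_contra hcon
    push Not at hcon
    apply h
    obtain ⟨C, hC⟩ := residual_place n a
    obtain ⟨N₀, hN₀⟩ : ∃ N₀ : ℕ, N₀ = C + 2 * n.factorial + 9 := ⟨_, rfl⟩
    -- the bad places
    obtain ⟨B, hB⟩ : ∃ B : Set Λ, B = {v | v ∉ S ∧ N₀ ≤ ℓ v ∧ ∀ x : G,
      (∀ i k, ‖(T (ℓ v) x : Matrix (Fin n) (Fin n) ℚ_[ℓ v]) i k -
        (1 : Matrix (Fin n) (Fin n) ℚ_[ℓ v]) i k‖ < 1) →
      ¬ NSm (V v x : Matrix (Fin 2) (Fin 2) (E v))} := ⟨_, rfl⟩
    have hBfin : B.Finite := by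
      by_contra hinf
      obtain ⟨v⟩ := ‹Nonempty Λ›
      refine hcon v (contained_of_rel ℓ E j F φ V T f g v {v} (by simp) (hV v) (hT _) (hirr v)
        (hss v) (hgen v) D (hD _) ⊤ isOpen_univ ?_)
      intro r _ hrD _
      refine eq_zero_of_small ℓ hfin E j _ (B \ {v | ¬ Matches ℓ E j V T f g v r})
        (Set.Infinite.sdiff hinf (hD' r hrD)) ?_
      rintro w ⟨hwB, hwM⟩
      rw [hB] at hwB
      obtain ⟨hwS, hwN, hwx⟩ := hwB
      have hwM' : Matches ℓ E j V T f g w r := by
        by_contra hno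
        exact hwM hno
      rw [← rel_eq ℓ E j V T f g w r hwM']
      refine hC (ℓ w) (by omega) (E w) (ha w) G (V w) (T (ℓ w)) (hVi w) (hTi _) ?_ hwx r
      intro y hy
      obtain ⟨x, -, hx, -⟩ := hbig w hwS y hy (near_two hy)
      exact ⟨x, hx⟩
    have hsm : {v | ℓ v < N₀}.Finite := by
      have h1 : {v | ℓ v < N₀} = ⋃ l ∈ Finset.range N₀, {v | ℓ v = l} := by
        ext v
        simp
      rw [h1]
      exact Set.Finite.biUnion (Finset.range N₀).finite_toSet fun l _ => hfin l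
    obtain ⟨S', hS'⟩ : ∃ S' : Finset Λ, S' = S ∪ hBfin.toFinset ∪ hsm.toFinset := ⟨_, rfl⟩
    have hsmallp : ∀ v, ∃ ε' : ℝ, 0 < ε' ∧ Full V (commonKernel T) v ε' := by
      intro v
      obtain ⟨ε', h1, h2⟩ := hfull v
      exact small_placeF V hV v (hVi v) h1 h2 T hT hTi (φ v) (hss v) (hgen v) (hcon v)
    choose δ hδ hδ' using hsmallp
    refine open_of_full V hV (commonKernel T) ?_ S' δ (fun v _ => hδ v) ?_ fun v _ => hδ' v
    · have h1 : ((commonKernel T : Subgroup G) : Set G) =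
          ⋂ (l : ℕ) (_ : Fact l.Prime), ((T l).ker : Set G) := by
        simp [commonKernel]
      rw [h1]
      refine isClosed_iInter fun l => isClosed_iInter fun hl => ?_
      exact isClosed_singleton.preimage (hT l)
    · intro v hv
      rw [hS'] at hv
      have hvS : v ∉ S := fun h0 => hv (Finset.mem_union_left _ (Finset.mem_union_left _ h0))
      have hvB : v ∉ B := fun h0 => hv (Finset.mem_union_left _ (Finset.mem_union_right _
        (hBfin.mem_toFinset.mpr h0)))
      have hvN : N₀ ≤ ℓ v := by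
        by_contra h0
        exact hv (Finset.mem_union_right _ (hsm.mem_toFinset.mpr (not_le.mp h0)))
      rw [hB] at hvB
      have h1 : ∃ x : G, (∀ i k, ‖(T (ℓ v) x : Matrix (Fin n) (Fin n) ℚ_[ℓ v]) i k -
          (1 : Matrix (Fin n) (Fin n) ℚ_[ℓ v]) i k‖ < 1) ∧
          NSm (V v x : Matrix (Fin 2) (Fin 2) (E v)) := by
        by_contra hno
        push Not at hno
        exact hvB ⟨hvS, hvN, hno⟩
      exact big_place V hV v (hVi v) (hbig v hvS) T hT hTi (by omega) (by omega) h1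
  tfae_finish

end

end Pool.Agent.Helper37.Ad
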