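import Pool.Agent.Helper37.Ad.Defs

/-!
# Project ADL (MP_6cbef8_nt), internal definitions

* `Itg A`: all entries of `A` have norm at most one.
* `Near ε A`: all entries of `A - 1` have norm less than `ε`.
* `Nsc A`: the `2 × 2` matrix `A` is not scalar.
* `NSm A`: the integral `2 × 2` matrix `A` is not scalar modulo the maximal ideal.
* `Full V A v ε`: every `y ∈ SL_2(O_v)` which is `ε`-near to `1` is the image under `V v` of an
  element of `A` on which all other `V w` are trivial.
-/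

set_option autoImplicit false

namespace Pool.Agent.Helper37.Ad

/-- all entries have norm at most one -/
def Itg {E : Type*} [NormedField E] {n : ℕ} (A : Matrix (Fin n) (Fin n) E) : Prop :=
  ∀ i j, ‖A i j‖ ≤ 1

/-- the entries of `A - 1` have norm less than `ε` -/
def Near {E : Type*} [NormedField E] {n : ℕ} (ε : ℝ) (A : Matrix (Fin n) (Fin n) E) : Prop :=
  ∀ i j, ‖A i j - (1 : Matrix (Fin n) (Fin n) E) i j‖ < ε

/-- not scalar -/
def Nsc {E : Type*} [NormedField E] (A : Matrix (Fin 2) (Fin 2) E) : Prop :=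
  ¬ ∃ c : E, A = c • (1 : Matrix (Fin 2) (Fin 2) E)

/-- not scalar modulo the maximal ideal -/
def NSm {E : Type*} [NormedField E] (A : Matrix (Fin 2) (Fin 2) E) : Prop :=
  ‖A 0 1‖ = 1 ∨ ‖A 1 0‖ = 1 ∨ ‖A 0 0 - A 1 1‖ = 1

/-- elements of `A` with a prescribed component near `1` at `v` and trivial other components -/
def Full {Λ : Type*} {E : Λ → Type*} [∀ v, NormedField (E v)] {G : Type*} [Group G]
    (V : ∀ v, G →* GL (Fin 2) (E v)) (A : Subgroup G) (v : Λ) (ε : ℝ) : Prop :=
  ∀ y : Matrix.SpecialLinearGroup (Fin 2) (E v),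
    Itg (y : Matrix (Fin 2) (Fin 2) (E v)) → Near ε (y : Matrix (Fin 2) (Fin 2) (E v)) →
    ∃ g ∈ A, (V v g : Matrix (Fin 2) (Fin 2) (E v)) = (y : Matrix (Fin 2) (Fin 2) (E v)) ∧
      ∀ w, w ≠ v → V w g = 1

end Pool.Agent.Helper37.Ad
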