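import Pool.Agent.Helper37.Ad.Base

/-!
# Project ADL, module BigN: normal subgroups of `SL_2` of a valuation ring

Only Mathlib and the definitions `Itg`, `NSm` of Base.lean are needed.

PLAN. `‖30‖ = 1` gives `‖2‖ = ‖15‖ = 1` (norms of integers are at most one). Write `e12 t`, `e21 t`
as usual, `w = !![0, 1; -1, 0]`; call `y` integral if `Itg y`. Entries of products and inverses of
integral matrices of determinant one are integral (ultrametric, `y⁻¹` is the adjugate).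

(1) There is an integral `n' = !![a, b; c, d] ∈ N` with `‖c‖ = 1`: if `‖n 1 0‖ = 1` take `n`; if
`‖n 0 1‖ = 1` take `w * n * w⁻¹` (lower left entry `- n 0 1`); otherwise `‖n 1 0‖ < 1`, `‖n 0 1‖ < 1`
and `‖n 0 0 - n 1 1‖ = 1`, and `e21 1 * n * (e21 1)⁻¹` has lower left entry
`n 0 0 + n 1 0 - n 0 1 - n 1 1`, of norm one (ultrametric).
(2) Conjugating by `e12 (-a / c)` we may take `a = 0`: `n' = !![0, -c⁻¹; c, d]`, integral, `‖c‖ = 1`.
(3) With `h = diag (2, 2⁻¹)` (integral): `h * n' * h⁻¹ * n'⁻¹ = !![4, 0; x, 4⁻¹]` for some integral `x`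
(here `s = 2`, `x = c d (s⁻² - 1)`), call it `b' ∈ N`.
(4) `b' * e21 t * b'⁻¹ = e21 (4⁻² t)`, so `e21 ((4⁻² - 1) t) = b' * (e21 t * b'⁻¹ * (e21 t)⁻¹) ∈ N` for
integral `t`; `‖4⁻² - 1‖ = ‖-15 / 16‖ = 1`, so `e21 t ∈ N` for all integral `t`; conjugating by `w`
also `e12 t ∈ N` for all integral `t`.
(5) Every integral `y = !![p, q; r, t]` of determinant one is a product of integral `e12`, `e21`:
if `‖p‖ = 1`, `y = e21 (r / p) * diag (p, p⁻¹) * e12 (q / p)` and `diag (p, p⁻¹) =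
e12 p * e21 (-p⁻¹) * e12 p * w⁻¹` with `w = e12 1 * e21 (-1) * e12 1`; if `‖p‖ < 1` then `‖r‖ = 1`
(`p t - q r = 1`) and `e12 1 * y` has upper left entry `p + r` of norm one.
-/

set_option autoImplicit false

namespace Pool.Agent.Helper37.Ad

section aux

variable {E : Type*} [NontriviallyNormedField E]

private theorem ext4 {x y : Matrix.SpecialLinearGroup (Fin 2) E}
    (h00 : (x : Matrix (Fin 2) (Fin 2) E) 0 0 = (y : Matrix (Fin 2) (Fin 2) E) 0 0)
    (h01 : (x : Matrix (Fin 2) (Fin 2) E) 0 1 = (y : Matrix (Fin 2) (Fin 2) E) 0 1)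
    (h10 : (x : Matrix (Fin 2) (Fin 2) E) 1 0 = (y : Matrix (Fin 2) (Fin 2) E) 1 0)
    (h11 : (x : Matrix (Fin 2) (Fin 2) E) 1 1 = (y : Matrix (Fin 2) (Fin 2) E) 1 1) : x = y := by
  apply Matrix.SpecialLinearGroup.ext
  intro i j
  fin_cases i <;> fin_cases j <;> assumption

private def mk4 (a b c d : E) (h : a * d - b * c = 1) : Matrix.SpecialLinearGroup (Fin 2) E :=
  ⟨!![a, b; c, d], by rw [Matrix.det_fin_two_of]; exact h⟩

private theorem mk4_00 (a b c d : E) (h : a * d - b * c = 1) :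
    (mk4 a b c d h : Matrix (Fin 2) (Fin 2) E) 0 0 = a := rfl
private theorem mk4_01 (a b c d : E) (h : a * d - b * c = 1) :
    (mk4 a b c d h : Matrix (Fin 2) (Fin 2) E) 0 1 = b := rfl
private theorem mk4_10 (a b c d : E) (h : a * d - b * c = 1) :
    (mk4 a b c d h : Matrix (Fin 2) (Fin 2) E) 1 0 = c := rfl
private theorem mk4_11 (a b c d : E) (h : a * d - b * c = 1) :
    (mk4 a b c d h : Matrix (Fin 2) (Fin 2) E) 1 1 = d := rfl

private theorem mul4 (x y : Matrix.SpecialLinearGroup (Fin 2) E) (i j : Fin 2) :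
    ((x * y : Matrix.SpecialLinearGroup (Fin 2) E) : Matrix (Fin 2) (Fin 2) E) i j =
      (x : Matrix (Fin 2) (Fin 2) E) i 0 * (y : Matrix (Fin 2) (Fin 2) E) 0 j +
        (x : Matrix (Fin 2) (Fin 2) E) i 1 * (y : Matrix (Fin 2) (Fin 2) E) 1 j := by
  rw [Matrix.SpecialLinearGroup.coe_mul, Matrix.mul_apply, Fin.sum_univ_two]

private theorem inv_00 (x : Matrix.SpecialLinearGroup (Fin 2) E) :
    ((x⁻¹ : Matrix.SpecialLinearGroup (Fin 2) E) : Matrix (Fin 2) (Fin 2) E) 0 0 =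
      (x : Matrix (Fin 2) (Fin 2) E) 1 1 := by
  rw [Matrix.SpecialLinearGroup.coe_inv, Matrix.adjugate_fin_two]; rfl
private theorem inv_01 (x : Matrix.SpecialLinearGroup (Fin 2) E) :
    ((x⁻¹ : Matrix.SpecialLinearGroup (Fin 2) E) : Matrix (Fin 2) (Fin 2) E) 0 1 =
      - (x : Matrix (Fin 2) (Fin 2) E) 0 1 := by
  rw [Matrix.SpecialLinearGroup.coe_inv, Matrix.adjugate_fin_two]; rfl
private theorem inv_10 (x : Matrix.SpecialLinearGroup (Fin 2) E) :
    ((x⁻¹ : Matrix.SpecialLinearGroup (Fin 2) E) : Matrix (Fin 2) (Fin 2) E) 1 0 =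
      - (x : Matrix (Fin 2) (Fin 2) E) 1 0 := by
  rw [Matrix.SpecialLinearGroup.coe_inv, Matrix.adjugate_fin_two]; rfl
private theorem inv_11 (x : Matrix.SpecialLinearGroup (Fin 2) E) :
    ((x⁻¹ : Matrix.SpecialLinearGroup (Fin 2) E) : Matrix (Fin 2) (Fin 2) E) 1 1 =
      (x : Matrix (Fin 2) (Fin 2) E) 0 0 := by
  rw [Matrix.SpecialLinearGroup.coe_inv, Matrix.adjugate_fin_two]; rfl

private theorem det4 (x : Matrix.SpecialLinearGroup (Fin 2) E) :
    (x : Matrix (Fin 2) (Fin 2) E) 0 0 * (x : Matrix (Fin 2) (Fin 2) E) 1 1 -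
      (x : Matrix (Fin 2) (Fin 2) E) 0 1 * (x : Matrix (Fin 2) (Fin 2) E) 1 0 = 1 := by
  have h := x.2
  rw [Matrix.det_fin_two] at h
  exact h

variable [IsUltrametricDist E]

private theorem nadd {a b : E} {r : ℝ} (ha : ‖a‖ ≤ r) (hb : ‖b‖ ≤ r) : ‖a + b‖ ≤ r :=
  (IsUltrametricDist.norm_add_le_max a b).trans (max_le ha hb)

private theorem naddlt {a b : E} {r : ℝ} (ha : ‖a‖ < r) (hb : ‖b‖ < r) : ‖a + b‖ < r :=
  (IsUltrametricDist.norm_add_le_max a b).trans_lt (max_lt ha hb)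

private theorem nmul {a b : E} (ha : ‖a‖ ≤ 1) (hb : ‖b‖ ≤ 1) : ‖a * b‖ ≤ 1 := by
  rw [norm_mul]
  exact mul_le_one₀ ha (norm_nonneg _) hb

/-- adding something small does not change norm one -/
private theorem nadd_one {a b : E} (ha : ‖a‖ = 1) (hb : ‖b‖ < 1) : ‖a + b‖ = 1 := by
  apply le_antisymm (nadd ha.le hb.le)
  by_contra hlt
  push Not at hlt
  have h1 : ‖(a + b) + (-b)‖ < 1 := naddlt hlt (by rwa [norm_neg])
  rw [add_neg_cancel_right, ha] at h1
  exact lt_irrefl _ h1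

private theorem itg_mul {x y : Matrix.SpecialLinearGroup (Fin 2) E}
    (hx : Itg (x : Matrix (Fin 2) (Fin 2) E)) (hy : Itg (y : Matrix (Fin 2) (Fin 2) E)) :
    Itg ((x * y : Matrix.SpecialLinearGroup (Fin 2) E) : Matrix (Fin 2) (Fin 2) E) := by
  intro i j
  rw [mul4]
  exact nadd (nmul (hx _ _) (hy _ _)) (nmul (hx _ _) (hy _ _))

private theorem itg_inv {x : Matrix.SpecialLinearGroup (Fin 2) E}
    (hx : Itg (x : Matrix (Fin 2) (Fin 2) E)) :
    Itg ((x⁻¹ : Matrix.SpecialLinearGroup (Fin 2) E) : Matrix (Fin 2) (Fin 2) E) := by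
  intro i j
  fin_cases i <;> fin_cases j
  · change ‖((x⁻¹ : Matrix.SpecialLinearGroup (Fin 2) E) : Matrix (Fin 2) (Fin 2) E) 0 0‖ ≤ 1
    rw [inv_00]; exact hx _ _
  · change ‖((x⁻¹ : Matrix.SpecialLinearGroup (Fin 2) E) : Matrix (Fin 2) (Fin 2) E) 0 1‖ ≤ 1
    rw [inv_01, norm_neg]; exact hx _ _
  · change ‖((x⁻¹ : Matrix.SpecialLinearGroup (Fin 2) E) : Matrix (Fin 2) (Fin 2) E) 1 0‖ ≤ 1
    rw [inv_10, norm_neg]; exact hx _ _
  · change ‖((x⁻¹ : Matrix.SpecialLinearGroup (Fin 2) E) : Matrix (Fin 2) (Fin 2) E) 1 1‖ ≤ 1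
    rw [inv_11]; exact hx _ _

private theorem itg_mk4 {a b c d : E} (h : a * d - b * c = 1) (ha : ‖a‖ ≤ 1) (hb : ‖b‖ ≤ 1)
    (hc : ‖c‖ ≤ 1) (hd : ‖d‖ ≤ 1) : Itg (mk4 a b c d h : Matrix (Fin 2) (Fin 2) E) := by
  intro i j
  fin_cases i <;> fin_cases j
  · exact ha
  · exact hb
  · exact hc
  · exact hd

private theorem nzero : ‖(0 : E)‖ ≤ 1 := by rw [norm_zero]; exact zero_le_one
private theorem none' : ‖(1 : E)‖ ≤ 1 := by rw [norm_one]

/-- step (1) -/
private theorem step1 (N : Subgroup (Matrix.SpecialLinearGroup (Fin 2) E))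
    (hN : ∀ y : Matrix.SpecialLinearGroup (Fin 2) E, Itg (y : Matrix (Fin 2) (Fin 2) E) →
      ∀ x ∈ N, y * x * y⁻¹ ∈ N)
    {n : Matrix.SpecialLinearGroup (Fin 2) E} (hn : n ∈ N)
    (hni : Itg (n : Matrix (Fin 2) (Fin 2) E)) (hns : NSm (n : Matrix (Fin 2) (Fin 2) E)) :
    ∃ m ∈ N, Itg (m : Matrix (Fin 2) (Fin 2) E) ∧ ‖(m : Matrix (Fin 2) (Fin 2) E) 1 0‖ = 1 := by
  by_cases h10 : ‖(n : Matrix (Fin 2) (Fin 2) E) 1 0‖ = 1
  · exact ⟨n, hn, hni, h10⟩
  by_cases h01 : ‖(n : Matrix (Fin 2) (Fin 2) E) 0 1‖ = 1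
  · have hw : Itg (mk4 (0 : E) 1 (-1) 0 (by ring) : Matrix (Fin 2) (Fin 2) E) :=
      itg_mk4 _ nzero none' (by rw [norm_neg, norm_one]) nzero
    refine ⟨_, hN _ hw n hn, itg_mul (itg_mul hw hni) (itg_inv hw), ?_⟩
    have : ((mk4 (0 : E) 1 (-1) 0 (by ring) * n * (mk4 (0 : E) 1 (-1) 0 (by ring))⁻¹ :
        Matrix.SpecialLinearGroup (Fin 2) E) : Matrix (Fin 2) (Fin 2) E) 1 0 =
        - (n : Matrix (Fin 2) (Fin 2) E) 0 1 := by
      rw [mul4, mul4, mul4, inv_00, inv_10, mk4_10, mk4_11]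
      ring
    rw [this, norm_neg, h01]
  · have hd : ‖(n : Matrix (Fin 2) (Fin 2) E) 0 0 - (n : Matrix (Fin 2) (Fin 2) E) 1 1‖ = 1 := by
      rcases hns with h | h | h
      · exact absurd h h01
      · exact absurd h h10
      · exact h
    have hw : Itg (mk4 (1 : E) 0 1 1 (by ring) : Matrix (Fin 2) (Fin 2) E) :=
      itg_mk4 _ none' nzero none' none'
    refine ⟨_, hN _ hw n hn, itg_mul (itg_mul hw hni) (itg_inv hw), ?_⟩
    have : ((mk4 (1 : E) 0 1 1 (by ring) * n * (mk4 (1 : E) 0 1 1 (by ring))⁻¹ :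
        Matrix.SpecialLinearGroup (Fin 2) E) : Matrix (Fin 2) (Fin 2) E) 1 0 =
        ((n : Matrix (Fin 2) (Fin 2) E) 0 0 - (n : Matrix (Fin 2) (Fin 2) E) 1 1) +
          ((n : Matrix (Fin 2) (Fin 2) E) 1 0 + - (n : Matrix (Fin 2) (Fin 2) E) 0 1) := by
      rw [mul4, mul4, mul4, inv_00, inv_10, mk4_10, mk4_11]
      ring
    rw [this]
    exact nadd_one hd (naddlt (lt_of_le_of_ne (hni _ _) h10)
      (by rw [norm_neg]; exact lt_of_le_of_ne (hni _ _) h01))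

/-- step (2) -/
private theorem step2 (N : Subgroup (Matrix.SpecialLinearGroup (Fin 2) E))
    (hN : ∀ y : Matrix.SpecialLinearGroup (Fin 2) E, Itg (y : Matrix (Fin 2) (Fin 2) E) →
      ∀ x ∈ N, y * x * y⁻¹ ∈ N)
    {m : Matrix.SpecialLinearGroup (Fin 2) E} (hm : m ∈ N)
    (hmi : Itg (m : Matrix (Fin 2) (Fin 2) E))
    (h10 : ‖(m : Matrix (Fin 2) (Fin 2) E) 1 0‖ = 1) :
    ∃ m ∈ N, Itg (m : Matrix (Fin 2) (Fin 2) E) ∧
      ‖(m : Matrix (Fin 2) (Fin 2) E) 1 0‖ = 1 ∧ (m : Matrix (Fin 2) (Fin 2) E) 0 0 = 0 := by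
  have hc : (m : Matrix (Fin 2) (Fin 2) E) 1 0 ≠ 0 := by
    intro h
    rw [h, norm_zero] at h10
    exact zero_ne_one h10
  set u : E := -((m : Matrix (Fin 2) (Fin 2) E) 0 0) / (m : Matrix (Fin 2) (Fin 2) E) 1 0 with hu
  have hui : ‖u‖ ≤ 1 := by
    rw [hu, norm_div, h10, div_one, norm_neg]
    exact hmi _ _
  have hw : Itg (mk4 (1 : E) u 0 1 (by ring) : Matrix (Fin 2) (Fin 2) E) :=
    itg_mk4 _ none' hui nzero none'
  refine ⟨_, hN _ hw m hm, itg_mul (itg_mul hw hmi) (itg_inv hw), ?_, ?_⟩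
  · rw [mul4, mul4, mul4, inv_00, inv_10, mk4_10, mk4_11]
    rw [show (0 * (m : Matrix (Fin 2) (Fin 2) E) 0 0 + 1 * (m : Matrix (Fin 2) (Fin 2) E) 1 0) * 1 +
      (0 * (m : Matrix (Fin 2) (Fin 2) E) 0 1 + 1 * (m : Matrix (Fin 2) (Fin 2) E) 1 1) * -0 =
      (m : Matrix (Fin 2) (Fin 2) E) 1 0 by ring]
    exact h10
  · rw [mul4, mul4, mul4, inv_00, inv_10, mk4_10, mk4_11, mk4_00, mk4_01]
    rw [hu]
    field_simp
    ring

end aux

theorem big_normal {E : Type*} [NontriviallyNormedField E] [IsUltrametricDist E]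
    (h30 : ‖(30 : E)‖ = 1) (N : Subgroup (Matrix.SpecialLinearGroup (Fin 2) E))
    (hN : ∀ y : Matrix.SpecialLinearGroup (Fin 2) E, Itg (y : Matrix (Fin 2) (Fin 2) E) →
      ∀ x ∈ N, y * x * y⁻¹ ∈ N)
    {n : Matrix.SpecialLinearGroup (Fin 2) E} (hn : n ∈ N)
    (hni : Itg (n : Matrix (Fin 2) (Fin 2) E)) (hns : NSm (n : Matrix (Fin 2) (Fin 2) E)) :
    ∀ y : Matrix.SpecialLinearGroup (Fin 2) E, Itg (y : Matrix (Fin 2) (Fin 2) E) → y ∈ N := by
  -- the norms of `2` and `15`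
  have h2le : ‖(2 : E)‖ ≤ 1 := by
    have := IsUltrametricDist.norm_natCast_le_one E 2
    simpa using this
  have h15le : ‖(15 : E)‖ ≤ 1 := by
    have := IsUltrametricDist.norm_natCast_le_one E 15
    simpa using this
  have hprod : ‖(2 : E)‖ * ‖(15 : E)‖ = 1 := by
    rw [← norm_mul, show (2 : E) * 15 = 30 by norm_num, h30]
  have h2 : ‖(2 : E)‖ = 1 := by
    apply le_antisymm h2le
    by_contra hlt
    push Not at hlt
    have : ‖(2 : E)‖ * ‖(15 : E)‖ < 1 := by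
      calc ‖(2 : E)‖ * ‖(15 : E)‖ ≤ ‖(2 : E)‖ * 1 :=
            mul_le_mul_of_nonneg_left h15le (norm_nonneg _)
        _ = ‖(2 : E)‖ := mul_one _
        _ < 1 := hlt
    rw [hprod] at this
    exact lt_irrefl _ this
  have h15 : ‖(15 : E)‖ = 1 := by
    rw [h2, one_mul] at hprod
    exact hprod
  have h2ne : (2 : E) ≠ 0 := by
    intro h
    rw [h, norm_zero] at h2
    exact zero_ne_one h2
  have h15ne : (15 : E) ≠ 0 := by
    intro h
    rw [h, norm_zero] at h15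
    exact zero_ne_one h15
  have h4 : ‖(4 : E)‖ = 1 := by
    rw [show (4 : E) = 2 * 2 by norm_num, norm_mul, h2, one_mul]
  have h4ne : (4 : E) ≠ 0 := by
    intro h
    rw [h, norm_zero] at h4
    exact zero_ne_one h4
  have h16 : ‖(16 : E)‖ = 1 := by
    rw [show (16 : E) = 4 * 4 by norm_num, norm_mul, h4, one_mul]
  have h16ne : (16 : E) ≠ 0 := by
    intro h
    rw [h, norm_zero] at h16
    exact zero_ne_one h16
  obtain ⟨m1, hm1, hm1i, hm1c⟩ := step1 N hN hn hni hns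
  obtain ⟨m, hm, hmi, hmc, hma⟩ := step2 N hN hm1 hm1i hm1c
  have hdet := det4 m
  rw [hma, zero_mul, zero_sub] at hdet
  -- step (3)
  have hh : Itg (mk4 (2 : E) 0 0 2⁻¹ (by rw [mul_inv_cancel₀ h2ne]; ring) :
      Matrix (Fin 2) (Fin 2) E) :=
    itg_mk4 _ h2le nzero nzero (by rw [norm_inv, h2, inv_one])
  obtain ⟨x, hx⟩ : ∃ x : E, x = (m : Matrix (Fin 2) (Fin 2) E) 1 0 *
      (m : Matrix (Fin 2) (Fin 2) E) 1 1 * (4⁻¹ - 1) := ⟨_, rfl⟩
  have hb' : mk4 (4 : E) 0 x 4⁻¹ (by rw [mul_inv_cancel₀ h4ne]; ring) ∈ N := by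
    have h1 := N.mul_mem (hN _ hh m hm) (N.inv_mem hm)
    convert h1 using 1
    have hdet' : (m : Matrix (Fin 2) (Fin 2) E) 0 1 * (m : Matrix (Fin 2) (Fin 2) E) 1 0 = -1 := by
      linear_combination -hdet
    apply ext4
    · simp only [mul4, inv_00, inv_01, inv_10, inv_11, mk4_00, mk4_01, mk4_10, mk4_11, hma]
      have : (2 : E) * (2⁻¹)⁻¹ = 4 := by rw [inv_inv]; norm_num
      rw [show (2 * 0 + 0 * (m : Matrix (Fin 2) (Fin 2) E) 1 0) * 2⁻¹ +
        (2 * (m : Matrix (Fin 2) (Fin 2) E) 0 1 + 0 * (m : Matrix (Fin 2) (Fin 2) E) 1 1) * -0 =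
        (0 : E) by ring]
      linear_combination (4 : E) * hdet'
    · simp only [mul4, inv_00, inv_01, inv_10, inv_11, mk4_00, mk4_01, mk4_10, mk4_11, hma]
      ring
    · simp only [mul4, inv_00, inv_01, inv_10, inv_11, mk4_00, mk4_01, mk4_10, mk4_11, hma, hx]
      field_simp
      ring
    · simp only [mul4, inv_00, inv_01, inv_10, inv_11, mk4_00, mk4_01, mk4_10, mk4_11, hma]
      field_simp
      linear_combination (4 : E) * hdet'
  -- step (4)
  have he21 : ∀ s : E, ‖s‖ ≤ 1 → mk4 (1 : E) 0 s 1 (by ring) ∈ N := by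
    intro s hs
    have ht : ‖-(16 * s / 15)‖ ≤ 1 := by
      rw [norm_neg, norm_div, norm_mul, h16, h15, one_mul, div_one]
      exact hs
    have hti : Itg (mk4 (1 : E) 0 (-(16 * s / 15)) 1 (by ring) : Matrix (Fin 2) (Fin 2) E) :=
      itg_mk4 _ none' nzero ht none'
    have h1 := N.mul_mem hb' (hN _ hti _ (N.inv_mem hb'))
    convert h1 using 1
    apply ext4
    · simp only [mul4, inv_00, inv_01, inv_10, inv_11, mk4_00, mk4_01, mk4_10, mk4_11]
      field_simp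
      try ring
    · simp only [mul4, inv_00, inv_01, inv_10, inv_11, mk4_00, mk4_01, mk4_10, mk4_11]
      ring
    · simp only [mul4, inv_00, inv_01, inv_10, inv_11, mk4_00, mk4_01, mk4_10, mk4_11]
      field_simp
      try ring
    · simp only [mul4, inv_00, inv_01, inv_10, inv_11, mk4_00, mk4_01, mk4_10, mk4_11]
      field_simp
      try ring
  have he12 : ∀ s : E, ‖s‖ ≤ 1 → mk4 (1 : E) s 0 1 (by ring) ∈ N := by
    intro s hs
    have hw : Itg (mk4 (0 : E) 1 (-1) 0 (by ring) : Matrix (Fin 2) (Fin 2) E) :=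
      itg_mk4 _ nzero none' (by rw [norm_neg, norm_one]) nzero
    have h1 := hN _ hw _ (he21 (-s) (by rw [norm_neg]; exact hs))
    convert h1 using 1
    apply ext4 <;>
      simp only [mul4, inv_00, inv_01, inv_10, inv_11, mk4_00, mk4_01, mk4_10, mk4_11] <;> ring
  -- step (5)
  have hmain : ∀ y : Matrix.SpecialLinearGroup (Fin 2) E, Itg (y : Matrix (Fin 2) (Fin 2) E) →
      ‖(y : Matrix (Fin 2) (Fin 2) E) 0 0‖ = 1 → y ∈ N := by
    intro y hy hp
    have hpne : (y : Matrix (Fin 2) (Fin 2) E) 0 0 ≠ 0 := by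
      intro h
      rw [h, norm_zero] at hp
      exact zero_ne_one hp
    have hdy := det4 y
    have hpi : ‖((y : Matrix (Fin 2) (Fin 2) E) 0 0)⁻¹‖ ≤ 1 := by rw [norm_inv, hp, inv_one]
    have g1 := he21 ((y : Matrix (Fin 2) (Fin 2) E) 1 0 / (y : Matrix (Fin 2) (Fin 2) E) 0 0)
      (by rw [norm_div, hp, div_one]; exact hy _ _)
    have g2 := he12 ((y : Matrix (Fin 2) (Fin 2) E) 0 0) hp.le
    have g3 := he21 (-((y : Matrix (Fin 2) (Fin 2) E) 0 0)⁻¹) (by rw [norm_neg]; exact hpi)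
    have g4 := he12 1 none'
    have g5 := he21 (-1) (by rw [norm_neg, norm_one])
    have g6 := he12 ((y : Matrix (Fin 2) (Fin 2) E) 0 1 / (y : Matrix (Fin 2) (Fin 2) E) 0 0)
      (by rw [norm_div, hp, div_one]; exact hy _ _)
    have hw := N.mul_mem (N.mul_mem g4 g5) g4
    have hdg := N.mul_mem (N.mul_mem (N.mul_mem g2 g3) g2) (N.inv_mem hw)
    have h1 := N.mul_mem (N.mul_mem g1 hdg) g6
    convert h1 using 1
    have e22 : (y : Matrix (Fin 2) (Fin 2) E) 1 1 =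
        (1 + (y : Matrix (Fin 2) (Fin 2) E) 0 1 * (y : Matrix (Fin 2) (Fin 2) E) 1 0) /
          (y : Matrix (Fin 2) (Fin 2) E) 0 0 := by
      rw [eq_div_iff hpne]
      linear_combination hdy
    apply ext4
    · simp only [mul4, inv_00, inv_01, inv_10, inv_11, mk4_00, mk4_01, mk4_10, mk4_11]
      field_simp
      try ring
    · simp only [mul4, inv_00, inv_01, inv_10, inv_11, mk4_00, mk4_01, mk4_10, mk4_11]
      field_simp
      try ring
    · simp only [mul4, inv_00, inv_01, inv_10, inv_11, mk4_00, mk4_01, mk4_10, mk4_11]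
      field_simp
      try ring
    · simp only [mul4, inv_00, inv_01, inv_10, inv_11, mk4_00, mk4_01, mk4_10, mk4_11]
      rw [e22]
      field_simp
      try ring
  intro y hy
  by_cases hp : ‖(y : Matrix (Fin 2) (Fin 2) E) 0 0‖ = 1
  · exact hmain y hy hp
  · have hp' : ‖(y : Matrix (Fin 2) (Fin 2) E) 0 0‖ < 1 := lt_of_le_of_ne (hy _ _) hp
    have hr : ‖(y : Matrix (Fin 2) (Fin 2) E) 1 0‖ = 1 := by
      apply le_antisymm (hy _ _)
      by_contra hlt
      push Not at hlt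
      have hdy := det4 y
      have h1 : ‖(y : Matrix (Fin 2) (Fin 2) E) 0 0 * (y : Matrix (Fin 2) (Fin 2) E) 1 1 +
          -((y : Matrix (Fin 2) (Fin 2) E) 0 1 * (y : Matrix (Fin 2) (Fin 2) E) 1 0)‖ < 1 := by
        apply naddlt
        · rw [norm_mul]
          calc _ ≤ ‖(y : Matrix (Fin 2) (Fin 2) E) 0 0‖ * 1 :=
                mul_le_mul_of_nonneg_left (hy _ _) (norm_nonneg _)
            _ < 1 := by rw [mul_one]; exact hp'
        · rw [norm_neg, norm_mul]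
          calc _ ≤ 1 * ‖(y : Matrix (Fin 2) (Fin 2) E) 1 0‖ :=
                mul_le_mul_of_nonneg_right (hy _ _) (norm_nonneg _)
            _ < 1 := by rw [one_mul]; exact hlt
      rw [← sub_eq_add_neg, hdy, norm_one] at h1
      exact lt_irrefl _ h1
    have he : Itg (mk4 (1 : E) 1 0 1 (by ring) : Matrix (Fin 2) (Fin 2) E) :=
      itg_mk4 _ none' none' nzero none'
    have h1 := hmain _ (itg_mul he hy) (by
      rw [mul4, mk4_00, mk4_01, one_mul, one_mul, add_comm]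
      exact nadd_one hr hp')
    have h2' := N.mul_mem (N.inv_mem (he12 1 none')) h1
    rwa [inv_mul_cancel_left] at h2'

end Pool.Agent.Helper37.Ad
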