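import Pool.Agent.Helper37.Ad.Base

/-!
# Project ADL, module Comm: commutators which are not scalar

Only Mathlib and the definitions of Base.lean are needed.

Commutators `g y g⁻¹ y⁻¹` with elementary matrices `y`.
-/

set_option autoImplicit false

namespace Pool.Agent.Helper37.Ad

open Matrix

/-- the elementary matrix with upper right entry `t` -/
private def u12 {E : Type*} [Field E] (t : E) : SpecialLinearGroup (Fin 2) E :=
  ⟨!![1, t; 0, 1], by simp [Matrix.det_fin_two_of]⟩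

/-- the elementary matrix with lower left entry `t` -/
private def u21 {E : Type*} [Field E] (t : E) : SpecialLinearGroup (Fin 2) E :=
  ⟨!![1, 0; t, 1], by simp [Matrix.det_fin_two_of]⟩

private theorem u12_coe {E : Type*} [Field E] (t : E) :
    ((u12 t : SpecialLinearGroup (Fin 2) E) : Matrix (Fin 2) (Fin 2) E) = !![1, t; 0, 1] := rfl

private theorem u21_coe {E : Type*} [Field E] (t : E) :
    ((u21 t : SpecialLinearGroup (Fin 2) E) : Matrix (Fin 2) (Fin 2) E) = !![1, 0; t, 1] := rfl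

private theorem sl_inv {E : Type*} [Field E] (y : SpecialLinearGroup (Fin 2) E) :
    ((y⁻¹ : SpecialLinearGroup (Fin 2) E) : Matrix (Fin 2) (Fin 2) E) =
      !![(y : Matrix (Fin 2) (Fin 2) E) 1 1, -(y : Matrix (Fin 2) (Fin 2) E) 0 1;
        -(y : Matrix (Fin 2) (Fin 2) E) 1 0, (y : Matrix (Fin 2) (Fin 2) E) 0 0] :=
  (Matrix.SpecialLinearGroup.coe_inv y).trans (Matrix.adjugate_fin_two _)

private theorem gl_inv {E : Type*} [Field E] (g : GL (Fin 2) E) :
    ((g⁻¹ : GL (Fin 2) E) : Matrix (Fin 2) (Fin 2) E) =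
      (g : Matrix (Fin 2) (Fin 2) E).det⁻¹ •
      !![(g : Matrix (Fin 2) (Fin 2) E) 1 1, -(g : Matrix (Fin 2) (Fin 2) E) 0 1;
        -(g : Matrix (Fin 2) (Fin 2) E) 1 0, (g : Matrix (Fin 2) (Fin 2) E) 0 0] := by
  rw [Matrix.coe_units_inv, Matrix.inv_def, Matrix.adjugate_fin_two, Ring.inverse_eq_inv']

/-- if the commutator with an element of trace two is scalar then it is trivial -/
private theorem comm_of_scalar {E : Type*} [Field E] [CharZero E] (g : GL (Fin 2) E)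
    (y : SpecialLinearGroup (Fin 2) E) (hy : (y : Matrix (Fin 2) (Fin 2) E).trace = 2)
    (h : ∃ c : E, (g : Matrix (Fin 2) (Fin 2) E) * (y : Matrix (Fin 2) (Fin 2) E) *
        ((g⁻¹ : GL (Fin 2) E) : Matrix (Fin 2) (Fin 2) E) *
        ((y⁻¹ : SpecialLinearGroup (Fin 2) E) : Matrix (Fin 2) (Fin 2) E) =
          c • (1 : Matrix (Fin 2) (Fin 2) E)) :
    (g : Matrix (Fin 2) (Fin 2) E) * (y : Matrix (Fin 2) (Fin 2) E) =
      (y : Matrix (Fin 2) (Fin 2) E) * (g : Matrix (Fin 2) (Fin 2) E) := by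
  obtain ⟨c, hc⟩ := h
  have hyy : ((y⁻¹ : SpecialLinearGroup (Fin 2) E) : Matrix (Fin 2) (Fin 2) E) *
      (y : Matrix (Fin 2) (Fin 2) E) = 1 := by
    have h0 := Matrix.SpecialLinearGroup.coe_mul y⁻¹ y
    rw [inv_mul_cancel, Matrix.SpecialLinearGroup.coe_one] at h0
    exact h0.symm
  have hgg : ((g⁻¹ : GL (Fin 2) E) : Matrix (Fin 2) (Fin 2) E) *
      (g : Matrix (Fin 2) (Fin 2) E) = 1 := by
    rw [← Units.val_mul, inv_mul_cancel, Units.val_one]
  have h1 : (g : Matrix (Fin 2) (Fin 2) E) * (y : Matrix (Fin 2) (Fin 2) E) *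
        ((g⁻¹ : GL (Fin 2) E) : Matrix (Fin 2) (Fin 2) E) =
          c • (y : Matrix (Fin 2) (Fin 2) E) := by
    have := congrArg (· * (y : Matrix (Fin 2) (Fin 2) E)) hc
    simp only [Matrix.mul_assoc, hyy, Matrix.mul_one, Matrix.smul_mul, Matrix.one_mul] at this
    rw [Matrix.mul_assoc]
    exact this
  have h2 := congrArg Matrix.trace h1
  rw [Matrix.trace_mul_comm, ← Matrix.mul_assoc, hgg, Matrix.one_mul, Matrix.trace_smul, hy,
    smul_eq_mul] at h2
  have h3 : c = 1 := by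
    have h20 : (2 : E) ≠ 0 := two_ne_zero
    have : (c - 1) * 2 = 0 := by linear_combination -h2
    rcases mul_eq_zero.1 this with h | h
    · exact sub_eq_zero.1 h
    · exact absurd h h20
  rw [h3, one_smul] at h1
  have := congrArg (· * (g : Matrix (Fin 2) (Fin 2) E)) h1
  simp only [Matrix.mul_assoc, hgg, Matrix.mul_one] at this
  exact this

private theorem norm_add_one' {E : Type*} [NormedField E] [IsUltrametricDist E] {u w : E}
    (hu : ‖u‖ = 1) (hw : ‖w‖ < 1) : ‖u + w‖ = 1 := by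
  rw [IsUltrametricDist.norm_add_eq_max_of_norm_ne_norm (by rw [hu]; exact hw.ne'), hu,
    max_eq_left hw.le]

private theorem norm_sub_le' {E : Type*} [NormedField E] [IsUltrametricDist E] {u w : E} {r : ℝ}
    (hu : ‖u‖ ≤ r) (hw : ‖w‖ ≤ r) : ‖u - w‖ ≤ r := by
  rw [sub_eq_add_neg]
  refine (IsUltrametricDist.norm_add_le_max _ _).trans (max_le hu ?_)
  rw [norm_neg]; exact hw

private theorem det_le {E : Type*} [NormedField E] [IsUltrametricDist E]
    {A : Matrix (Fin 2) (Fin 2) E} (hA : Itg A) : ‖A.det‖ ≤ 1 := by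
  rw [Matrix.det_fin_two]
  refine norm_sub_le' ?_ ?_
  · rw [norm_mul]; exact mul_le_one₀ (hA 0 0) (norm_nonneg _) (hA 1 1)
  · rw [norm_mul]; exact mul_le_one₀ (hA 0 1) (norm_nonneg _) (hA 1 0)

private theorem det_one {E : Type*} [NormedField E] [IsUltrametricDist E]
    (g : GL (Fin 2) E) (hg : Itg (g : Matrix (Fin 2) (Fin 2) E))
    (hg' : Itg ((g⁻¹ : GL (Fin 2) E) : Matrix (Fin 2) (Fin 2) E)) :
    ‖(g : Matrix (Fin 2) (Fin 2) E).det‖ = 1 := by
  have h1 := det_le hg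
  have h2 := det_le hg'
  have hgg : (g : Matrix (Fin 2) (Fin 2) E) *
      ((g⁻¹ : GL (Fin 2) E) : Matrix (Fin 2) (Fin 2) E) = 1 := by
    rw [← Units.val_mul, mul_inv_cancel, Units.val_one]
  have h3 := congrArg (fun M => ‖Matrix.det M‖) hgg
  simp only [Matrix.det_mul, Matrix.det_one, norm_mul, norm_one] at h3
  refine le_antisymm h1 ?_
  rw [← h3]
  exact mul_le_of_le_one_right (norm_nonneg _) h2

theorem comm_small {E : Type*} [NontriviallyNormedField E] [IsUltrametricDist E] [CharZero E]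
    (g : GL (Fin 2) E) (hg : Nsc (g : Matrix (Fin 2) (Fin 2) E)) {ε : ℝ} (hε : 0 < ε) :
    ∃ y : SpecialLinearGroup (Fin 2) E, Itg (y : Matrix (Fin 2) (Fin 2) E) ∧
      Near ε (y : Matrix (Fin 2) (Fin 2) E) ∧
      Nsc ((g : Matrix (Fin 2) (Fin 2) E) * (y : Matrix (Fin 2) (Fin 2) E) *
        ((g⁻¹ : GL (Fin 2) E) : Matrix (Fin 2) (Fin 2) E) *
        ((y⁻¹ : SpecialLinearGroup (Fin 2) E) : Matrix (Fin 2) (Fin 2) E)) := by
  by_contra hcon
  push Not at hcon
  have hmin : 0 < min 1 ε := lt_min one_pos hε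
  obtain ⟨t, ht0, ht⟩ := NormedField.exists_norm_lt E hmin
  have ht1 : ‖t‖ < 1 := ht.trans_le (min_le_left _ _)
  have ht2 : ‖t‖ < ε := ht.trans_le (min_le_right _ _)
  have htne : t ≠ 0 := norm_pos_iff.1 ht0
  have i1 : Itg ((u12 t : SpecialLinearGroup (Fin 2) E) : Matrix (Fin 2) (Fin 2) E) := by
    rw [u12_coe]
    intro i j
    fin_cases i <;> fin_cases j <;> simp [ht1.le]
  have i2 : Itg ((u21 t : SpecialLinearGroup (Fin 2) E) : Matrix (Fin 2) (Fin 2) E) := by
    rw [u21_coe]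
    intro i j
    fin_cases i <;> fin_cases j <;> simp [ht1.le]
  have n1 : Near ε ((u12 t : SpecialLinearGroup (Fin 2) E) : Matrix (Fin 2) (Fin 2) E) := by
    rw [u12_coe]
    intro i j
    fin_cases i <;> fin_cases j <;> simp [ht2, hε]
  have n2 : Near ε ((u21 t : SpecialLinearGroup (Fin 2) E) : Matrix (Fin 2) (Fin 2) E) := by
    rw [u21_coe]
    intro i j
    fin_cases i <;> fin_cases j <;> simp [ht2, hε]
  have c1 := comm_of_scalar g (u12 t)
    (by rw [u12_coe, Matrix.trace_fin_two_of]; norm_num) (not_not.1 (hcon _ i1 n1))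
  have c2 := comm_of_scalar g (u21 t)
    (by rw [u21_coe, Matrix.trace_fin_two_of]; norm_num) (not_not.1 (hcon _ i2 n2))
  rw [u12_coe] at c1
  rw [u21_coe] at c2
  have e1 := congrFun (congrFun c1 0) 0
  have e2 := congrFun (congrFun c1 0) 1
  have e3 := congrFun (congrFun c2 0) 0
  simp [Matrix.mul_apply, Fin.sum_univ_two] at e1 e2 e3
  have g10 : (g : Matrix (Fin 2) (Fin 2) E) 1 0 = 0 := by
    rcases e1 with h | h
    · exact absurd h htne
    · exact h
  have g01 : (g : Matrix (Fin 2) (Fin 2) E) 0 1 = 0 := by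
    rcases e3 with h | h
    · exact h
    · exact absurd h htne
  have gd : (g : Matrix (Fin 2) (Fin 2) E) 0 0 = (g : Matrix (Fin 2) (Fin 2) E) 1 1 := by
    have : t * ((g : Matrix (Fin 2) (Fin 2) E) 0 0 - (g : Matrix (Fin 2) (Fin 2) E) 1 1) = 0 := by
      linear_combination e2
    rcases mul_eq_zero.1 this with h | h
    · exact absurd h htne
    · exact sub_eq_zero.1 h
  refine hg ⟨(g : Matrix (Fin 2) (Fin 2) E) 0 0, ?_⟩
  ext i j
  fin_cases i <;> fin_cases j <;> simp [g10, g01, gd]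

theorem comm_big {E : Type*} [NontriviallyNormedField E] [IsUltrametricDist E]
    (g : GL (Fin 2) E) (hg : Itg (g : Matrix (Fin 2) (Fin 2) E))
    (hg' : Itg ((g⁻¹ : GL (Fin 2) E) : Matrix (Fin 2) (Fin 2) E))
    (hgs : NSm (g : Matrix (Fin 2) (Fin 2) E)) :
    ∃ y : SpecialLinearGroup (Fin 2) E, Itg (y : Matrix (Fin 2) (Fin 2) E) ∧
      NSm ((g : Matrix (Fin 2) (Fin 2) E) * (y : Matrix (Fin 2) (Fin 2) E) *
        ((g⁻¹ : GL (Fin 2) E) : Matrix (Fin 2) (Fin 2) E) *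
        ((y⁻¹ : SpecialLinearGroup (Fin 2) E) : Matrix (Fin 2) (Fin 2) E)) := by
  have hd := det_one g hg hg'
  have hdne : (g : Matrix (Fin 2) (Fin 2) E).det ≠ 0 := by
    intro h
    rw [h, norm_zero] at hd
    exact zero_ne_one hd
  have hdet := Matrix.det_fin_two (g : Matrix (Fin 2) (Fin 2) E)
  have hinv := gl_inv g
  set a := (g : Matrix (Fin 2) (Fin 2) E) 0 0 with ha
  set b := (g : Matrix (Fin 2) (Fin 2) E) 0 1 with hb
  set c := (g : Matrix (Fin 2) (Fin 2) E) 1 0 with hc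
  set d := (g : Matrix (Fin 2) (Fin 2) E) 1 1 with hd'
  set δ := (g : Matrix (Fin 2) (Fin 2) E).det with hδ
  have hgm : (g : Matrix (Fin 2) (Fin 2) E) = !![a, b; c, d] := by
    ext i j
    fin_cases i <;> fin_cases j <;> rfl
  have i1 : Itg ((u12 1 : SpecialLinearGroup (Fin 2) E) : Matrix (Fin 2) (Fin 2) E) := by
    rw [u12_coe]
    intro i j
    fin_cases i <;> fin_cases j <;> simp
  have i2 : Itg ((u21 1 : SpecialLinearGroup (Fin 2) E) : Matrix (Fin 2) (Fin 2) E) := by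
    rw [u21_coe]
    intro i j
    fin_cases i <;> fin_cases j <;> simp
  have hni : ‖δ⁻¹‖ = 1 := by rw [norm_inv, hd, inv_one]
  by_cases hc1 : ‖c‖ = 1
  · refine ⟨u12 1, i1, Or.inr (Or.inl ?_)⟩
    have : ((g : Matrix (Fin 2) (Fin 2) E) *
        ((u12 1 : SpecialLinearGroup (Fin 2) E) : Matrix (Fin 2) (Fin 2) E) *
        ((g⁻¹ : GL (Fin 2) E) : Matrix (Fin 2) (Fin 2) E) *
        (((u12 1)⁻¹ : SpecialLinearGroup (Fin 2) E) : Matrix (Fin 2) (Fin 2) E)) 1 0 =
          -(δ⁻¹ * (c * c)) := by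
      rw [hinv, sl_inv, u12_coe, hgm]
      simp [Matrix.mul_apply, Fin.sum_univ_two]
      ring
    rw [this, norm_neg, norm_mul, norm_mul, hni, hc1]
    norm_num
  by_cases hb1 : ‖b‖ = 1
  · refine ⟨u21 1, i2, Or.inl ?_⟩
    have : ((g : Matrix (Fin 2) (Fin 2) E) *
        ((u21 1 : SpecialLinearGroup (Fin 2) E) : Matrix (Fin 2) (Fin 2) E) *
        ((g⁻¹ : GL (Fin 2) E) : Matrix (Fin 2) (Fin 2) E) *
        (((u21 1)⁻¹ : SpecialLinearGroup (Fin 2) E) : Matrix (Fin 2) (Fin 2) E)) 0 1 =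
          -(δ⁻¹ * (b * b)) := by
      rw [hinv, sl_inv, u21_coe, hgm]
      simp [Matrix.mul_apply, Fin.sum_univ_two]
      ring
    rw [this, norm_neg, norm_mul, norm_mul, hni, hb1]
    norm_num
  have hc2 : ‖c‖ < 1 := lt_of_le_of_ne (hg 1 0) hc1
  have hb2 : ‖b‖ < 1 := lt_of_le_of_ne (hg 0 1) hb1
  have had : ‖a - d‖ = 1 := by
    rcases hgs with h | h | h
    · exact absurd h hb1
    · exact absurd h hc1
    · exact h
  have hbc : ‖b * c‖ < 1 := by
    rw [norm_mul]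
    exact mul_lt_one_of_nonneg_of_lt_one_left (norm_nonneg _) hb2 hc2.le
  have had' : ‖a * d‖ = 1 := by
    have : a * d = δ + b * c := by rw [hdet]; ring
    rw [this]
    exact norm_add_one' hd hbc
  have ha1 : ‖a‖ = 1 := by
    refine le_antisymm (hg 0 0) ?_
    rw [← had', norm_mul]
    exact mul_le_of_le_one_right (norm_nonneg _) (hg 1 1)
  refine ⟨u12 1, i1, Or.inl ?_⟩
  have : ((g : Matrix (Fin 2) (Fin 2) E) *
      ((u12 1 : SpecialLinearGroup (Fin 2) E) : Matrix (Fin 2) (Fin 2) E) *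
      ((g⁻¹ : GL (Fin 2) E) : Matrix (Fin 2) (Fin 2) E) *
      (((u12 1)⁻¹ : SpecialLinearGroup (Fin 2) E) : Matrix (Fin 2) (Fin 2) E)) 0 1 =
        δ⁻¹ * (a * (a - d) + c * (a + b)) := by
    rw [hinv, sl_inv, u12_coe, hgm]
    simp [Matrix.mul_apply, Fin.sum_univ_two]
    ring
  rw [this, norm_mul, hni, one_mul]
  refine norm_add_one' ?_ ?_
  · rw [norm_mul, ha1, had, one_mul]
  · rw [norm_mul]
    refine mul_lt_one_of_nonneg_of_lt_one_left (norm_nonneg _) hc2 ?_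
    exact (IsUltrametricDist.norm_add_le_max _ _).trans (max_le (hg 0 0) (hg 0 1))

theorem comm_elem (E : Type*) [NontriviallyNormedField E] [IsUltrametricDist E] :
    ∃ x y : SpecialLinearGroup (Fin 2) E, Itg (x : Matrix (Fin 2) (Fin 2) E) ∧
      Itg (y : Matrix (Fin 2) (Fin 2) E) ∧
      Itg ((x * y * x⁻¹ * y⁻¹ : SpecialLinearGroup (Fin 2) E) : Matrix (Fin 2) (Fin 2) E) ∧
      NSm ((x * y * x⁻¹ * y⁻¹ : SpecialLinearGroup (Fin 2) E) : Matrix (Fin 2) (Fin 2) E) := by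
  have hcm : ((u12 1 * u21 1 * (u12 1)⁻¹ * (u21 1)⁻¹ : SpecialLinearGroup (Fin 2) E) :
      Matrix (Fin 2) (Fin 2) E) = !![3, -1; 1, 0] := by
    have h1 := Matrix.SpecialLinearGroup.coe_mul (u12 (1 : E) * u21 (1 : E) * (u12 (1 : E))⁻¹) (u21 (1 : E))⁻¹
    have h2 := Matrix.SpecialLinearGroup.coe_mul (u12 (1 : E) * u21 (1 : E)) (u12 (1 : E))⁻¹
    have h3 := Matrix.SpecialLinearGroup.coe_mul (u12 (1 : E)) (u21 (1 : E))
    have h4 : (u12 (1 : E)).1 * (u21 (1 : E)).1 * ((u12 (1 : E))⁻¹).1 * ((u21 (1 : E))⁻¹).1 =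
        !![3, -1; 1, 0] := by
      have h5 : ((u12 (1 : E))⁻¹).1 = !![1, -1; -0, 1] := sl_inv (u12 (1 : E))
      have h6 : ((u21 (1 : E))⁻¹).1 = !![1, -0; -1, 1] := sl_inv (u21 (1 : E))
      have h7 : (u12 (1 : E)).1 = !![1, 1; 0, 1] := rfl
      have h8 : (u21 (1 : E)).1 = !![1, 0; 1, 1] := rfl
      rw [h5, h6, h7, h8]
      ext i j
      fin_cases i <;> fin_cases j <;> simp [Matrix.mul_apply, Fin.sum_univ_two] <;> norm_num
    rw [h3] at h2
    rw [h2] at h1
    exact h1.trans h4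
  refine ⟨u12 1, u21 1, ?_, ?_, ?_, ?_⟩
  · rw [u12_coe]
    intro i j
    fin_cases i <;> fin_cases j <;> simp
  · rw [u21_coe]
    intro i j
    fin_cases i <;> fin_cases j <;> simp
  · rw [hcm]
    have h3 : ‖(3 : E)‖ ≤ 1 := by
      have := IsUltrametricDist.norm_natCast_le_one E 3
      simpa using this
    intro i j
    fin_cases i <;> fin_cases j <;> simp [h3]
  · rw [hcm]
    left
    simp

/-- entries of norm at most one, near `1` for `ε = 2` -/
theorem near_two {E : Type*} [NontriviallyNormedField E] [IsUltrametricDist E] {n : ℕ}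
    {A : Matrix (Fin n) (Fin n) E} (hA : Itg A) : Near 2 A := by
  intro i j
  refine lt_of_le_of_lt (norm_sub_le' (hA i j) ?_) one_lt_two
  by_cases h : i = j
  · subst h
    rw [Matrix.one_apply_eq, norm_one]
  · rw [Matrix.one_apply_ne h, norm_zero]
    exact zero_le_one

theorem itg_mul {E : Type*} [NontriviallyNormedField E] [IsUltrametricDist E] {n : ℕ}
    {A B : Matrix (Fin n) (Fin n) E} (hA : Itg A) (hB : Itg B) : Itg (A * B) := by
  intro i j
  rw [Matrix.mul_apply]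
  refine IsUltrametricDist.norm_sum_le_of_forall_le_of_nonneg zero_le_one ?_
  intro k _
  rw [norm_mul]
  exact mul_le_one₀ (hA i k) (norm_nonneg _) (hB k j)

theorem itg_inv {E : Type*} [NontriviallyNormedField E] [IsUltrametricDist E]
    {y : SpecialLinearGroup (Fin 2) E} (hy : Itg (y : Matrix (Fin 2) (Fin 2) E)) :
    Itg ((y⁻¹ : SpecialLinearGroup (Fin 2) E) : Matrix (Fin 2) (Fin 2) E) := by
  rw [sl_inv]
  intro i j
  fin_cases i <;> fin_cases j <;> simp [hy 0 0, hy 0 1, hy 1 0, hy 1 1]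

theorem near_inv {E : Type*} [NontriviallyNormedField E] [IsUltrametricDist E] {ε : ℝ}
    {y : SpecialLinearGroup (Fin 2) E} (hy : Near ε (y : Matrix (Fin 2) (Fin 2) E)) :
    Near ε ((y⁻¹ : SpecialLinearGroup (Fin 2) E) : Matrix (Fin 2) (Fin 2) E) := by
  have h00 := hy 0 0
  have h01 := hy 0 1
  have h10 := hy 1 0
  have h11 := hy 1 1
  simp only [Matrix.one_apply_eq, Matrix.one_apply_ne (zero_ne_one' (Fin 2)),
    Matrix.one_apply_ne (one_ne_zero' (Fin 2)), sub_zero] at h00 h01 h10 h11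
  rw [sl_inv]
  intro i j
  fin_cases i <;> fin_cases j <;> simp [h00, h01, h10, h11]

end Pool.Agent.Helper37.Ad
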