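import Pool.Agent.Helper37.Ad.Tame
import Pool.Agent.Helper37.Ad.Comm

/-!
# Project ADL, module Prim: `SL_2(O)` is not seen by small linear groups in other characteristics

If `SL_2(O)` is contained in the image of `V` and `2 n! + 1 < p`, then no homomorphism to `GL_n(K)`
with finite image, `K` of characteristic different from `p`, kills only elements which are scalar
modulo the maximal ideal: apply `tame` to the normal subgroup of all `g` with `V g` scalar modulo the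
maximal ideal, `u = !![1, 1; 0, 1]`, `t = !![a, 0; 0, a⁻¹]`, `a` a primitive root modulo `p`.
-/

set_option autoImplicit false

namespace Pool.Agent.Helper37.Ad

private theorem ultra_add {E : Type*} [NormedField E] [IsUltrametricDist E] {x y : E}
    {r : ℝ} (hx : ‖x‖ < r) (hy : ‖y‖ < r) : ‖x + y‖ < r :=
  lt_of_le_of_lt (IsUltrametricDist.norm_add_le_max x y) (max_lt hx hy)

private theorem ultra_sub {E : Type*} [NormedField E] [IsUltrametricDist E] {x y : E}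
    {r : ℝ} (hx : ‖x‖ < r) (hy : ‖y‖ < r) : ‖x - y‖ < r := by
  rw [sub_eq_add_neg]
  exact ultra_add hx (by rwa [norm_neg])

private theorem ultra_sub_le {E : Type*} [NormedField E] [IsUltrametricDist E] {x y : E}
    {r : ℝ} (hx : ‖x‖ ≤ r) (hy : ‖y‖ ≤ r) : ‖x - y‖ ≤ r := by
  rw [sub_eq_add_neg]
  exact le_trans (IsUltrametricDist.norm_add_le_max x (-y)) (max_le hx (by rwa [norm_neg]))

private theorem mul_lt1 {E : Type*} [NormedField E] {x y : E} (hx : ‖x‖ ≤ 1) (hy : ‖y‖ < 1) :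
    ‖x * y‖ < 1 := by
  rw [norm_mul]
  exact lt_of_le_of_lt (mul_le_of_le_one_left (norm_nonneg _) hx) hy

private theorem mul_lt1' {E : Type*} [NormedField E] {x y : E} (hx : ‖x‖ < 1) (hy : ‖y‖ ≤ 1) :
    ‖x * y‖ < 1 := by
  rw [mul_comm]; exact mul_lt1 hy hx

private theorem mul_le1 {E : Type*} [NormedField E] {x y : E} (hx : ‖x‖ ≤ 1) (hy : ‖y‖ ≤ 1) :
    ‖x * y‖ ≤ 1 := by
  rw [norm_mul]
  exact mul_le_one₀ hx (norm_nonneg _) hy

/-- scalar modulo the maximal ideal -/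
private def Scm {E : Type*} [NormedField E] (A : Matrix (Fin 2) (Fin 2) E) : Prop :=
  ‖A 0 1‖ < 1 ∧ ‖A 1 0‖ < 1 ∧ ‖A 0 0 - A 1 1‖ < 1

private theorem scm_mul {E : Type*} [NormedField E] [IsUltrametricDist E]
    {A B : Matrix (Fin 2) (Fin 2) E} (hA : Itg A) (hB : Itg B) (ha : Scm A) (hb : Scm B) :
    Scm (A * B) := by
  obtain ⟨a1, a2, a3⟩ := ha
  obtain ⟨b1, b2, b3⟩ := hb
  refine ⟨?_, ?_, ?_⟩
  · rw [Matrix.mul_apply, Fin.sum_univ_two]
    exact ultra_add (mul_lt1 (hA _ _) b1) (mul_lt1' a1 (hB _ _))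
  · rw [Matrix.mul_apply, Fin.sum_univ_two]
    exact ultra_add (mul_lt1' a2 (hB _ _)) (mul_lt1 (hA _ _) b2)
  · rw [Matrix.mul_apply, Fin.sum_univ_two, Matrix.mul_apply, Fin.sum_univ_two]
    have : A 0 0 * B 0 0 + A 0 1 * B 1 0 - (A 1 0 * B 0 1 + A 1 1 * B 1 1) =
        ((A 0 0 - A 1 1) * B 0 0 + A 1 1 * (B 0 0 - B 1 1)) +
          (A 0 1 * B 1 0 - A 1 0 * B 0 1) := by ring
    rw [this]
    exact ultra_add (ultra_add (mul_lt1' a3 (hB _ _)) (mul_lt1 (hA _ _) b3))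
      (ultra_sub (mul_lt1' a1 (hB _ _)) (mul_lt1' a2 (hB _ _)))

private theorem scm_inv {E : Type*} [NormedField E] [IsUltrametricDist E]
    {A B : Matrix (Fin 2) (Fin 2) E} (hB : Itg B) (ha : Scm A) (hAB : A * B = 1) :
    Scm B := by
  obtain ⟨a1, a2, a3⟩ := ha
  have e00 : A 0 0 * B 0 0 + A 0 1 * B 1 0 = 1 := by
    have := congrFun (congrFun hAB 0) 0
    rwa [Matrix.mul_apply, Fin.sum_univ_two, Matrix.one_apply_eq] at this
  have e01 : A 0 0 * B 0 1 + A 0 1 * B 1 1 = 0 := by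
    have := congrFun (congrFun hAB 0) 1
    rwa [Matrix.mul_apply, Fin.sum_univ_two, Matrix.one_apply_ne (by decide)] at this
  have e10 : A 1 0 * B 0 0 + A 1 1 * B 1 0 = 0 := by
    have := congrFun (congrFun hAB 1) 0
    rwa [Matrix.mul_apply, Fin.sum_univ_two, Matrix.one_apply_ne (by decide)] at this
  have e11 : A 1 0 * B 0 1 + A 1 1 * B 1 1 = 1 := by
    have := congrFun (congrFun hAB 1) 1
    rwa [Matrix.mul_apply, Fin.sum_univ_two, Matrix.one_apply_eq] at this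
  have hd : ‖B 0 0 * B 1 1 - B 0 1 * B 1 0‖ ≤ 1 :=
    ultra_sub_le (mul_le1 (hB _ _) (hB _ _)) (mul_le1 (hB _ _) (hB _ _))
  have f01 : B 0 1 = -((B 0 0 * B 1 1 - B 0 1 * B 1 0) * A 0 1) := by
    linear_combination (B 0 1) * e00 * (-1) + (B 0 0) * e01
  have f10 : B 1 0 = -((B 0 0 * B 1 1 - B 0 1 * B 1 0) * A 1 0) := by
    linear_combination (B 1 1) * e10 - (B 1 0) * e11
  have f00 : B 0 0 = (B 0 0 * B 1 1 - B 0 1 * B 1 0) * A 1 1 := by
    linear_combination (-(B 0 0)) * e11 + (B 0 1) * e10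
  have f11 : B 1 1 = (B 0 0 * B 1 1 - B 0 1 * B 1 0) * A 0 0 := by
    linear_combination (-(B 1 1)) * e00 + (B 1 0) * e01
  refine ⟨?_, ?_, ?_⟩
  · rw [f01, norm_neg]; exact mul_lt1 hd a1
  · rw [f10, norm_neg]; exact mul_lt1 hd a2
  · have : B 0 0 - B 1 1 = -((B 0 0 * B 1 1 - B 0 1 * B 1 0) * (A 0 0 - A 1 1)) := by
      linear_combination f00 - f11
    rw [this, norm_neg]; exact mul_lt1 hd a3

private theorem scm_conj {E : Type*} [NormedField E] [IsUltrametricDist E]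
    {A X Y : Matrix (Fin 2) (Fin 2) E} (hX : Itg X) (hY : Itg Y) (ha : Scm A) (hXY : X * Y = 1) :
    Scm (X * A * Y) := by
  obtain ⟨a1, a2, a3⟩ := ha
  have e00 : X 0 0 * Y 0 0 + X 0 1 * Y 1 0 = 1 := by
    have := congrFun (congrFun hXY 0) 0
    rwa [Matrix.mul_apply, Fin.sum_univ_two, Matrix.one_apply_eq] at this
  have e01 : X 0 0 * Y 0 1 + X 0 1 * Y 1 1 = 0 := by
    have := congrFun (congrFun hXY 0) 1
    rwa [Matrix.mul_apply, Fin.sum_univ_two, Matrix.one_apply_ne (by decide)] at this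
  have e10 : X 1 0 * Y 0 0 + X 1 1 * Y 1 0 = 0 := by
    have := congrFun (congrFun hXY 1) 0
    rwa [Matrix.mul_apply, Fin.sum_univ_two, Matrix.one_apply_ne (by decide)] at this
  have e11 : X 1 0 * Y 0 1 + X 1 1 * Y 1 1 = 1 := by
    have := congrFun (congrFun hXY 1) 1
    rwa [Matrix.mul_apply, Fin.sum_univ_two, Matrix.one_apply_eq] at this
  have key : ∀ i j : Fin 2, (X * A * Y) i j =
      (X i 0 * Y 0 j) * (A 0 0) + (X i 0 * Y 1 j) * A 0 1 + (X i 1 * Y 0 j) * A 1 0 +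
        (X i 1 * Y 1 j) * A 1 1 := by
    intro i j
    simp only [Matrix.mul_apply, Fin.sum_univ_two]
    ring
  have hm : ∀ i j k l : Fin 2, ‖X i j * Y k l‖ ≤ 1 := fun i j k l => mul_le1 (hX _ _) (hY _ _)
  refine ⟨?_, ?_, ?_⟩
  · rw [key]
    have : X 0 0 * Y 0 1 * A 0 0 + X 0 0 * Y 1 1 * A 0 1 + X 0 1 * Y 0 1 * A 1 0 +
        X 0 1 * Y 1 1 * A 1 1 = X 0 0 * Y 0 1 * (A 0 0 - A 1 1) + X 0 0 * Y 1 1 * A 0 1 +
        X 0 1 * Y 0 1 * A 1 0 := by
      linear_combination (A 1 1) * e01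
    rw [this]
    exact ultra_add (ultra_add (mul_lt1 (hm _ _ _ _) a3) (mul_lt1 (hm _ _ _ _) a1))
      (mul_lt1 (hm _ _ _ _) a2)
  · rw [key]
    have : X 1 0 * Y 0 0 * A 0 0 + X 1 0 * Y 1 0 * A 0 1 + X 1 1 * Y 0 0 * A 1 0 +
        X 1 1 * Y 1 0 * A 1 1 = X 1 0 * Y 0 0 * (A 0 0 - A 1 1) + X 1 0 * Y 1 0 * A 0 1 +
        X 1 1 * Y 0 0 * A 1 0 := by
      linear_combination (A 1 1) * e10
    rw [this]
    exact ultra_add (ultra_add (mul_lt1 (hm _ _ _ _) a3) (mul_lt1 (hm _ _ _ _) a1))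
      (mul_lt1 (hm _ _ _ _) a2)
  · rw [key, key]
    have : X 0 0 * Y 0 0 * A 0 0 + X 0 0 * Y 1 0 * A 0 1 + X 0 1 * Y 0 0 * A 1 0 +
        X 0 1 * Y 1 0 * A 1 1 - (X 1 0 * Y 0 1 * A 0 0 + X 1 0 * Y 1 1 * A 0 1 +
        X 1 1 * Y 0 1 * A 1 0 + X 1 1 * Y 1 1 * A 1 1) =
        (X 0 0 * Y 0 0 * (A 0 0 - A 1 1) + X 0 0 * Y 1 0 * A 0 1 + X 0 1 * Y 0 0 * A 1 0) -
        (X 1 0 * Y 0 1 * (A 0 0 - A 1 1) + X 1 0 * Y 1 1 * A 0 1 + X 1 1 * Y 0 1 * A 1 0) := by
      linear_combination (A 1 1) * (e00 - e11)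
    rw [this]
    exact ultra_sub (ultra_add (ultra_add (mul_lt1 (hm _ _ _ _) a3) (mul_lt1 (hm _ _ _ _) a1))
      (mul_lt1 (hm _ _ _ _) a2)) (ultra_add (ultra_add (mul_lt1 (hm _ _ _ _) a3)
        (mul_lt1 (hm _ _ _ _) a1)) (mul_lt1 (hm _ _ _ _) a2))

private theorem scm_one {E : Type*} [NormedField E] : Scm (1 : Matrix (Fin 2) (Fin 2) E) := by
  refine ⟨?_, ?_, ?_⟩ <;> simp

/-- the normal subgroup of all `g` with `V g` scalar modulo the maximal ideal -/
private def NN {E : Type*} [NormedField E] [IsUltrametricDist E] {G : Type*} [Group G]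
    (V : G →* GL (Fin 2) E) (hVi : ∀ g, Itg (V g : Matrix (Fin 2) (Fin 2) E)) : Subgroup G where
  carrier := {g | Scm (V g : Matrix (Fin 2) (Fin 2) E)}
  one_mem' := by
    show Scm (V 1 : Matrix (Fin 2) (Fin 2) E)
    rw [map_one]
    exact scm_one
  mul_mem' := by
    intro a b ha hb
    show Scm (V (a * b) : Matrix (Fin 2) (Fin 2) E)
    rw [map_mul, Units.val_mul]
    exact scm_mul (hVi a) (hVi b) ha hb
  inv_mem' := by
    intro a ha
    show Scm (V a⁻¹ : Matrix (Fin 2) (Fin 2) E)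
    refine scm_inv (hVi a⁻¹) ha ?_
    rw [← Units.val_mul, ← map_mul, mul_inv_cancel, map_one, Units.val_one]

private theorem mem_NN {E : Type*} [NormedField E] [IsUltrametricDist E] {G : Type*} [Group G]
    (V : G →* GL (Fin 2) E) (hVi : ∀ g, Itg (V g : Matrix (Fin 2) (Fin 2) E)) (g : G) :
    g ∈ NN V hVi ↔ Scm (V g : Matrix (Fin 2) (Fin 2) E) := Iff.rfl

private theorem NN_normal {E : Type*} [NormedField E] [IsUltrametricDist E] {G : Type*} [Group G]
    (V : G →* GL (Fin 2) E) (hVi : ∀ g, Itg (V g : Matrix (Fin 2) (Fin 2) E)) :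
    (NN V hVi).Normal := by
  constructor
  intro n hn g
  rw [mem_NN] at hn ⊢
  rw [map_mul, map_mul, Units.val_mul, Units.val_mul]
  refine scm_conj (hVi g) (hVi g⁻¹) hn ?_
  rw [← Units.val_mul, ← map_mul, mul_inv_cancel, map_one, Units.val_one]

private theorem e12_pow {E : Type*} [Field E] (k : ℕ) :
    (!![1, 1; 0, 1] : Matrix (Fin 2) (Fin 2) E) ^ k = !![1, (k : E); 0, 1] := by
  induction k with
  | zero => 
    ext i j
    fin_cases i <;> fin_cases j <;> simp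
  | succ k ih =>
    rw [pow_succ, ih]
    ext i j
    fin_cases i <;> fin_cases j <;> simp [Matrix.mul_apply, Fin.sum_univ_two]
    ring

theorem prime_to {p : ℕ} [Fact p.Prime] {E : Type*} [NontriviallyNormedField E]
    [IsUltrametricDist E] [NormedAlgebra ℚ_[p] E] {G : Type*} [Group G] (V : G →* GL (Fin 2) E)
    (hVi : ∀ g, Itg (V g : Matrix (Fin 2) (Fin 2) E))
    (h : ∀ y : Matrix.SpecialLinearGroup (Fin 2) E, Itg (y : Matrix (Fin 2) (Fin 2) E) →
      ∃ g, (V g : Matrix (Fin 2) (Fin 2) E) = (y : Matrix (Fin 2) (Fin 2) E))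
    {n : ℕ} (hn : 2 * n.factorial + 1 < p) {K : Type*} [Field K] (hK : (p : K) ≠ 0)
    (τ : G →* GL (Fin n) K) (hfin : Finite τ.range) :
    ∃ g, τ g = 1 ∧ NSm (V g : Matrix (Fin 2) (Fin 2) E) := by
  classical
  by_contra hcon
  push Not at hcon
  have hp : p.Prime := Fact.out
  have : (NN V hVi).Normal := NN_normal V hVi
  have hnp : n < p := by
    have := Nat.self_le_factorial n
    omega
  have hker : τ.ker ≤ NN V hVi := by
    intro g hg
    rw [mem_NN]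
    have h1 := hcon g hg
    unfold NSm at h1
    push Not at h1
    obtain ⟨h1, h2, h3⟩ := h1
    exact ⟨lt_of_le_of_ne (hVi g _ _) h1, lt_of_le_of_ne (hVi g _ _) h2,
      lt_of_le_of_ne (ultra_sub_le (hVi g _ _) (hVi g _ _)) h3⟩
  -- the primitive root
  obtain ⟨r, hr⟩ := IsCyclic.exists_generator (α := (ZMod p)ˣ)
  have hor : orderOf r = p - 1 := by
    rw [orderOf_eq_card_of_forall_mem_zpowers hr, Nat.card_eq_fintype_card, ZMod.card_units p]
  set a : ℕ := (r : ZMod p).val with ha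
  have har : ((a : ℕ) : ZMod p) = (r : ZMod p) := by
    rw [ha, ZMod.natCast_val, ZMod.cast_id]
  have hcop : p.Coprime a := by
    rw [Nat.coprime_comm]
    rw [← ZMod.isUnit_iff_coprime, har]
    exact r.isUnit
  have hna : ‖(a : E)‖ = 1 := by
    have h1 : (a : E) = algebraMap ℚ_[p] E (a : ℚ_[p]) := by simp
    rw [h1, norm_algebraMap']
    exact Padic.norm_natCast_eq_one_iff.2 hcop
  have ha0 : (a : E) ≠ 0 := by
    intro h0
    rw [h0, norm_zero] at hna
    exact zero_ne_one hna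
  have hnp1 : ‖(p : E)‖ < 1 := by
    have h1 : (p : E) = algebraMap ℚ_[p] E (p : ℚ_[p]) := by simp
    rw [h1, norm_algebraMap']
    exact Padic.norm_p_lt_one
  -- the elements
  obtain ⟨u, hu⟩ := h ⟨!![1, 1; 0, 1], by simp [Matrix.det_fin_two]⟩ (by
    intro i j
    fin_cases i <;> fin_cases j <;> simp)
  obtain ⟨t, ht⟩ := h ⟨!![(a : E), 0; 0, (a : E)⁻¹], by
    simp [Matrix.det_fin_two, ha0]⟩ (by
    intro i j
    fin_cases i <;> fin_cases j <;> simp [hna])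
  have hu' : (V u : Matrix (Fin 2) (Fin 2) E) = !![1, 1; 0, 1] := hu
  have ht' : (V t : Matrix (Fin 2) (Fin 2) E) = !![(a : E), 0; 0, (a : E)⁻¹] := ht
  have huk : ∀ k : ℕ, (V (u ^ k) : Matrix (Fin 2) (Fin 2) E) = !![1, (k : E); 0, 1] := by
    intro k
    rw [map_pow, Units.val_pow_eq_pow_val, hu', e12_pow]
  have h1 : u ∉ NN V hVi := by
    rw [mem_NN, hu']
    rintro ⟨h2, -, -⟩
    simp at h2
  have h2 : u ^ p ∈ NN V hVi := by
    rw [mem_NN, huk]
    refine ⟨?_, ?_, ?_⟩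
    · simpa using hnp1
    · simp
    · simp
  have h3 : t * u * t⁻¹ * (u ^ (a ^ 2))⁻¹ ∈ NN V hVi := by
    have h4 : V (t * u) = V (u ^ (a ^ 2) * t) := by
      apply Units.ext
      rw [map_mul, map_mul, Units.val_mul, Units.val_mul, huk, hu', ht']
      ext i j
      fin_cases i <;> fin_cases j <;> simp [Matrix.mul_apply, Fin.sum_univ_two]
      field_simp
    have h5 : V (t * u * t⁻¹ * (u ^ (a ^ 2))⁻¹) = 1 := by
      rw [map_mul, map_mul, h4, ← map_mul, ← map_mul]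
      simp
    rw [mem_NN, h5]
    exact scm_one
  have h4 := tame hnp hK τ hfin (NN V hVi) hker u t (a ^ 2) h1 h2 h3
  have h5 : r ^ (2 * n.factorial) = 1 := by
    apply Units.ext
    rw [Units.val_pow_eq_pow_val, ← har, Units.val_one]
    have h6 := (ZMod.natCast_eq_natCast_iff _ _ _).2 h4
    push_cast at h6
    rw [pow_mul]
    exact h6
  have h6 : (p - 1) ∣ 2 * n.factorial := by
    rw [← hor]
    exact orderOf_dvd_of_pow_eq_one h5
  have h7 := Nat.le_of_dvd (by have := n.factorial_pos; omega) h6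
  omega

end Pool.Agent.Helper37.Ad
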