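import Pool.Agent.Helper37.Ad.Cpt
import Pool.Agent.Helper37.Ad.Adic
import Pool.Agent.Helper37.Ad.Prim

/-!
# Project ADL, module BigP: large places

PLAN. `‖(30 : E v)‖ = 1` because `p ≥ 7` (`30` is prime to `p`; `padicNormE`, `norm_algebraMap'`).
For every prime `l` let `A_l k` be the subgroups of `exists_levels` for `T l`.
`Full V (A_l 0) v 2` for every `l`: `full_of_nsm` with an element `g ∈ A_l 0` with `NSm (V v g)`: for `l = p`
it is the hypothesis `hg`; for `l ≠ p` it is given by `prime_to` for `V v`, `K = ZMod l`, `τ` the reduction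
of `T l` (`exists_red`, `red_eq_one`), whose range is finite (`Full V ⊤ v 2` gives the hypothesis `h` of
`prime_to`, with `near_two`). Then `full_chain` gives `Full V (T l).ker v 2` (`⨅ k, A_l k = (T l).ker`).
Finally `full_iInf` for the family of all `(T l).ker` (index type `{l : ℕ // l.Prime}` with
`haveI := Fact.mk l.2`), whose infimum is `commonKernel T` (`le_antisymm`, `Subgroup.mem_iInf`).
-/

set_option autoImplicit false

namespace Pool.Agent.Helper37.Ad

theorem big_place {Λ : Type*} {E : Λ → Type*} [∀ v, NontriviallyNormedField (E v)]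
    [∀ v, IsUltrametricDist (E v)] {G : Type*} [Group G] [TopologicalSpace G]
    [IsTopologicalGroup G] [CompactSpace G]
    (V : ∀ v, G →* GL (Fin 2) (E v)) (hV : ∀ v, Continuous (V v)) (v : Λ)
    {p : ℕ} [Fact p.Prime] [NormedAlgebra ℚ_[p] (E v)]
    (hVi : ∀ g, Itg (V v g : Matrix (Fin 2) (Fin 2) (E v))) (h : Full V ⊤ v 2)
    {n : ℕ} (T : ∀ (l : ℕ) [Fact l.Prime], G →* GL (Fin n) ℚ_[l])
    (hT : ∀ (l : ℕ) [Fact l.Prime], Continuous (T l))
    (hTi : ∀ (l : ℕ) [Fact l.Prime] (g : G), Itg (T l g : Matrix (Fin n) (Fin n) ℚ_[l]))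
    (hp : 7 ≤ p) (hn : 2 * n.factorial + 1 < p)
    (hg : ∃ g : G, (∀ i j, ‖(T p g : Matrix (Fin n) (Fin n) ℚ_[p]) i j -
      (1 : Matrix (Fin n) (Fin n) ℚ_[p]) i j‖ < 1) ∧
      NSm (V v g : Matrix (Fin 2) (Fin 2) (E v))) :
    Full V (commonKernel T) v 2 := by
  have h30 : ‖(30 : E v)‖ = 1 := by
    have h1 : (30 : E v) = algebraMap ℚ_[p] (E v) ((30 : ℕ) : ℚ_[p]) := by
      rw [map_natCast]; norm_num
    rw [h1, norm_algebraMap', Padic.norm_natCast_eq_one_iff]
    have hpp : p.Prime := Fact.out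
    rw [hpp.coprime_iff_not_dvd]
    intro hd
    have h30' : p ∣ 2 * 3 * 5 := by simpa using hd
    rcases (Nat.Prime.dvd_mul hpp).1 h30' with h3 | h3
    · rcases (Nat.Prime.dvd_mul hpp).1 h3 with h4 | h4
      · have := Nat.le_of_dvd (by norm_num) h4
        omega
      · have := Nat.le_of_dvd (by norm_num) h4
        omega
    · have := Nat.le_of_dvd (by norm_num) h3
      omega
  have hker : ∀ (l : ℕ) [Fact l.Prime], Full V (T l).ker v 2 := by
    intro l hl
    obtain ⟨A, hAn, hAc, -, -, hA0, hAs, -, hAi⟩ := exists_levels (T l) (hT l) (hTi l)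
    have h0 : Full V (A 0) v 2 := by
      haveI := hAn 0
      by_cases hlp : l = p
      · subst hlp
        obtain ⟨g, hg1, hg2⟩ := hg
        exact full_of_nsm V v h30 hVi h (A 0) ((hA0 g).2 hg1) hg2
      · obtain ⟨τ, hτ⟩ := exists_red (T l) (hTi l)
        have hpl : (p : ZMod l) ≠ 0 := by
          rw [Ne, ZMod.natCast_eq_zero_iff]
          intro hd
          exact hlp ((Nat.prime_dvd_prime_iff_eq hl.out (Fact.out : p.Prime)).1 hd)
        have hfin : Finite τ.range := by
          haveI : NeZero l := ⟨hl.out.ne_zero⟩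
          haveI : Finite (GL (Fin n) (ZMod l)) := by
            unfold Matrix.GeneralLinearGroup
            infer_instance
          infer_instance
        obtain ⟨g, hg1, hg2⟩ := prime_to (p := p) (V v) hVi
          (fun y hy => by
            obtain ⟨g, -, hg, -⟩ := h y hy (near_two hy)
            exact ⟨g, hg⟩) hn hpl τ hfin
        obtain ⟨X, hX1, hX2⟩ := hτ g
        refine full_of_nsm V v h30 hVi h (A 0) ((hA0 g).2 ?_) hg2
        refine (red_eq_one hX1 hX2).1 ?_
        rw [hg1]
        rfl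
    rw [← hAi]
    exact full_chain V hV v h30 hVi h A hAn hAc h0 hAs
  have hclosed : ∀ (l : ℕ) [Fact l.Prime], IsClosed (((T l).ker : Subgroup G) : Set G) := by
    intro l hl
    have h2 : (((T l).ker : Subgroup G) : Set G) = (T l) ⁻¹' {1} := by
      ext g
      simp [MonoidHom.mem_ker]
    rw [h2]
    exact isClosed_singleton.preimage (hT l)
  have hcomm : commonKernel T = ⨅ i : {l : ℕ // l.Prime},
      (haveI : Fact i.1.Prime := ⟨i.2⟩; (T i.1).ker) := by
    unfold commonKernel
    apply le_antisymm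
    · refine le_iInf fun i => ?_
      exact iInf₂_le (f := fun (l : ℕ) (_ : Fact l.Prime) => (T l).ker) i.1 ⟨i.2⟩
    · refine le_iInf fun l => le_iInf fun hl => ?_
      exact iInf_le (fun i : {l : ℕ // l.Prime} =>
        (haveI : Fact i.1.Prime := ⟨i.2⟩; (T i.1).ker)) ⟨l, hl.out⟩
  rw [hcomm]
  exact full_iInf V hV v h30 hVi h _ (fun i => by
      haveI : Fact i.1.Prime := ⟨i.2⟩
      exact (T i.1).normal_ker) (fun i => by
      haveI : Fact i.1.Prime := ⟨i.2⟩
      exact hclosed i.1) (fun i => by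
      haveI : Fact i.1.Prime := ⟨i.2⟩
      exact hker i.1)

end Pool.Agent.Helper37.Ad
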