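import Pool.Agent.Helper37.Ad.FullA

/-!
# Project ADL, module Cpt: compactness arguments

PLAN. `full_iInf`: fix `y` (integral). For a finite set `F` of indices let `C F` be the set of all
`g ∈ ⋂ i ∈ F, A i` with `V v g = y` and `V w g = 1` for `w ≠ v`: it is closed in the compact group `G`
(the `A i` are closed, the `V w` continuous, `GL` is Hausdorff) and nonempty by induction on `F` from
`full_inf` (start with `h : Full V ⊤ v 2`). `IsCompact.nonempty_iInter_of_directed_nonempty_isCompact_isClosed`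
or `isCompact_univ.inter_iInter_nonempty`.

`full_chain`: all `Full V (A k) v 2` by `full_comm` and induction; then `full_iInf`.

`open_of_full`: let `S` be the given finite set, `ε₀ = min` of the `ε v`, `v ∈ S` (and `1` if `S` is
empty). Let `x` be a family as in `AdelicallyOpen`. For a finite set `F ⊆ Λ` let `C F` be the set of all
`g ∈ H` with `V v g = x v` for `v ∈ F`; closed; nonempty: for each `v ∈ F` there is `g_v ∈ H` with
`V v g_v = x v` and `V w g_v = 1` for `w ≠ v` (`near_two` for `v ∉ S`), take the product over `v ∈ F` (induction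
on `F`, keep the statement `V w g = 1` for `w ∉ F`). Compactness of `H`.

`full_of_open`: given `y` take `x = Function.update 1 v y`.
-/

set_option autoImplicit false

namespace Pool.Agent.Helper37.Ad

variable {Λ : Type*} {E : Λ → Type*} [∀ v, NontriviallyNormedField (E v)]
  [∀ v, IsUltrametricDist (E v)] {G : Type*} [Group G] [TopologicalSpace G]
  [IsTopologicalGroup G] [CompactSpace G]

private lemma closed_eq {v : Λ} (V : ∀ v, G →* GL (Fin 2) (E v)) (hV : ∀ v, Continuous (V v))
    (M : Matrix (Fin 2) (Fin 2) (E v)) :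
    IsClosed {g : G | (V v g : Matrix (Fin 2) (Fin 2) (E v)) = M} :=
  isClosed_eq (Units.continuous_val.comp (hV v)) continuous_const

private lemma val_one {w : Λ} {a : GL (Fin 2) (E w)} :
    a = 1 ↔ (a : Matrix (Fin 2) (Fin 2) (E w)) = 1 := by
  constructor
  · rintro rfl
    rfl
  · intro h
    exact Units.ext h

private lemma closed_one {w : Λ} (V : ∀ v, G →* GL (Fin 2) (E v)) (hV : ∀ v, Continuous (V v)) :
    IsClosed {g : G | V w g = 1} := by
  have : {g : G | V w g = 1} = {g : G | (V w g : Matrix (Fin 2) (Fin 2) (E w)) = 1} := by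
    ext g
    exact val_one
  rw [this]
  exact closed_eq V hV 1

theorem full_iInf (V : ∀ v, G →* GL (Fin 2) (E v)) (hV : ∀ v, Continuous (V v)) (v : Λ)
    (h30 : ‖(30 : E v)‖ = 1)
    (hVi : ∀ g, Itg (V v g : Matrix (Fin 2) (Fin 2) (E v))) (h : Full V ⊤ v 2)
    {I : Type*} (A : I → Subgroup G) (hA : ∀ i, (A i).Normal)
    (hAc : ∀ i, IsClosed (A i : Set G)) (hAf : ∀ i, Full V (A i) v 2) :
    Full V (⨅ i, A i) v 2 := by
  classical
  intro y hy hn
  have hF : ∀ F : Finset I, (F.inf A).Normal ∧ Full V (F.inf A) v 2 := by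
    intro F
    induction F using Finset.induction_on with
    | empty =>
      refine ⟨?_, ?_⟩
      · rw [Finset.inf_empty]
        infer_instance
      · rw [Finset.inf_empty]
        exact h
    | insert i F _ ih =>
      obtain ⟨ih1, ih2⟩ := ih
      have := hA i
      rw [Finset.inf_insert]
      exact ⟨inferInstance, full_inf V v h30 hVi h (hAf i) ih2⟩
  have hD : IsClosed {g : G | (V v g : Matrix (Fin 2) (Fin 2) (E v)) =
      (y : Matrix (Fin 2) (Fin 2) (E v)) ∧ ∀ w, w ≠ v → V w g = 1} := by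
    have e : {g : G | (V v g : Matrix (Fin 2) (Fin 2) (E v)) =
        (y : Matrix (Fin 2) (Fin 2) (E v)) ∧ ∀ w, w ≠ v → V w g = 1} =
        {g : G | (V v g : Matrix (Fin 2) (Fin 2) (E v)) = (y : Matrix (Fin 2) (Fin 2) (E v))} ∩
        ⋂ w, ⋂ (_ : w ≠ v), {g : G | V w g = 1} := by
      ext g
      simp
    rw [e]
    exact (closed_eq V hV _).inter (isClosed_iInter fun w => isClosed_iInter fun _ => closed_one V hV)
  obtain ⟨g, hg1, hg2⟩ := hD.isCompact.inter_iInter_nonempty (fun i => (A i : Set G)) hAc (by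
    intro u
    obtain ⟨g, hg, hgv⟩ := (hF u).2 y hy hn
    refine ⟨g, hgv, ?_⟩
    simp only [Set.mem_iInter]
    intro i hi
    exact (Finset.inf_le hi : u.inf A ≤ A i) hg)
  refine ⟨g, ?_, hg1⟩
  rw [Subgroup.mem_iInf]
  intro i
  exact Set.mem_iInter.1 hg2 i

theorem full_chain (V : ∀ v, G →* GL (Fin 2) (E v)) (hV : ∀ v, Continuous (V v)) (v : Λ)
    (h30 : ‖(30 : E v)‖ = 1)
    (hVi : ∀ g, Itg (V v g : Matrix (Fin 2) (Fin 2) (E v))) (h : Full V ⊤ v 2)
    (A : ℕ → Subgroup G) (hA : ∀ k, (A k).Normal) (hAc : ∀ k, IsClosed (A k : Set G))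
    (h0 : Full V (A 0) v 2) (hs : ∀ k, ∀ a ∈ A k, ∀ b ∈ A k, a * b * a⁻¹ * b⁻¹ ∈ A (k + 1)) :
    Full V (⨅ k, A k) v 2 := by
  have hall : ∀ k, Full V (A k) v 2 := by
    intro k
    induction k with
    | zero => exact h0
    | succ k ih =>
      have := hA (k + 1)
      exact full_comm V v h30 hVi h ih (hs k)
  exact full_iInf V hV v h30 hVi h A hA hAc hall

theorem open_of_full (V : ∀ v, G →* GL (Fin 2) (E v)) (hV : ∀ v, Continuous (V v))
    (H : Subgroup G) (hH : IsClosed (H : Set G)) (S : Finset Λ) (ε : Λ → ℝ)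
    (hε : ∀ v ∈ S, 0 < ε v) (hbig : ∀ v, v ∉ S → Full V H v 2) (hsmall : ∀ v ∈ S, Full V H v (ε v)) :
    AdelicallyOpen H V := by
  classical
  obtain ⟨ε₀, hε₀, hle⟩ : ∃ ε₀ : ℝ, 0 < ε₀ ∧ ∀ v ∈ S, ε₀ ≤ ε v := by
    clear hsmall hbig
    induction S using Finset.induction_on with
    | empty => exact ⟨1, one_pos, by simp⟩
    | insert i F _ ih =>
      obtain ⟨δ, hδ, hd⟩ := ih (fun v hv => hε v (Finset.mem_insert_of_mem hv))
      refine ⟨min δ (ε i), lt_min hδ (hε i (Finset.mem_insert_self i F)), ?_⟩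
      intro v hv
      rcases Finset.mem_insert.1 hv with rfl | hv
      · exact min_le_right _ _
      · exact (min_le_left _ _).trans (hd v hv)
  refine ⟨S, ε₀, hε₀, ?_⟩
  intro x hx hxn
  have key : ∀ F : Finset Λ, ∃ g ∈ H, (∀ v ∈ F, (V v g : Matrix (Fin 2) (Fin 2) (E v)) =
      (x v : Matrix (Fin 2) (Fin 2) (E v))) ∧ ∀ w, w ∉ F → V w g = 1 := by
    intro F
    induction F using Finset.induction_on with
    | empty => exact ⟨1, H.one_mem, by simp, by simp⟩
    | insert v F hvF ih =>
      obtain ⟨g', hg', h1, h2⟩ := ih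
      obtain ⟨a, ha, ha1, ha2⟩ : ∃ a ∈ H, (V v a : Matrix (Fin 2) (Fin 2) (E v)) =
          (x v : Matrix (Fin 2) (Fin 2) (E v)) ∧ ∀ w, w ≠ v → V w a = 1 := by
        by_cases hvS : v ∈ S
        · exact hsmall v hvS (x v) (hx v) (fun i j => (hxn v hvS i j).trans_le (hle v hvS))
        · exact hbig v hvS (x v) (hx v) (near_two (hx v))
      refine ⟨a * g', H.mul_mem ha hg', ?_, ?_⟩
      · intro u hu
        by_cases huv : u = v
        · subst huv
          rw [map_mul, h2 u hvF, mul_one]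
          exact ha1
        · rw [map_mul, ha2 u huv, one_mul]
          exact h1 u ((Finset.mem_insert.1 hu).resolve_left huv)
      · intro w hw
        rw [Finset.mem_insert, not_or] at hw
        rw [map_mul, ha2 w hw.1, h2 w hw.2, mul_one]
  obtain ⟨g, hg1, hg2⟩ := hH.isCompact.inter_iInter_nonempty
    (fun v => {g : G | (V v g : Matrix (Fin 2) (Fin 2) (E v)) =
      (x v : Matrix (Fin 2) (Fin 2) (E v))}) (fun v => closed_eq V hV _) (by
    intro u
    obtain ⟨g, hg, hgv, _⟩ := key u
    refine ⟨g, hg, ?_⟩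
    simp only [Set.mem_iInter]
    intro i hi
    exact hgv i hi)
  exact ⟨g, hg1, fun v => Set.mem_iInter.1 hg2 v⟩

theorem full_of_open (V : ∀ v, G →* GL (Fin 2) (E v)) (H : Subgroup G)
    (h : AdelicallyOpen H V) :
    ∃ S : Finset Λ, ∃ ε : ℝ, 0 < ε ∧ (∀ v, v ∉ S → Full V H v 2) ∧ ∀ v ∈ S, Full V H v ε := by
  classical
  obtain ⟨S, ε, hε, hx⟩ := h
  have main : ∀ (v : Λ) (y : Matrix.SpecialLinearGroup (Fin 2) (E v)),
      Itg (y : Matrix (Fin 2) (Fin 2) (E v)) →
      (v ∈ S → Near ε (y : Matrix (Fin 2) (Fin 2) (E v))) →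
      ∃ g ∈ H, (V v g : Matrix (Fin 2) (Fin 2) (E v)) = (y : Matrix (Fin 2) (Fin 2) (E v)) ∧
        ∀ w, w ≠ v → V w g = 1 := by
    intro v y hy hn
    obtain ⟨g, hg, hgx⟩ := hx (Function.update (fun w => 1) v y) (by
      intro w i j
      by_cases hw : w = v
      · subst hw
        rw [Function.update_self]
        exact hy i j
      · rw [Function.update_of_ne hw]
        rw [Matrix.SpecialLinearGroup.coe_one, Matrix.one_apply]
        split_ifs <;> simp) (by
      intro w hwS i j
      by_cases hw : w = v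
      · subst hw
        rw [Function.update_self]
        exact hn hwS i j
      · rw [Function.update_of_ne hw]
        rw [Matrix.SpecialLinearGroup.coe_one, sub_self, norm_zero]
        exact hε)
    refine ⟨g, hg, ?_, ?_⟩
    · rw [hgx v, Function.update_self]
    · intro w hw
      rw [val_one, hgx w, Function.update_of_ne hw, Matrix.SpecialLinearGroup.coe_one]
  refine ⟨S, ε, hε, ?_, ?_⟩
  · intro v hv y hy _
    exact main v y hy (fun h => absurd h hv)
  · intro v _ y hy hn
    exact main v y hy (fun _ => hn)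

end Pool.Agent.Helper37.Ad
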