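import Mathlib

/-!
# Definitions: adelically open image, common kernel
-/

set_option autoImplicit false

namespace Pool.Agent.Helper37.Ad

/-- The image of `H` under `(V v)_v` contains an open subgroup of the product of the groups
`SL_2(O_v)`: there are a finite set `S` of places and `ε > 0` such that every family `(x v)` of
matrices of determinant one with entries of norm at most one, and with `‖x v - 1‖ < ε` for
`v ∈ S`, is the image of an element of `H`. -/
def AdelicallyOpen {Λ : Type*} {E : Λ → Type*} [∀ v, NormedField (E v)] {G : Type*} [Group G]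
    (H : Subgroup G) (V : ∀ v, G →* GL (Fin 2) (E v)) : Prop :=
  ∃ S : Finset Λ, ∃ ε : ℝ, 0 < ε ∧ ∀ x : ∀ v, Matrix.SpecialLinearGroup (Fin 2) (E v),
    (∀ v i j, ‖(x v : Matrix (Fin 2) (Fin 2) (E v)) i j‖ ≤ 1) →
    (∀ v ∈ S, ∀ i j, ‖(x v : Matrix (Fin 2) (Fin 2) (E v)) i j -
      (1 : Matrix (Fin 2) (Fin 2) (E v)) i j‖ < ε) →
    ∃ g ∈ H, ∀ v, (V v g : Matrix (Fin 2) (Fin 2) (E v)) = (x v : Matrix (Fin 2) (Fin 2) (E v))

/-- The elements of `G` on which all `T l` are trivial. -/
noncomputable def commonKernel {G : Type*} [Group G] {n : ℕ}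
    (T : ∀ (l : ℕ) [Fact l.Prime], G →* GL (Fin n) ℚ_[l]) : Subgroup G :=
  ⨅ (l : ℕ) (_ : Fact l.Prime), (T l).ker

end Pool.Agent.Helper37.Ad
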