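import Pool.Agent.Helper37.Ad.SmallN
import Pool.Agent.Helper37.Ad.BigN
import Pool.Agent.Helper37.Ad.Comm

/-!
# Project ADL, module FullA: normal subgroups of `G` with nonscalar image at one place

For a normal subgroup `A` of `G` let `N` (here `nsub V v A`) be the subgroup of all
`y ∈ SL_2(E v)` such that `V v g = y` and `V w g = 1` (`w ≠ v`) for some `g ∈ A`. Conjugation by
lifts shows that `N` is normalised by the integral matrices near `1`, and commutators of elements of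
`A` with such lifts give elements of `N`. Now `small_normal`, `big_normal` apply.
-/

set_option autoImplicit false

namespace Pool.Agent.Helper37.Ad

variable {Λ : Type*} {E : Λ → Type*} [∀ v, NontriviallyNormedField (E v)]
  [∀ v, IsUltrametricDist (E v)] {G : Type*} [Group G]

private lemma toGL_val {F : Type*} [Field F] (y : Matrix.SpecialLinearGroup (Fin 2) F) :
    ((Matrix.SpecialLinearGroup.toGL y : GL (Fin 2) F) : Matrix (Fin 2) (Fin 2) F) =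
      (y : Matrix (Fin 2) (Fin 2) F) := rfl

omit [∀ v, IsUltrametricDist (E v)] in
private lemma eq_toGL {V : ∀ v, G →* GL (Fin 2) (E v)} {v : Λ} {g : G}
    {y : Matrix.SpecialLinearGroup (Fin 2) (E v)} :
    (V v g : Matrix (Fin 2) (Fin 2) (E v)) = (y : Matrix (Fin 2) (Fin 2) (E v)) ↔
      V v g = Matrix.SpecialLinearGroup.toGL y := by
  constructor
  · intro h
    apply Units.ext
    rw [toGL_val]
    exact h
  · intro h
    rw [h, toGL_val]

/-- the `y` which lift to elements of `A` with trivial components outside `v` -/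
private def nsub (V : ∀ v, G →* GL (Fin 2) (E v)) (v : Λ) (A : Subgroup G) :
    Subgroup (Matrix.SpecialLinearGroup (Fin 2) (E v)) where
  carrier := {y | ∃ g ∈ A, V v g = Matrix.SpecialLinearGroup.toGL y ∧ ∀ w, w ≠ v → V w g = 1}
  mul_mem' := by
    rintro x y ⟨g, hg, h1, h2⟩ ⟨k, hk, h3, h4⟩
    refine ⟨g * k, A.mul_mem hg hk, ?_, ?_⟩
    · rw [map_mul, map_mul, h1, h3]
    · intro w hw
      rw [map_mul, h2 w hw, h4 w hw, one_mul]
  one_mem' := ⟨1, A.one_mem, by rw [map_one, map_one], fun w _ => map_one _⟩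
  inv_mem' := by
    rintro x ⟨g, hg, h1, h2⟩
    refine ⟨g⁻¹, A.inv_mem hg, ?_, ?_⟩
    · rw [map_inv, map_inv, h1]
    · intro w hw
      rw [map_inv, h2 w hw, inv_one]

omit [∀ v, IsUltrametricDist (E v)] in
private lemma mem_nsub {V : ∀ v, G →* GL (Fin 2) (E v)} {v : Λ} {A : Subgroup G}
    {y : Matrix.SpecialLinearGroup (Fin 2) (E v)} :
    y ∈ nsub V v A ↔ ∃ g ∈ A, V v g = Matrix.SpecialLinearGroup.toGL y ∧
      ∀ w, w ≠ v → V w g = 1 := Iff.rfl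

omit [∀ v, IsUltrametricDist (E v)] in
private lemma mem_nsub' {V : ∀ v, G →* GL (Fin 2) (E v)} {v : Λ} {A : Subgroup G}
    {y : Matrix.SpecialLinearGroup (Fin 2) (E v)} (hy : y ∈ nsub V v A) :
    ∃ g ∈ A, (V v g : Matrix (Fin 2) (Fin 2) (E v)) = (y : Matrix (Fin 2) (Fin 2) (E v)) ∧
      ∀ w, w ≠ v → V w g = 1 := by
  obtain ⟨g, hg, h1, h2⟩ := hy
  exact ⟨g, hg, eq_toGL.2 h1, h2⟩

omit [∀ v, IsUltrametricDist (E v)] in
private lemma conj_nsub (V : ∀ v, G →* GL (Fin 2) (E v)) (v : Λ) {ε : ℝ}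
    (h : Full V ⊤ v ε) (A : Subgroup G) [A.Normal]
    (y : Matrix.SpecialLinearGroup (Fin 2) (E v)) (hy : Itg (y : Matrix (Fin 2) (Fin 2) (E v)))
    (hy' : Near ε (y : Matrix (Fin 2) (Fin 2) (E v))) (x : Matrix.SpecialLinearGroup (Fin 2) (E v))
    (hx : x ∈ nsub V v A) : y * x * y⁻¹ ∈ nsub V v A := by
  obtain ⟨g, hg, h1, h2⟩ := hx
  obtain ⟨k, -, h3, h4⟩ := h y hy hy'
  rw [eq_toGL] at h3
  refine ⟨k * g * k⁻¹, Subgroup.Normal.conj_mem inferInstance g hg k, ?_, ?_⟩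
  · rw [map_mul, map_mul, map_inv, map_mul, map_mul, map_inv, h1, h3]
  · intro w hw
    rw [map_mul, map_mul, map_inv, h2 w hw, h4 w hw, one_mul, one_mul, inv_one]

omit [∀ v, IsUltrametricDist (E v)] in
/-- the commutator of an element of `A` with a lift of `y` -/
private lemma comm_nsub (V : ∀ v, G →* GL (Fin 2) (E v)) (v : Λ) {ε : ℝ}
    (h : Full V ⊤ v ε) (A : Subgroup G) [A.Normal]
    (y : Matrix.SpecialLinearGroup (Fin 2) (E v)) (hy : Itg (y : Matrix (Fin 2) (Fin 2) (E v)))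
    (hy' : Near ε (y : Matrix (Fin 2) (Fin 2) (E v))) {g : G} (hg : g ∈ A) :
    ∃ x ∈ nsub V v A, (x : Matrix (Fin 2) (Fin 2) (E v)) =
      (V v g : Matrix (Fin 2) (Fin 2) (E v)) * (y : Matrix (Fin 2) (Fin 2) (E v)) *
        (((V v g)⁻¹ : GL (Fin 2) (E v)) : Matrix (Fin 2) (Fin 2) (E v)) *
        ((y⁻¹ : Matrix.SpecialLinearGroup (Fin 2) (E v)) : Matrix (Fin 2) (Fin 2) (E v)) := by
  obtain ⟨k, -, h3, h4⟩ := h y hy hy'
  rw [eq_toGL] at h3
  have hdet : ((V v g : Matrix (Fin 2) (Fin 2) (E v)) * (y : Matrix (Fin 2) (Fin 2) (E v)) *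
        (((V v g)⁻¹ : GL (Fin 2) (E v)) : Matrix (Fin 2) (Fin 2) (E v)) *
        ((y⁻¹ : Matrix.SpecialLinearGroup (Fin 2) (E v)) :
          Matrix (Fin 2) (Fin 2) (E v))).det = 1 := by
    rw [Matrix.det_mul, Matrix.det_mul, Matrix.det_mul, y.2, (y⁻¹).2, mul_one, mul_one,
      ← Matrix.det_mul, ← Units.val_mul, mul_inv_cancel, Units.val_one, Matrix.det_one]
  refine ⟨⟨_, hdet⟩, ?_, rfl⟩
  rw [mem_nsub]
  refine ⟨g * k * g⁻¹ * k⁻¹, ?_, ?_, ?_⟩
  · have h5 : k * g⁻¹ * k⁻¹ ∈ A := Subgroup.Normal.conj_mem inferInstance _ (A.inv_mem hg) k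
    have h6 := A.mul_mem hg h5
    have h7 : g * k * g⁻¹ * k⁻¹ = g * (k * g⁻¹ * k⁻¹) := by group
    rw [h7]
    exact h6
  · have h8 : V v (g * k * g⁻¹ * k⁻¹) = V v g * Matrix.SpecialLinearGroup.toGL y * (V v g)⁻¹ *
        Matrix.SpecialLinearGroup.toGL y⁻¹ := by
      rw [map_mul, map_mul, map_mul, map_inv, map_inv, h3, map_inv]
    rw [h8]
    apply Units.ext
    rfl
  · intro w hw
    rw [map_mul, map_mul, map_mul, map_inv, map_inv, h4 w hw, mul_one, inv_one, mul_one,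
      mul_inv_cancel]

theorem full_of_nsc (V : ∀ v, G →* GL (Fin 2) (E v)) (v : Λ) [CharZero (E v)] {ε : ℝ} (hε : 0 < ε)
    (h : Full V ⊤ v ε) (A : Subgroup G) [A.Normal] {g : G} (hg : g ∈ A)
    (hns : Nsc (V v g : Matrix (Fin 2) (Fin 2) (E v))) : ∃ ε' : ℝ, 0 < ε' ∧ Full V A v ε' := by
  obtain ⟨y, hy, hy', hyn⟩ := comm_small (V v g) hns hε
  obtain ⟨x, hx, hxe⟩ := comm_nsub V v h A y hy hy' hg
  rw [← hxe] at hyn
  obtain ⟨ε', hε', h1⟩ := small_normal (nsub V v A) hε (conj_nsub V v h A) hx hyn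
  exact ⟨ε', hε', fun z hz hz' => mem_nsub' (h1 z hz hz')⟩

theorem full_of_nsm (V : ∀ v, G →* GL (Fin 2) (E v)) (v : Λ) (h30 : ‖(30 : E v)‖ = 1)
    (hVi : ∀ g, Itg (V v g : Matrix (Fin 2) (Fin 2) (E v)))
    (h : Full V ⊤ v 2) (A : Subgroup G) [A.Normal] {g : G} (hg : g ∈ A)
    (hns : NSm (V v g : Matrix (Fin 2) (Fin 2) (E v))) : Full V A v 2 := by
  have hgi : Itg (((V v g)⁻¹ : GL (Fin 2) (E v)) : Matrix (Fin 2) (Fin 2) (E v)) := by
    rw [← map_inv]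
    exact hVi _
  obtain ⟨y, hy, hyn⟩ := comm_big (V v g) (hVi g) hgi hns
  obtain ⟨x, hx, hxe⟩ := comm_nsub V v h A y hy (near_two hy) hg
  rw [← hxe] at hyn
  have hxi : Itg (x : Matrix (Fin 2) (Fin 2) (E v)) := by
    rw [hxe]
    exact itg_mul (itg_mul (itg_mul (hVi g) hy) hgi) (itg_inv hy)
  have h1 := big_normal h30 (nsub V v A)
    (fun z hz w hw => conj_nsub V v h A z hz (near_two hz) w hw) hx hxi hyn
  exact fun z hz _ => mem_nsub' (h1 z hz)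

omit [∀ v, IsUltrametricDist (E v)] in
private lemma comm_val (V : ∀ v, G →* GL (Fin 2) (E v)) (v : Λ) {a b : G}
    {x y : Matrix.SpecialLinearGroup (Fin 2) (E v)}
    (ha : (V v a : Matrix (Fin 2) (Fin 2) (E v)) = (x : Matrix (Fin 2) (Fin 2) (E v)))
    (hb : (V v b : Matrix (Fin 2) (Fin 2) (E v)) = (y : Matrix (Fin 2) (Fin 2) (E v))) :
    (V v (a * b * a⁻¹ * b⁻¹) : Matrix (Fin 2) (Fin 2) (E v)) =
      ((x * y * x⁻¹ * y⁻¹ : Matrix.SpecialLinearGroup (Fin 2) (E v)) :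
        Matrix (Fin 2) (Fin 2) (E v)) := by
  rw [eq_toGL] at ha hb ⊢
  rw [map_mul, map_mul, map_mul, map_inv, map_inv, map_mul, map_mul, map_mul, map_inv, map_inv,
    ha, hb]

theorem full_inf (V : ∀ v, G →* GL (Fin 2) (E v)) (v : Λ) (h30 : ‖(30 : E v)‖ = 1)
    (hVi : ∀ g, Itg (V v g : Matrix (Fin 2) (Fin 2) (E v)))
    (h : Full V ⊤ v 2) {A B : Subgroup G} [A.Normal] [B.Normal] (hA : Full V A v 2)
    (hB : Full V B v 2) : Full V (A ⊓ B) v 2 := by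
  obtain ⟨x, y, hx, hy, hxy, hns⟩ := comm_elem (E v)
  obtain ⟨a, ha, ha1, -⟩ := hA x hx (near_two hx)
  obtain ⟨b, hb, hb1, -⟩ := hB y hy (near_two hy)
  have hc := comm_val V v ha1 hb1
  rw [← hc] at hns
  refine full_of_nsm V v h30 hVi h (A ⊓ B) (g := a * b * a⁻¹ * b⁻¹) ?_ hns
  refine ⟨?_, ?_⟩
  · have h5 : b * a⁻¹ * b⁻¹ ∈ A := Subgroup.Normal.conj_mem inferInstance _ (A.inv_mem ha) b
    have h6 := A.mul_mem ha h5
    have h7 : a * b * a⁻¹ * b⁻¹ = a * (b * a⁻¹ * b⁻¹) := by group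
    rw [h7]
    exact h6
  · exact B.mul_mem (Subgroup.Normal.conj_mem inferInstance b hb a) (B.inv_mem hb)

theorem full_comm (V : ∀ v, G →* GL (Fin 2) (E v)) (v : Λ) (h30 : ‖(30 : E v)‖ = 1)
    (hVi : ∀ g, Itg (V v g : Matrix (Fin 2) (Fin 2) (E v)))
    (h : Full V ⊤ v 2) {A B : Subgroup G} [B.Normal] (hA : Full V A v 2)
    (hAB : ∀ a ∈ A, ∀ b ∈ A, a * b * a⁻¹ * b⁻¹ ∈ B) : Full V B v 2 := by
  obtain ⟨x, y, hx, hy, hxy, hns⟩ := comm_elem (E v)
  obtain ⟨a, ha, ha1, -⟩ := hA x hx (near_two hx)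
  obtain ⟨b, hb, hb1, -⟩ := hA y hy (near_two hy)
  have hc := comm_val V v ha1 hb1
  rw [← hc] at hns
  exact full_of_nsm V v h30 hVi h B (hAB a ha b hb) hns

end Pool.Agent.Helper37.Ad
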