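import Pool.Agent.Helper37.Ad.NormG

/-!
# Project ADL, module LawG: a law for finite `p`-groups of matrices in characteristic prime to `p`

`self_central`: a finite `p`-group has a normal commutative subgroup containing its centraliser.
`law_hom`: `n!`-th powers of the elements of a finite `p`-group commute in every representation of degree
`n` in characteristic different from `p`. `law_comm`: if `n < p` the image is commutative.
-/

set_option autoImplicit false

namespace Pool.Agent.Helper37.Ad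

private theorem exists_central {P : Type*} [Group P] [Finite P] {p : ℕ} [Fact p.Prime]
    (hP : IsPGroup p P) (N : Subgroup P) [N.Normal] (hN : N ≠ ⊥) :
    ∃ x ∈ N, x ≠ 1 ∧ ∀ g : P, g * x = x * g := by
  letI : MulAction P N := MulAction.compHom N (MulAut.conjNormal : P →* MulAut N)
  have hsm : ∀ (g : P) (n : N), ((g • n : N) : P) = g * n * g⁻¹ := by
    intro g n
    exact MulAut.conjNormal_apply g n
  have hdvd : p ∣ Nat.card N := by
    rcases (hP.to_subgroup N).card_eq_or_dvd with h | h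
    · exact absurd (Subgroup.card_eq_one.1 h) hN
    · exact h
  have h1 : (1 : N) ∈ MulAction.fixedPoints P N := by
    intro g
    apply Subtype.ext
    rw [hsm]
    simp
  obtain ⟨b, hb, hb1⟩ := hP.exists_fixed_point_of_prime_dvd_card_of_fixed_point N hdvd h1
  refine ⟨(b : P), b.2, ?_, ?_⟩
  · intro e
    apply hb1
    apply Subtype.ext
    rw [e]
    rfl
  · intro g
    have h2 := congrArg (fun z : N => (z : P)) (hb g)
    simp only [hsm] at h2
    rw [mul_inv_eq_iff_eq_mul] at h2
    exact h2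

theorem self_central {S : Type*} [Group S] [Finite S] {p : ℕ} [Fact p.Prime] (hS : IsPGroup p S) :
    ∃ A : Subgroup S, A.Normal ∧ (∀ a ∈ A, ∀ b ∈ A, a * b = b * a) ∧
      ∀ x : S, (∀ a ∈ A, x * a = a * x) → x ∈ A := by
  have hfin : (({A : Subgroup S | A.Normal ∧ ∀ a ∈ A, ∀ b ∈ A, a * b = b * a} :
      Set (Subgroup S))).Finite := Set.toFinite _
  obtain ⟨A, hA⟩ := hfin.exists_maximal ⟨⊥, by
    refine ⟨Subgroup.normal_bot, ?_⟩
    intro a ha b hb
    rw [Subgroup.mem_bot] at ha hb
    rw [ha, hb]⟩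
  obtain ⟨⟨hAn, hAc⟩, hmax⟩ := hA
  refine ⟨A, hAn, hAc, ?_⟩
  haveI := hAn
  set C : Subgroup S := Subgroup.centralizer (A : Set S) with hC
  by_contra hcon
  push Not at hcon
  obtain ⟨x0, hx0, hx0A⟩ := hcon
  have hx0C : x0 ∈ C := by
    rw [hC, Subgroup.mem_centralizer_iff]
    intro a ha
    exact (hx0 a ha).symm
  haveI hCn : C.Normal := by
    rw [hC]
    infer_instance
  have hPq : IsPGroup p (S ⧸ A) := hS.to_quotient A
  haveI hC'n : (C.map (QuotientGroup.mk' A)).Normal :=
    Subgroup.Normal.map hCn _ (QuotientGroup.mk'_surjective A)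
  have hC' : C.map (QuotientGroup.mk' A) ≠ ⊥ := by
    intro e
    apply hx0A
    have h1 : (QuotientGroup.mk' A) x0 ∈ C.map (QuotientGroup.mk' A) :=
      Subgroup.mem_map_of_mem _ hx0C
    rw [e, Subgroup.mem_bot] at h1
    exact (QuotientGroup.eq_one_iff x0).1 h1
  obtain ⟨b, hb, hb1, hbc⟩ := exists_central hPq (C.map (QuotientGroup.mk' A)) hC'
  obtain ⟨x, hxC, rfl⟩ := Subgroup.mem_map.1 hb
  have hxA : x ∉ A := by
    intro h
    apply hb1
    exact (QuotientGroup.eq_one_iff x).2 h
  have hxc : ∀ a ∈ A, Commute x a := by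
    intro a ha
    have := (Subgroup.mem_centralizer_iff.1 hxC) a ha
    exact this.symm
  have hconj : ∀ s : S, x⁻¹ * (s * x * s⁻¹) ∈ A := by
    intro s
    have h1 := hbc ((QuotientGroup.mk' A) s)
    rw [← map_mul, ← map_mul] at h1
    have h2 : (QuotientGroup.mk' A) (s * x * s⁻¹) = (QuotientGroup.mk' A) x := by
      rw [map_mul, h1, ← map_mul]
      congr 1
      group
    exact QuotientGroup.eq.1 h2.symm
  have hxA' : x ∈ A ⊔ Subgroup.zpowers x :=
    (le_sup_right : Subgroup.zpowers x ≤ A ⊔ Subgroup.zpowers x) (Subgroup.mem_zpowers x)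
  have hAA' : A ≤ A ⊔ Subgroup.zpowers x := le_sup_left
  have hmem : (A ⊔ Subgroup.zpowers x) ∈
      ({A : Subgroup S | A.Normal ∧ ∀ a ∈ A, ∀ b ∈ A, a * b = b * a} : Set (Subgroup S)) := by
    constructor
    · constructor
      intro g hg s
      obtain ⟨a, ha, z, hz, rfl⟩ := Subgroup.mem_sup_of_normal_left.1 hg
      obtain ⟨k, rfl⟩ := Subgroup.mem_zpowers_iff.1 hz
      have e : s * (a * x ^ k) * s⁻¹ = (s * a * s⁻¹) * (s * x * s⁻¹) ^ k := by
        rw [conj_zpow]
        group
      rw [e]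
      apply Subgroup.mul_mem
      · exact hAA' (hAn.conj_mem a ha s)
      · apply Subgroup.zpow_mem
        have e2 : s * x * s⁻¹ = x * (x⁻¹ * (s * x * s⁻¹)) := by group
        rw [e2]
        exact Subgroup.mul_mem _ hxA' (hAA' (hconj s))
    · intro g hg h hh
      obtain ⟨a, ha, z, hz, rfl⟩ := Subgroup.mem_sup_of_normal_left.1 hg
      obtain ⟨k, rfl⟩ := Subgroup.mem_zpowers_iff.1 hz
      obtain ⟨b, hb, z', hz', rfl⟩ := Subgroup.mem_sup_of_normal_left.1 hh
      obtain ⟨l, rfl⟩ := Subgroup.mem_zpowers_iff.1 hz'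
      have c1 : Commute a b := hAc a ha b hb
      have c2 : Commute a (x ^ l) := ((hxc a ha).symm).zpow_right l
      have c3 : Commute (x ^ k) b := (hxc b hb).zpow_left k
      have c4 : Commute (x ^ k) (x ^ l) := (Commute.refl x).zpow_zpow k l
      exact ((c1.mul_right c2).mul_left (c3.mul_right c4)).eq
  have := hmax hmem hAA'
  exact hxA (this hxA')

theorem law_hom {K : Type*} [Field K] {n p : ℕ} [Fact p.Prime] (hp : (p : K) ≠ 0)
    {S : Type*} [Group S] [Finite S] (hS : IsPGroup p S) (ρ : S →* GL (Fin n) K) (x y : S) :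
    ρ (x ^ n.factorial) * ρ (y ^ n.factorial) = ρ (y ^ n.factorial) * ρ (x ^ n.factorial) := by
  haveI : Finite ρ.range := Set.finite_range ρ
  have hS' : IsPGroup p ρ.range := hS.of_surjective ρ.rangeRestrict ρ.rangeRestrict_surjective
  obtain ⟨A, hAn, hAc, hAs⟩ := self_central hS'
  set B : Subgroup (GL (Fin n) K) := A.map ρ.range.subtype with hB
  haveI : Finite B := by
    have : (B : Set (GL (Fin n) K)).Finite := by
      rw [hB, Subgroup.coe_map]
      exact (Set.toFinite (A : Set ρ.range)).image _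
    exact this
  have hBc : ∀ a ∈ B, ∀ b ∈ B, a * b = b * a := by
    intro a ha b hb
    obtain ⟨a', ha', rfl⟩ := Subgroup.mem_map.1 ha
    obtain ⟨b', hb', rfl⟩ := Subgroup.mem_map.1 hb
    rw [← map_mul, ← map_mul, hAc a' ha' b' hb']
  have hcard : ((Nat.card B : ℕ) : K) ≠ 0 := by
    have e1 : Nat.card B = Nat.card A := by
      rw [hB]
      exact Nat.card_congr (A.equivMapOfInjective _ (Subgroup.subtype_injective _)).symm.toEquiv
    obtain ⟨k, hk⟩ := IsPGroup.iff_card.1 (hS'.to_subgroup A)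
    rw [e1, hk, Nat.cast_pow]
    exact pow_ne_zero k hp
  have key : ∀ z : S, (ρ.rangeRestrict z) ^ n.factorial ∈ A := by
    intro z
    have hnorm : ∀ a ∈ B, ρ z * a * (ρ z)⁻¹ ∈ B := by
      intro a ha
      obtain ⟨a', ha', rfl⟩ := Subgroup.mem_map.1 ha
      refine Subgroup.mem_map.2 ⟨ρ.rangeRestrict z * a' * (ρ.rangeRestrict z)⁻¹,
        hAn.conj_mem a' ha' _, ?_⟩
      rfl
    have h1 := norm_gl B hBc hcard (ρ z) hnorm
    apply hAs
    intro a ha
    apply Subtype.ext
    have h2 := h1 (a : GL (Fin n) K) (Subgroup.mem_map_of_mem _ ha)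
    exact h2
  have h3 := hAc _ (key x) _ (key y)
  have h4 := congrArg (fun z : ρ.range => (z : GL (Fin n) K)) h3
  rw [map_pow, map_pow]
  exact h4

theorem law_comm {K : Type*} [Field K] {n p : ℕ} [Fact p.Prime] (hp : (p : K) ≠ 0) (hn : n < p)
    {S : Type*} [Group S] [Finite S] (hS : IsPGroup p S) (ρ : S →* GL (Fin n) K) (x y : S) :
    ρ x * ρ y = ρ y * ρ x := by
  have hpp : p.Prime := Fact.out
  have hcop : p.Coprime n.factorial := by
    rw [hpp.coprime_iff_not_dvd, hpp.dvd_factorial]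
    omega
  obtain ⟨x0, hx0⟩ := (hS.powEquiv hcop).surjective x
  obtain ⟨y0, hy0⟩ := (hS.powEquiv hcop).surjective y
  rw [IsPGroup.powEquiv_apply] at hx0 hy0
  rw [← hx0, ← hy0]
  exact law_hom hp hS ρ x0 y0

end Pool.Agent.Helper37.Ad
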