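import Mathlib

/-!
# Project ADL, module NormG: normalisers of finite abelian groups of semisimple matrices

Only Mathlib. PLAN. Put `Kb = AlgebraicClosure K`, `X = (Fin n → Kb)`. For `a ∈ A` let `φ a` be the
endomorphism `Matrix.toLin'` (or `mulVecLin`) of `X` given by `a`. `a ^ r = 1` with `r = Nat.card A`,
and `X ^ r - 1` is separable over `Kb` (`(r : K) ≠ 0`), so `φ a` is semisimple:
`⨆ μ, eigenspace (φ a) μ = ⊤` (e.g. `Module.End.IsFinitelySemisimple`, `IsSemisimple` from
`Module.End.isSemisimple_of_squarefree_aeval_eq_zero`, and over an algebraically closed field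
`maxGenEigenspace = eigenspace` for semisimple endomorphisms:
`Module.End.IsFinitelySemisimple.maxGenEigenspace_eq_eigenspace`). The `φ a` commute, so the spaces
`W χ = ⨅ a : A, eigenspace (φ a) (χ a)`, `χ : A → Kb`, are independent and span `X`
(`Module.End.iSup_iInf_maxGenEigenspace_eq_top_of_forall_mapsTo`,
`Module.End.independent_iInf_maxGenEigenspace_of_forall_mapsTo`), so the set
`Φ = {χ | W χ ≠ ⊥}` is finite with at most `n` elements (`iSupIndep.subtype_ne_bot_le_finrank`).
`x` maps `W χ` onto `W (χ ∘ (x⁻¹ · x))`: `a (x v) = x ((x⁻¹ a x) v) = χ (x⁻¹ a x) x v`. So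
`χ ↦ χ ∘ (x⁻¹ · x)` is a permutation of `Φ`; its order divides `|Φ|!` (`orderOf_dvd_card`,
`Fintype.card_perm`), which divides `n!`. So with `y = x ^ n!` we have `χ (y⁻¹ a y) = χ a` for all
`χ ∈ Φ`, `a ∈ A`: `a` and `y⁻¹ a y` agree on all `W χ`, hence on `X`, hence are equal.
-/

set_option autoImplicit false

namespace Pool.Agent.Helper37.Ad

open Module in
/-- the abstract statement over an algebraically closed field -/
private theorem norm_end {F V : Type*} [Field F] [IsAlgClosed F] [AddCommGroup V] [Module F V]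
    [FiniteDimensional F V] {ι : Type*} [Finite ι] (f : ι → End F V)
    (hcomm : ∀ i j, Commute (f i) (f j)) {r : ℕ} (hr : (r : F) ≠ 0) (hpow : ∀ i, f i ^ r = 1)
    (x : End F V) (hx : Function.Injective x) (τ : Equiv.Perm ι)
    (hτ : ∀ i, f (τ i) * x = x * f i) (i : ι) :
    x ^ (finrank F V).factorial * f i = f i * x ^ (finrank F V).factorial := by
  classical
  have hss : ∀ i, (f i).IsSemisimple := by
    intro i
    refine Module.End.isSemisimple_of_squarefree_aeval_eq_zero (p := Polynomial.X ^ r - 1)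
      (Polynomial.X_pow_sub_one_separable_iff.2 hr).squarefree ?_
    simp [hpow i]
  have heig : ∀ i μ, (f i).maxGenEigenspace μ = (f i).eigenspace μ := fun i μ =>
    (hss i).isFinitelySemisimple.maxGenEigenspace_eq_eigenspace μ
  have hmaps : ∀ i j φ, Set.MapsTo (f i) ((f j).maxGenEigenspace φ) ((f j).maxGenEigenspace φ) :=
    fun i j => Module.End.mapsTo_maxGenEigenspace_of_comm (hcomm j i)
  have htop := Module.End.iSup_iInf_maxGenEigenspace_eq_top_of_forall_mapsTo f hmaps
    (fun i => Module.End.iSup_maxGenEigenspace_eq_top (f i))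
  have hind := Module.End.independent_iInf_maxGenEigenspace_of_forall_mapsTo f hmaps
  set W : (ι → F) → Submodule F V := fun χ => ⨅ i, (f i).maxGenEigenspace (χ i) with hW
  have hmem : ∀ χ v, v ∈ W χ ↔ ∀ i, f i v = χ i • v := by
    intro χ v
    simp only [hW, Submodule.mem_iInf, heig, Module.End.mem_eigenspace_iff]
  -- `x` maps `W χ` into `W (χ ∘ τ⁻¹)`
  have hxW : ∀ χ v, v ∈ W χ → x v ∈ W (χ ∘ τ.symm) := by
    intro χ v hv
    rw [hmem] at hv ⊢
    intro j
    have h1 := congrArg (fun e : End F V => e v) (hτ (τ.symm j))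
    simp only [Equiv.apply_symm_apply, Module.End.mul_apply] at h1
    rw [h1, hv (τ.symm j), map_smul]
    rfl
  have : Fintype {χ // W χ ≠ ⊥} := iSupIndep.fintypeNeBotOfFiniteDimensional hind
  have hcard : Fintype.card {χ // W χ ≠ ⊥} ≤ finrank F V := iSupIndep.subtype_ne_bot_le_finrank hind
  have hne : ∀ χ, W χ ≠ ⊥ → W (χ ∘ τ.symm) ≠ ⊥ := by
    intro χ hχ
    obtain ⟨v, hv, hv0⟩ := (Submodule.ne_bot_iff _).1 hχ
    exact (Submodule.ne_bot_iff _).2 ⟨x v, hxW χ v hv, fun h => hv0 (hx (by rw [h, map_zero]))⟩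
  let σ : {χ // W χ ≠ ⊥} → {χ // W χ ≠ ⊥} := fun χ => ⟨χ.1 ∘ τ.symm, hne _ χ.2⟩
  have hσ : Function.Injective σ := by
    intro χ ψ h
    have h1 : χ.1 ∘ τ.symm = ψ.1 ∘ τ.symm := congrArg Subtype.val h
    apply Subtype.ext
    funext j
    have h2 := congrFun h1 (τ j)
    simpa using h2
  let σe : Equiv.Perm {χ // W χ ≠ ⊥} := Equiv.ofBijective σ (Finite.injective_iff_bijective.1 hσ)
  have hpowσ : σe ^ (finrank F V).factorial = 1 := by
    have h1 : orderOf σe ∣ (finrank F V).factorial := by
      refine (orderOf_dvd_card (x := σe)).trans ?_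
      rw [Fintype.card_perm]
      exact Nat.factorial_dvd_factorial hcard
    exact orderOf_dvd_iff_pow_eq_one.1 h1
  have hxk : ∀ (k : ℕ) (χ : {χ // W χ ≠ ⊥}) (v : V), v ∈ W χ.1 → (x ^ k) v ∈ W ((σe ^ k) χ).1 := by
    intro k
    induction k with
    | zero => intro χ v hv; simpa using hv
    | succ k ih =>
      intro χ v hv
      rw [pow_succ', pow_succ', Module.End.mul_apply, Equiv.Perm.mul_apply]
      exact hxW _ _ (ih χ v hv)
  apply LinearMap.ext
  intro v
  have hv : v ∈ (⨆ χ : ι → F, W χ) := by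
    have h0 : (⨆ χ : ι → F, W χ) = ⊤ := htop
    rw [h0]; exact Submodule.mem_top
  induction hv using Submodule.iSup_induction' with
  | mem χ w hw =>
    by_cases hχ : W χ = ⊥
    · rw [hχ, Submodule.mem_bot] at hw
      rw [hw, map_zero, map_zero]
    · have h1 := hxk (finrank F V).factorial ⟨χ, hχ⟩ w hw
      rw [hpowσ, Equiv.Perm.one_apply] at h1
      rw [Module.End.mul_apply, Module.End.mul_apply, (hmem _ _).1 h1 i, (hmem _ _).1 hw i, map_smul]
  | zero => rw [map_zero, map_zero]
  | add a b _ _ ha hb => rw [map_add, map_add, ha, hb]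

/-- an element `x` normalising a finite commutative group `A` of matrices whose order is not divisible
by the characteristic: `x ^ n!` commutes with `A` -/
theorem norm_gl {K : Type*} [Field K] {n : ℕ} (A : Subgroup (GL (Fin n) K)) [Finite A]
    (hA : ∀ a ∈ A, ∀ b ∈ A, a * b = b * a) (hcard : ((Nat.card A : ℕ) : K) ≠ 0)
    (x : GL (Fin n) K) (hx : ∀ a ∈ A, x * a * x⁻¹ ∈ A) :
    ∀ a ∈ A, x ^ n.factorial * a = a * x ^ n.factorial := by
  classical
  -- the representation on `Kb ^ n`
  let ψ : Matrix (Fin n) (Fin n) K →+* Module.End (AlgebraicClosure K) (Fin n → AlgebraicClosure K) :=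
    (Matrix.toLinAlgEquiv' : Matrix (Fin n) (Fin n) (AlgebraicClosure K) ≃ₐ[AlgebraicClosure K]
      ((Fin n → AlgebraicClosure K) →ₗ[AlgebraicClosure K]
        (Fin n → AlgebraicClosure K))).toRingEquiv.toRingHom.comp
      (algebraMap K (AlgebraicClosure K)).mapMatrix
  have hψ : Function.Injective ψ := by
    intro a b hab
    have h1 : (algebraMap K (AlgebraicClosure K)).mapMatrix a =
        (algebraMap K (AlgebraicClosure K)).mapMatrix b :=
      (Matrix.toLinAlgEquiv' : Matrix (Fin n) (Fin n) (AlgebraicClosure K) ≃ₐ[AlgebraicClosure K]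
      ((Fin n → AlgebraicClosure K) →ₗ[AlgebraicClosure K]
        (Fin n → AlgebraicClosure K))).toRingEquiv.injective hab
    ext i j
    have h2 := congrFun (congrFun h1 i) j
    exact (algebraMap K (AlgebraicClosure K)).injective h2
  have hinj : Function.Injective (fun a : A => (⟨x * a.1 * x⁻¹, hx a.1 a.2⟩ : A)) := by
    intro a b h
    have h1 : x * a.1 * x⁻¹ = x * b.1 * x⁻¹ := congrArg Subtype.val h
    exact Subtype.ext (mul_left_cancel (mul_right_cancel h1))
  let τ : Equiv.Perm A := Equiv.ofBijective _ (Finite.injective_iff_bijective.1 hinj)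
  have hτ : ∀ a : A, ((τ a : A) : GL (Fin n) K) * x = x * a.1 := by
    intro a
    show x * a.1 * x⁻¹ * x = x * a.1
    rw [inv_mul_cancel_right]
  intro a ha
  have hxinj : Function.Injective (ψ (x : Matrix (Fin n) (Fin n) K)) := by
    have h1 : ψ ((x⁻¹ : GL (Fin n) K) : Matrix (Fin n) (Fin n) K) *
        ψ (x : Matrix (Fin n) (Fin n) K) = 1 := by
      rw [← map_mul, ← Units.val_mul, inv_mul_cancel, Units.val_one, map_one]
    intro u v huv
    have h2 := congrArg (ψ ((x⁻¹ : GL (Fin n) K) : Matrix (Fin n) (Fin n) K)) huv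
    rw [← Module.End.mul_apply, ← Module.End.mul_apply, h1] at h2
    simpa using h2
  have key := norm_end (F := AlgebraicClosure K) (V := Fin n → AlgebraicClosure K)
    (fun b : A => ψ ((b.1 : GL (Fin n) K) : Matrix (Fin n) (Fin n) K))
    (by
      intro b c
      show ψ _ * ψ _ = ψ _ * ψ _
      rw [← map_mul, ← map_mul, ← Units.val_mul, ← Units.val_mul, hA b.1 b.2 c.1 c.2])
    (r := Nat.card A)
    (by
      intro h
      apply hcard
      apply (algebraMap K (AlgebraicClosure K)).injective
      rw [map_natCast, h, map_zero])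
    (by
      intro b
      have h1 : (b.1 : GL (Fin n) K) ^ Nat.card A = 1 := by
        have h2 : b ^ Nat.card A = 1 := pow_card_eq_one'
        exact_mod_cast congrArg Subtype.val h2
      show ψ _ ^ _ = 1
      rw [← map_pow, ← Units.val_pow_eq_pow_val, h1, Units.val_one, map_one])
    (ψ (x : Matrix (Fin n) (Fin n) K)) hxinj τ
    (by
      intro b
      show ψ _ * ψ _ = ψ _ * ψ _
      rw [← map_mul, ← map_mul, ← Units.val_mul, ← Units.val_mul, hτ b])
    ⟨a, ha⟩
  rw [Module.finrank_fin_fun] at key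
  have key2 : ψ ((x ^ n.factorial * a : GL (Fin n) K) : Matrix (Fin n) (Fin n) K) =
      ψ ((a * x ^ n.factorial : GL (Fin n) K) : Matrix (Fin n) (Fin n) K) := by
    rw [Units.val_mul, Units.val_mul, map_mul, map_mul, Units.val_pow_eq_pow_val, map_pow]
    exact key
  exact Units.ext (hψ key2)

end Pool.Agent.Helper37.Ad
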