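import Pool.Agent.Helper37.Ad.Base

/-!
# Project ADL, module SmallN: subgroups of `SL_2(E)` normalised by a congruence subgroup

Only Mathlib and the definitions `Itg`, `Near`, `Nsc` of Base.lean are needed.

PLAN. Write `e12 t = !![1, t; 0, 1]`, `e21 t = !![1, 0; t, 1]` (elements of `SL_2(E)`), and call `y`
small if `Itg y` and `Near ε y`.

(1) WLOG some `n = !![a, b; c, d] ∈ N` has `c ≠ 0`: `n` is not scalar. If `c = 0` and `b = 0`, then
`a ≠ d`, and `e21 t * n * (e21 t)⁻¹` (`t` small, `t ≠ 0`) has lower left entry `t (a - d) ≠ 0`. If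
`c = 0`, `b ≠ 0`: `e21 t * n * (e21 t)⁻¹` has lower left entry `t (a - d) - t² b`, nonzero for all
but at most two values of `t`; there are infinitely many small `t` (NontriviallyNormedField:
powers of an element `x` with `0 < ‖x‖ < 1`).

(2) From `n ∈ N` with `c ≠ 0`: there is `τ > 0` with `e12 t ∈ N` for all `t` with `‖t‖ < τ`.
Put `g = !![s, y; 0, s⁻¹]` with `y = (s⁻¹ - s) a / c`, `s ≠ 0`: then `g (a, c) = s⁻¹ (a, c)` and
`g (1, 0) = s (1, 0)`. So `n⁻¹ * (g * n * g⁻¹)` maps `(1, 0)` to `s⁻² (1, 0)`: it is the upper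
triangular matrix `b' = !![s⁻², z; 0, s²]` for some `z`. For `s = 1 + x`, `x` small, `g` is small, so
`b' ∈ N` (`N` is normalised by `g`). Choose `x ≠ 0` small with `s⁴ ≠ 1`, `s ≠ 0`
(`s⁴ - 1 = x (4 + 6 x + 4 x² + x³)`, characteristic `0`, or: only finitely many bad `x`). Then for
`e12 t` small: `b' * e12 t * b'⁻¹ = e12 (s⁻⁴ t)`, so `e12 ((s⁻⁴ - 1) t) =
b' * (e12 t * b'⁻¹ * (e12 t)⁻¹) ∈ N`. As `s⁻⁴ - 1 ≠ 0` this gives all `e12 t'` with `‖t'‖` small.

(3) The same for `e21`: transpose everything (either repeat the computation, or apply (2) to the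
subgroup `N' = {x | w x w⁻¹ ∈ N}`, `w = !![0, 1; -1, 0]`; `w` preserves `Itg` and `Near ε`). For `N'`
one needs an element with nonzero lower left entry: the conjugate of `e12 t ∈ N`, `t ≠ 0`.

(4) So there is `τ > 0`, `τ ≤ 1`, with `e12 t, e21 t ∈ N` for `‖t‖ < τ`. For `‖u‖, ‖w‖ < τ` the matrix
`e12 u * e21 w = !![1 + u w, u; w, 1] = e21 (w / (1 + u w)) * diag (1 + u w, (1 + u w)⁻¹) *
e12 (u / (1 + u w))`, and `‖1 + u w‖ = 1` (ultrametric), so `diag (1 + u w, (1 + u w)⁻¹) ∈ N`. Fix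
`u = w₀` with `0 < ‖w₀‖ < τ`: `diag (q, q⁻¹) ∈ N` for all `q` with `‖q - 1‖ < τ ‖w₀‖`
(`u = (q - 1) / w₀`). Put `ε' = τ ‖w₀‖ ≤ τ`. A matrix `y = !![p, q; r, t]` of determinant one with
`Near ε' y` has `‖p‖ = 1` and `y = e21 (r / p) * diag (p, p⁻¹) * e12 (q / p) ∈ N`.
-/

set_option autoImplicit false

namespace Pool.Agent.Helper37.Ad

section aux

variable {E : Type*}

private lemma extE [Field E] {A B : Matrix.SpecialLinearGroup (Fin 2) E}
    (h00 : A.1 0 0 = B.1 0 0) (h01 : A.1 0 1 = B.1 0 1)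
    (h10 : A.1 1 0 = B.1 1 0) (h11 : A.1 1 1 = B.1 1 1) : A = B := by
  apply Subtype.ext
  ext i j
  fin_cases i <;> fin_cases j
  · exact h00
  · exact h01
  · exact h10
  · exact h11

private lemma mulE [Field E] (A B : Matrix.SpecialLinearGroup (Fin 2) E) (i j : Fin 2) :
    (A * B).1 i j = A.1 i 0 * B.1 0 j + A.1 i 1 * B.1 1 j := by
  change (A.1 * B.1) i j = _
  rw [Matrix.mul_apply, Fin.sum_univ_two]

private lemma invE [Field E] (A : Matrix.SpecialLinearGroup (Fin 2) E) :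
    (A⁻¹).1 = !![A.1 1 1, -A.1 0 1; -A.1 1 0, A.1 0 0] := by
  rw [Matrix.SpecialLinearGroup.coe_inv, Matrix.adjugate_fin_two]

private lemma i00 [Field E] (A : Matrix.SpecialLinearGroup (Fin 2) E) :
    (A⁻¹).1 0 0 = A.1 1 1 := by rw [invE]; rfl

private lemma i01 [Field E] (A : Matrix.SpecialLinearGroup (Fin 2) E) :
    (A⁻¹).1 0 1 = -A.1 0 1 := by rw [invE]; rfl

private lemma i10 [Field E] (A : Matrix.SpecialLinearGroup (Fin 2) E) :
    (A⁻¹).1 1 0 = -A.1 1 0 := by rw [invE]; rfl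

private lemma i11 [Field E] (A : Matrix.SpecialLinearGroup (Fin 2) E) :
    (A⁻¹).1 1 1 = A.1 0 0 := by rw [invE]; rfl

private lemma detE [Field E] (A : Matrix.SpecialLinearGroup (Fin 2) E) :
    A.1 0 0 * A.1 1 1 - A.1 0 1 * A.1 1 0 = 1 := by
  have h := A.2
  rwa [Matrix.det_fin_two] at h

private def e12 [Field E] (t : E) : Matrix.SpecialLinearGroup (Fin 2) E :=
  ⟨!![1, t; 0, 1], by simp [Matrix.det_fin_two_of]⟩

private def e21 [Field E] (t : E) : Matrix.SpecialLinearGroup (Fin 2) E :=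
  ⟨!![1, 0; t, 1], by simp [Matrix.det_fin_two_of]⟩

private def tri [Field E] (s y : E) (hs : s ≠ 0) : Matrix.SpecialLinearGroup (Fin 2) E :=
  ⟨!![s, y; 0, s⁻¹], by simp [Matrix.det_fin_two_of, hs]⟩

private def wm [Field E] : Matrix.SpecialLinearGroup (Fin 2) E :=
  ⟨!![0, 1; -1, 0], by simp [Matrix.det_fin_two_of]⟩

private lemma e12_00 [Field E] (t : E) : (e12 t).1 0 0 = 1 := rfl
private lemma e12_01 [Field E] (t : E) : (e12 t).1 0 1 = t := rfl
private lemma e12_10 [Field E] (t : E) : (e12 t).1 1 0 = 0 := rfl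
private lemma e12_11 [Field E] (t : E) : (e12 t).1 1 1 = 1 := rfl
private lemma e21_00 [Field E] (t : E) : (e21 t).1 0 0 = 1 := rfl
private lemma e21_01 [Field E] (t : E) : (e21 t).1 0 1 = 0 := rfl
private lemma e21_10 [Field E] (t : E) : (e21 t).1 1 0 = t := rfl
private lemma e21_11 [Field E] (t : E) : (e21 t).1 1 1 = 1 := rfl
private lemma tri_00 [Field E] (s y : E) (hs : s ≠ 0) : (tri s y hs).1 0 0 = s := rfl
private lemma tri_01 [Field E] (s y : E) (hs : s ≠ 0) : (tri s y hs).1 0 1 = y := rfl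
private lemma tri_10 [Field E] (s y : E) (hs : s ≠ 0) : (tri s y hs).1 1 0 = 0 := rfl
private lemma tri_11 [Field E] (s y : E) (hs : s ≠ 0) : (tri s y hs).1 1 1 = s⁻¹ := rfl
private lemma wm_00 [Field E] : (wm : Matrix.SpecialLinearGroup (Fin 2) E).1 0 0 = 0 := rfl
private lemma wm_01 [Field E] : (wm : Matrix.SpecialLinearGroup (Fin 2) E).1 0 1 = 1 := rfl
private lemma wm_10 [Field E] : (wm : Matrix.SpecialLinearGroup (Fin 2) E).1 1 0 = -1 := rfl
private lemma wm_11 [Field E] : (wm : Matrix.SpecialLinearGroup (Fin 2) E).1 1 1 = 0 := rfl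

/-- the commutator of an upper triangular matrix and an elementary matrix -/
private lemma comm_up [Field E] (b : Matrix.SpecialLinearGroup (Fin 2) E) (h10 : b.1 1 0 = 0)
    (t : E) : b * (e12 t * b⁻¹ * (e12 t)⁻¹) = e12 ((b.1 0 0 ^ 2 - 1) * t) := by
  have hd : b.1 0 0 * b.1 1 1 = 1 := by
    have h := detE b
    rw [h10] at h
    linear_combination h
  apply extE
  · simp only [mulE, i00, i01, i10, i11, e12_00, e12_01, e12_10, e12_11, h10]
    linear_combination hd
  · simp only [mulE, i00, i01, i10, i11, e12_00, e12_01, e12_10, e12_11, h10]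
    linear_combination (-t) * hd
  · simp only [mulE, i00, i01, i10, i11, e12_00, e12_01, e12_10, e12_11, h10]
    ring
  · simp only [mulE, i00, i01, i10, i11, e12_00, e12_01, e12_10, e12_11, h10]
    linear_combination hd

/-- nearness in terms of the four entries -/
private lemma near4 [NormedField E] {δ : ℝ} {A : Matrix (Fin 2) (Fin 2) E}
    (h00 : ‖A 0 0 - 1‖ < δ) (h01 : ‖A 0 1‖ < δ) (h10 : ‖A 1 0‖ < δ) (h11 : ‖A 1 1 - 1‖ < δ) :
    Near δ A := by
  intro i j
  fin_cases i <;> fin_cases j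
  · simpa using h00
  · simpa using h01
  · simpa using h10
  · simpa using h11

private lemma near_entries [NormedField E] {δ : ℝ} {A : Matrix (Fin 2) (Fin 2) E}
    (h : Near δ A) : ‖A 0 0 - 1‖ < δ ∧ ‖A 0 1‖ < δ ∧ ‖A 1 0‖ < δ ∧ ‖A 1 1 - 1‖ < δ := by
  refine ⟨?_, ?_, ?_, ?_⟩
  · simpa using h 0 0
  · simpa using h 0 1
  · simpa using h 1 0
  · simpa using h 1 1

private lemma norm_near_one [NormedField E] [IsUltrametricDist E] {q : E} (h : ‖q - 1‖ < 1) :
    ‖q‖ = 1 := by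
  have h1 : q = 1 + (q - 1) := by ring
  rw [h1]
  have := IsUltrametricDist.norm_add_eq_max_of_norm_ne_norm (x := (1 : E)) (y := q - 1)
    (by rw [norm_one]; exact h.ne')
  rw [this, norm_one, max_eq_left h.le]

private lemma itg_of_near [NormedField E] [IsUltrametricDist E] {δ : ℝ} (hδ : δ ≤ 1)
    {A : Matrix (Fin 2) (Fin 2) E} (h : Near δ A) : Itg A := by
  intro i j
  have h1 : A i j = (A i j - (1 : Matrix (Fin 2) (Fin 2) E) i j)
      + (1 : Matrix (Fin 2) (Fin 2) E) i j := by ring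
  rw [h1]
  refine le_trans (IsUltrametricDist.norm_add_le_max _ _) (max_le ((h i j).le.trans hδ) ?_)
  rw [Matrix.one_apply]
  split_ifs
  · exact (norm_one).le
  · simp

/-- step (2): all small upper elementary matrices -/
private lemma step_up [NontriviallyNormedField E] [IsUltrametricDist E] [CharZero E]
    (N : Subgroup (Matrix.SpecialLinearGroup (Fin 2) E)) {δ : ℝ} (hδ : 0 < δ) (hδ1 : δ ≤ 1)
    (hN : ∀ y : Matrix.SpecialLinearGroup (Fin 2) E, Near δ y.1 → ∀ x ∈ N, y * x * y⁻¹ ∈ N)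
    {n : Matrix.SpecialLinearGroup (Fin 2) E} (hn : n ∈ N) (hc : n.1 1 0 ≠ 0) :
    ∃ τ : ℝ, 0 < τ ∧ ∀ t : E, ‖t‖ < τ → e12 t ∈ N := by
  have h2 : (0 : ℝ) < ‖(2 : E)‖ := norm_pos_iff.2 two_ne_zero
  have h21 : ‖(2 : E)‖ ≤ 1 := by
    have := IsUltrametricDist.norm_natCast_le_one E 2
    simpa using this
  set a := n.1 0 0 with ha
  set c := n.1 1 0 with hcdef
  have hk : (0 : ℝ) < ‖a / c‖ + 1 := by positivity
  obtain ⟨x, hx0, hxr⟩ := NormedField.exists_norm_lt E
    (r := min (min δ (δ / (‖a / c‖ + 1))) ‖(2 : E)‖)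
    (lt_min (lt_min hδ (div_pos hδ hk)) h2)
  have hxδ : ‖x‖ < δ := lt_of_lt_of_le hxr ((min_le_left _ _).trans (min_le_left _ _))
  have hxk : ‖x‖ < δ / (‖a / c‖ + 1) :=
    lt_of_lt_of_le hxr ((min_le_left _ _).trans (min_le_right _ _))
  have hx2 : ‖x‖ < ‖(2 : E)‖ := lt_of_lt_of_le hxr (min_le_right _ _)
  have hx1 : ‖x‖ < 1 := lt_of_lt_of_le hx2 h21
  have hxne : x ≠ 0 := norm_pos_iff.1 hx0
  have hs1 : ‖(1 + x : E)‖ = 1 := norm_near_one (by simpa using hx1)
  have hs : (1 + x : E) ≠ 0 := by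
    intro h
    rw [h, norm_zero] at hs1
    exact zero_ne_one hs1
  -- norms of two plus x
  have h2x : (2 + x : E) ≠ 0 := by
    intro h
    have h3 : x = -2 := by linear_combination h
    rw [h3, norm_neg] at hx2
    exact lt_irrefl _ hx2
  have h2x1 : ‖(2 + x : E)‖ ≤ 1 :=
    le_trans (IsUltrametricDist.norm_add_le_max _ _) (max_le h21 hx1.le)
  have h22x : (2 + 2 * x + x ^ 2 : E) ≠ 0 := by
    intro h
    have h3 : (2 : E) = -(x * (2 + x)) := by linear_combination h
    have h4 : ‖(2 : E)‖ = ‖x‖ * ‖(2 + x : E)‖ := by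
      conv_lhs => rw [h3]
      rw [norm_neg, norm_mul]
    have h5 : ‖x‖ * ‖(2 + x : E)‖ ≤ ‖x‖ * 1 := by gcongr
    rw [mul_one, ← h4] at h5
    exact absurd h5 (not_le.2 hx2)
  -- the matrix g
  set s : E := 1 + x with hsdef
  have hg : Near δ (tri s ((s⁻¹ - s) * (a / c)) hs).1 := by
    apply near4
    · rw [tri_00]
      have : s - 1 = x := by rw [hsdef]; ring
      rw [this]
      exact hxδ
    · rw [tri_01]
      have h3 : s⁻¹ - s = -(x * (2 + x)) * s⁻¹ := by
        field_simp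
        rw [hsdef]
        ring
      have h4 : ‖s⁻¹ - s‖ ≤ ‖x‖ := by
        rw [h3, norm_mul, norm_neg, norm_mul, norm_inv, hs1, inv_one, mul_one]
        calc ‖x‖ * ‖(2 + x : E)‖ ≤ ‖x‖ * 1 := by gcongr
          _ = ‖x‖ := mul_one _
      rw [norm_mul]
      calc ‖s⁻¹ - s‖ * ‖a / c‖ ≤ ‖x‖ * (‖a / c‖ + 1) := by
            apply mul_le_mul h4 (by linarith) (norm_nonneg _) (norm_nonneg _)
        _ < δ / (‖a / c‖ + 1) * (‖a / c‖ + 1) := mul_lt_mul_of_pos_right hxk hk
        _ = δ := by field_simp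
    · rw [tri_10, norm_zero]
      exact hδ
    · rw [tri_11]
      have h3 : s⁻¹ - 1 = -x * s⁻¹ := by
        field_simp
        rw [hsdef]
        ring
      rw [h3, norm_mul, norm_neg, norm_inv, hs1, inv_one, mul_one]
      exact hxδ
  set g := tri s ((s⁻¹ - s) * (a / c)) hs with hgdef
  have hgn : g * n * g⁻¹ ∈ N := hN g hg n hn
  set b := n⁻¹ * (g * n * g⁻¹) with hbdef
  have hb : b ∈ N := N.mul_mem (N.inv_mem hn) hgn
  have hdet := detE n
  have hyc : (s⁻¹ - s) * (a / c) * c = (s⁻¹ - s) * a := by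
    field_simp
  have hss : s * s⁻¹ = 1 := mul_inv_cancel₀ hs
  have hb10 : b.1 1 0 = 0 := by
    rw [hbdef]
    simp only [mulE, i00, i01, i10, i11, hgdef, tri_00, tri_01, tri_10, tri_11]
    rw [← ha, ← hcdef]
    linear_combination (-c * s⁻¹) * hyc
  have hb00 : b.1 0 0 = s⁻¹ ^ 2 := by
    rw [hbdef]
    simp only [mulE, i00, i01, i10, i11, hgdef, tri_00, tri_01, tri_10, tri_11]
    rw [← ha, ← hcdef]
    rw [← ha, ← hcdef] at hdet
    linear_combination (n.1 1 1 * s⁻¹) * hyc + (s⁻¹ ^ 2) * hdet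
  have hp : (b.1 0 0 ^ 2 - 1 : E) ≠ 0 := by
    rw [hb00]
    intro h
    have h3 : (x * (2 + x) * (2 + 2 * x + x ^ 2) : E) = 0 := by
      have h4 : s⁻¹ ^ 4 = 1 := by linear_combination h
      have h5 : s ^ 4 = 1 := by
        have h6 : s ^ 4 * s⁻¹ ^ 4 = 1 := by rw [← mul_pow, hss, one_pow]
        rw [h4, mul_one] at h6
        exact h6
      rw [hsdef] at h5
      linear_combination h5
    rcases mul_eq_zero.1 h3 with h4 | h4
    · rcases mul_eq_zero.1 h4 with h5 | h5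
      · exact hxne h5
      · exact h2x h5
    · exact h22x h4
  refine ⟨‖(b.1 0 0 ^ 2 - 1 : E)‖ * δ, mul_pos (norm_pos_iff.2 hp) hδ, ?_⟩
  intro t ht
  have ht1 : ‖t / (b.1 0 0 ^ 2 - 1)‖ < δ := by
    rw [norm_div, div_lt_iff₀ (norm_pos_iff.2 hp), mul_comm]
    exact ht
  have hen : Near δ (e12 (t / (b.1 0 0 ^ 2 - 1))).1 := by
    apply near4
    · rw [e12_00, sub_self, norm_zero]; exact hδ
    · rw [e12_01]; exact ht1
    · rw [e12_10, norm_zero]; exact hδ
    · rw [e12_11, sub_self, norm_zero]; exact hδ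
  have h7 := N.mul_mem hb (hN _ hen b⁻¹ (N.inv_mem hb))
  rw [comm_up b hb10, mul_div_cancel₀ _ hp] at h7
  exact h7

end aux

theorem small_normal {E : Type*} [NontriviallyNormedField E] [IsUltrametricDist E] [CharZero E]
    (N : Subgroup (Matrix.SpecialLinearGroup (Fin 2) E)) {ε : ℝ} (hε : 0 < ε)
    (hN : ∀ y : Matrix.SpecialLinearGroup (Fin 2) E, Itg (y : Matrix (Fin 2) (Fin 2) E) →
      Near ε (y : Matrix (Fin 2) (Fin 2) E) → ∀ x ∈ N, y * x * y⁻¹ ∈ N)
    {n : Matrix.SpecialLinearGroup (Fin 2) E} (hn : n ∈ N)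
    (hns : Nsc (n : Matrix (Fin 2) (Fin 2) E)) :
    ∃ ε' : ℝ, 0 < ε' ∧ ∀ y : Matrix.SpecialLinearGroup (Fin 2) E,
      Itg (y : Matrix (Fin 2) (Fin 2) E) → Near ε' (y : Matrix (Fin 2) (Fin 2) E) → y ∈ N := by
  classical
  -- reduction to ε ≤ 1
  set δ := min ε 1 with hδdef
  have hδ : 0 < δ := lt_min hε one_pos
  have hδ1 : δ ≤ 1 := min_le_right _ _
  have hN1 : ∀ y : Matrix.SpecialLinearGroup (Fin 2) E, Near δ y.1 → ∀ x ∈ N,
      y * x * y⁻¹ ∈ N := by
    intro y hy x hx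
    exact hN y (itg_of_near hδ1 hy) (fun i j => lt_of_lt_of_le (hy i j) (min_le_left _ _)) x hx
  -- step (1)
  obtain ⟨m, hm, hmc⟩ : ∃ m ∈ N, m.1 1 0 ≠ 0 := by
    by_cases hc : n.1 1 0 = 0
    · obtain ⟨x, hx0, hxδ⟩ := NormedField.exists_norm_lt E hδ
      have hx1 : ‖x‖ < 1 := lt_of_lt_of_le hxδ hδ1
      have hxne : x ≠ 0 := norm_pos_iff.1 hx0
      have key : ∀ t : E, ‖t‖ < δ → t * (n.1 0 0 - n.1 1 1 - t * n.1 0 1) ≠ 0 →
          ∃ m ∈ N, m.1 1 0 ≠ 0 := by
        intro t ht hne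
        have hen : Near δ (e21 t).1 := by
          apply near4
          · rw [e21_00, sub_self, norm_zero]; exact hδ
          · rw [e21_01, norm_zero]; exact hδ
          · rw [e21_10]; exact ht
          · rw [e21_11, sub_self, norm_zero]; exact hδ
        refine ⟨e21 t * n * (e21 t)⁻¹, hN1 _ hen n hn, ?_⟩
        have : (e21 t * n * (e21 t)⁻¹).1 1 0 = t * (n.1 0 0 - n.1 1 1 - t * n.1 0 1) := by
          simp only [mulE, i00, i01, i10, i11, e21_00, e21_01, e21_10, e21_11, hc]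
          ring
        rw [this]
        exact hne
      by_cases h1 : x * (n.1 0 0 - n.1 1 1 - x * n.1 0 1) = 0
      · by_cases h2 : x ^ 2 * (n.1 0 0 - n.1 1 1 - x ^ 2 * n.1 0 1) = 0
        · exfalso
          have h1' : n.1 0 0 - n.1 1 1 - x * n.1 0 1 = 0 :=
            (mul_eq_zero.1 h1).resolve_left hxne
          have h2' : n.1 0 0 - n.1 1 1 - x ^ 2 * n.1 0 1 = 0 :=
            (mul_eq_zero.1 h2).resolve_left (pow_ne_zero 2 hxne)
          have h3 : x * (1 - x) * n.1 0 1 = 0 := by linear_combination h2' - h1'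
          have h4 : (1 - x : E) ≠ 0 := by
            intro h
            have : x = 1 := by linear_combination -h
            rw [this, norm_one] at hx1
            exact lt_irrefl _ hx1
          have h5 : n.1 0 1 = 0 :=
            (mul_eq_zero.1 h3).resolve_left (mul_ne_zero hxne h4)
          rw [h5, mul_zero, sub_zero] at h1'
          apply hns
          refine ⟨n.1 0 0, ?_⟩
          ext i j
          fin_cases i <;> fin_cases j
          · simp
          · simpa using h5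
          · simpa using hc
          · have : n.1 1 1 = n.1 0 0 := by linear_combination -h1'
            simpa using this
        · refine key (x ^ 2) ?_ h2
          rw [norm_pow]
          calc ‖x‖ ^ 2 ≤ ‖x‖ := by nlinarith [norm_nonneg x]
            _ < δ := hxδ
      · exact key x hxδ h1
    · exact ⟨n, hn, hc⟩
  -- step (2)
  obtain ⟨τ1, hτ1, hup⟩ := step_up N hδ hδ1 hN1 hm hmc
  -- step (3)
  obtain ⟨τ2, hτ2, hlow⟩ : ∃ τ : ℝ, 0 < τ ∧ ∀ t : E, ‖t‖ < τ → e21 t ∈ N := by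
    let N' : Subgroup (Matrix.SpecialLinearGroup (Fin 2) E) :=
      N.comap (MulAut.conj (wm : Matrix.SpecialLinearGroup (Fin 2) E)).toMonoidHom
    have hN'mem : ∀ x : Matrix.SpecialLinearGroup (Fin 2) E, x ∈ N' ↔ wm * x * wm⁻¹ ∈ N := by
      intro x
      rw [Subgroup.mem_comap]
      rfl
    have hN2 : ∀ y : Matrix.SpecialLinearGroup (Fin 2) E, Near δ y.1 → ∀ x ∈ N',
        y * x * y⁻¹ ∈ N' := by
      intro y hy x hx
      rw [hN'mem] at hx ⊢
      have hyw : Near δ (wm * y * wm⁻¹).1 := by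
        obtain ⟨h00, h01, h10, h11⟩ := near_entries hy
        apply near4
        · have : (wm * y * wm⁻¹).1 0 0 = y.1 1 1 := by
            simp only [mulE, i00, i01, i10, i11, wm_00, wm_01, wm_10, wm_11]
            ring
          rw [this]; exact h11
        · have : (wm * y * wm⁻¹).1 0 1 = -y.1 1 0 := by
            simp only [mulE, i00, i01, i10, i11, wm_00, wm_01, wm_10, wm_11]
            ring
          rw [this, norm_neg]; exact h10
        · have : (wm * y * wm⁻¹).1 1 0 = -y.1 0 1 := by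
            simp only [mulE, i00, i01, i10, i11, wm_00, wm_01, wm_10, wm_11]
            ring
          rw [this, norm_neg]; exact h01
        · have : (wm * y * wm⁻¹).1 1 1 = y.1 0 0 := by
            simp only [mulE, i00, i01, i10, i11, wm_00, wm_01, wm_10, wm_11]
            ring
          rw [this]; exact h00
      have h := hN1 _ hyw _ hx
      have h2 : wm * y * wm⁻¹ * (wm * x * wm⁻¹) * (wm * y * wm⁻¹)⁻¹ =
          wm * (y * x * y⁻¹) * wm⁻¹ := by group
      rw [h2] at h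
      exact h
    obtain ⟨t0, ht0, ht1⟩ := NormedField.exists_norm_lt E hτ1
    have ht0ne : t0 ≠ 0 := norm_pos_iff.1 ht0
    have hm' : wm⁻¹ * e12 t0 * wm ∈ N' := by
      rw [hN'mem]
      have : wm * (wm⁻¹ * e12 t0 * wm) * wm⁻¹ = e12 t0 := by group
      rw [this]
      exact hup t0 ht1
    have hmc' : (wm⁻¹ * e12 t0 * wm).1 1 0 ≠ 0 := by
      have : (wm⁻¹ * e12 t0 * wm).1 1 0 = -t0 := by
        simp only [mulE, i00, i01, i10, i11, wm_00, wm_01, wm_10, wm_11, e12_00, e12_01,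
          e12_10, e12_11]
        ring
      rw [this]
      exact neg_ne_zero.2 ht0ne
    obtain ⟨τ, hτ, h⟩ := step_up N' hδ hδ1 hN2 hm' hmc'
    refine ⟨τ, hτ, fun t ht => ?_⟩
    have h1 := (hN'mem _).1 (h (-t) (by rwa [norm_neg]))
    have h2 : wm * e12 (-t) * wm⁻¹ = e21 t := by
      apply extE
      all_goals
        simp only [mulE, i00, i01, i10, i11, wm_00, wm_01, wm_10, wm_11, e12_00, e12_01,
          e12_10, e12_11, e21_00, e21_01, e21_10, e21_11]
        ring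
    rw [h2] at h1
    exact h1
  -- step (4)
  set τ := min (min τ1 τ2) 1 with hτdef
  have hτ : 0 < τ := lt_min (lt_min hτ1 hτ2) one_pos
  have hττ1 : τ ≤ τ1 := (min_le_left _ _).trans (min_le_left _ _)
  have hττ2 : τ ≤ τ2 := (min_le_left _ _).trans (min_le_right _ _)
  have hτ11 : τ ≤ 1 := min_le_right _ _
  have hU : ∀ t : E, ‖t‖ < τ → e12 t ∈ N := fun t ht => hup t (lt_of_lt_of_le ht hττ1)
  have hL : ∀ t : E, ‖t‖ < τ → e21 t ∈ N := fun t ht => hlow t (lt_of_lt_of_le ht hττ2)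
  obtain ⟨w0, hw0, hw0τ⟩ := NormedField.exists_norm_lt E hτ
  have hw0ne : w0 ≠ 0 := norm_pos_iff.1 hw0
  have hw01 : ‖w0‖ < 1 := lt_of_lt_of_le hw0τ hτ11
  refine ⟨τ * ‖w0‖, mul_pos hτ hw0, ?_⟩
  intro y _ hy
  have hε1 : τ * ‖w0‖ ≤ τ := by nlinarith
  have hε2 : τ * ‖w0‖ < 1 := by nlinarith
  obtain ⟨h00, h01, h10, h11⟩ := near_entries hy
  have hp1 : ‖(y.1 0 0 : E)‖ = 1 := norm_near_one (lt_trans h00 hε2)
  have hp : (y.1 0 0 : E) ≠ 0 := by
    intro h
    rw [h, norm_zero] at hp1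
    exact zero_ne_one hp1
  set p := y.1 0 0 with hpdef
  have hdet := detE y
  rw [← hpdef] at hdet
  -- the diagonal matrix
  have hdiag : tri p 0 hp ∈ N := by
    have hu : ‖(p - 1) / w0‖ < τ := by
      rw [norm_div, div_lt_iff₀ hw0]
      exact h00
    have hr : ‖w0 / p‖ < τ := by
      rw [norm_div, hp1, div_one]
      exact hw0τ
    have hv : ‖(p - 1) / w0 / p‖ < τ := by
      rw [norm_div, hp1, div_one]
      exact hu
    have h1 : (e21 (w0 / p))⁻¹ * (e12 ((p - 1) / w0) * e21 w0) * (e12 ((p - 1) / w0 / p))⁻¹ =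
        tri p 0 hp := by
      apply extE
      all_goals
        simp only [mulE, i00, i01, i10, i11, e12_00, e12_01, e12_10, e12_11, e21_00, e21_01,
          e21_10, e21_11, tri_00, tri_01, tri_10, tri_11]
        field_simp
        ring
    rw [← h1]
    exact N.mul_mem (N.mul_mem (N.inv_mem (hL _ hr)) (N.mul_mem (hU _ hu) (hL _ hw0τ)))
      (N.inv_mem (hU _ hv))
  have hy2 : y = e21 (y.1 1 0 / p) * tri p 0 hp * e12 (y.1 0 1 / p) := by
    apply extE
    · simp only [mulE, e12_00, e12_01, e12_10, e12_11, e21_00, e21_01,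
        e21_10, e21_11, tri_00, tri_01, tri_10, tri_11]
      rw [← hpdef]
      ring
    · simp only [mulE, e12_00, e12_01, e12_10, e12_11, e21_00, e21_01,
        e21_10, e21_11, tri_00, tri_01, tri_10, tri_11]
      field_simp
      ring
    · simp only [mulE, e12_00, e12_01, e12_10, e12_11, e21_00, e21_01,
        e21_10, e21_11, tri_00, tri_01, tri_10, tri_11]
      field_simp
      ring
    · simp only [mulE, e12_00, e12_01, e12_10, e12_11, e21_00, e21_01,
        e21_10, e21_11, tri_00, tri_01, tri_10, tri_11]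
      field_simp
      linear_combination hdet
  rw [hy2]
  refine N.mul_mem (N.mul_mem (hL _ ?_) hdiag) (hU _ ?_)
  · rw [norm_div, hp1, div_one]
    exact lt_of_lt_of_le h10 hε1
  · rw [norm_div, hp1, div_one]
    exact lt_of_lt_of_le h01 hε1

end Pool.Agent.Helper37.Ad
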