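import Pool.Agent.Helper37.Ad.Cpt
import Pool.Agent.Helper37.Ad.Kern
import Pool.Agent.Helper37.Ad.Irr
import Pool.Agent.Helper37.TorsionFieldCritArchive
import Pool.Agent.Helper37.Fd.DefsD

/-!
# Project ADL, module SmallP: small places

PLAN. `V v` is strongly irreducible (`strIrr_of_near`). By the kernel criterion
(`Pool.Agent.Results.MP_6cbef8_nt.TorsionFieldCrit.result` with `J = Unit`, `T () = T p`; its base change
`bc` and `baseChange` are definitionally equal: `GeneralLinearGroup.map (algebraMap ..)` composed with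
`T`) and `hPC` the open subgroup `⊤` does not satisfy its left hand side: there is `g` with `T p g = 1` and
`Nsc (V v g)`. `full_of_nsc` for `A = (T p).ker` gives `ε₁` with `Full V (T p).ker v ε₁`. `exists_kernel`
gives `h₀` with `T l h₀ = 1` for all `l ≠ p` and `Nsc (V v h₀)`. By `comm_small` there is a `y`, `ε₁`-near to
`1`, such that `V v h₀ * y * (V v h₀)⁻¹ * y⁻¹` is not scalar; let `g_y ∈ (T p).ker` be a lift of `y`
(`Full`). The commutator `h₀ * g_y * h₀⁻¹ * g_y⁻¹` lies in `commonKernel T` (for `l ≠ p` because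
`T l h₀ = 1`, for `l = p` because `T p g_y = 1`) and its image under `V v` is not scalar. `full_of_nsc` for
`A = commonKernel T` (normal, as an infimum of kernels).
-/

set_option autoImplicit false

namespace Pool.Agent.Helper37.Ad

open Pool.Agent.Helper27.FM Pool.Agent.Helper37.Af Pool.Agent.Helper37.Fd

theorem small_place {Λ : Type*} {E : Λ → Type*} [∀ v, NontriviallyNormedField (E v)]
    [∀ v, IsUltrametricDist (E v)] {G : Type*} [Group G] [TopologicalSpace G]
    [IsTopologicalGroup G] [CompactSpace G] [TotallyDisconnectedSpace G]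
    (V : ∀ v, G →* GL (Fin 2) (E v)) (hV : ∀ v, Continuous (V v)) (v : Λ)
    {p : ℕ} [Fact p.Prime] [NormedAlgebra ℚ_[p] (E v)] [FiniteDimensional ℚ_[p] (E v)]
    (hVi : ∀ g, Itg (V v g : Matrix (Fin 2) (Fin 2) (E v))) {ε : ℝ} (hε : 0 < ε)
    (h : Full V ⊤ v ε)
    {n : ℕ} (T : ∀ (l : ℕ) [Fact l.Prime], G →* GL (Fin n) ℚ_[l])
    (hT : ∀ (l : ℕ) [Fact l.Prime], Continuous (T l))
    (hTi : ∀ (l : ℕ) [Fact l.Prime] (g : G), Itg (T l g : Matrix (Fin n) (Fin n) ℚ_[l]))
    (hss : Semisimple (baseChange (E v) (T p)))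
    (hgen : IdempotentGenerated p (V v) (baseChange (E v) (T p)))
    (hPC : ¬ PotentiallyContained (V v) (baseChange (E v) (T p))) :
    ∃ ε' : ℝ, 0 < ε' ∧ Full V (commonKernel T) v ε' := by
  have : CharZero (E v) :=
    charZero_of_injective_algebraMap (algebraMap ℚ_[p] (E v)).injective
  have hnear : ∀ y : Matrix.SpecialLinearGroup (Fin 2) (E v),
      Itg (y : Matrix (Fin 2) (Fin 2) (E v)) → Near ε (y : Matrix (Fin 2) (Fin 2) (E v)) →
      ∃ g, (V v g : Matrix (Fin 2) (Fin 2) (E v)) = (y : Matrix (Fin 2) (Fin 2) (E v)) := by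
    intro y hy hy'
    obtain ⟨g, _, hg, _⟩ := h y hy hy'
    exact ⟨g, hg⟩
  have hstr : StronglyIrreducible (V v) := strIrr_of_near (V v) hε hnear
  -- an element of the kernel of `T p` with nonscalar image
  have h1 : ∃ g, T p g = 1 ∧ Nsc (V v g : Matrix (Fin 2) (Fin 2) (E v)) := by
    by_contra hcon
    push Not at hcon
    have hres := Pool.Agent.Results.MP_6cbef8_nt.TorsionFieldCrit.result p (V v) (hV v) hstr
      (J := Unit) (fun _ => n) (fun _ => T p) (fun _ => hT p) (fun _ => Or.inr ⟨hss, hgen⟩)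
    have hl : ∃ U : Subgroup G, IsOpen (U : Set G) ∧ ∀ g ∈ U, (∀ _j : Unit, T p g = 1) →
        ∃ c : E v, (V v g : Matrix (Fin 2) (Fin 2) (E v)) =
          c • (1 : Matrix (Fin 2) (Fin 2) (E v)) := by
      refine ⟨⊤, by simp, fun g _ hg => ?_⟩
      have h2 := hcon g (hg ())
      unfold Nsc at h2
      exact not_not.mp h2
    obtain ⟨_, hj⟩ := hres.mp hl
    exact hPC hj
  obtain ⟨g₁, hg₁, hns₁⟩ := h1
  obtain ⟨ε₁, hε₁, hfull₁⟩ := full_of_nsc V v hε h (T p).ker (MonoidHom.mem_ker.mpr hg₁) hns₁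
  obtain ⟨h₀, hh₀, hns₀⟩ := exists_kernel (p := p) (V v) (hV v) hVi hε hnear T hT hTi
  obtain ⟨y, hy, hy', hys⟩ := comm_small (V v h₀) hns₀ hε₁
  obtain ⟨gy, hgy, hVgy, _⟩ := hfull₁ y hy hy'
  have hgy1 : T p gy = 1 := MonoidHom.mem_ker.mp hgy
  have hc : h₀ * gy * h₀⁻¹ * gy⁻¹ ∈ commonKernel T := by
    unfold commonKernel
    rw [Subgroup.mem_iInf]
    intro l
    rw [Subgroup.mem_iInf]
    intro hl
    rw [MonoidHom.mem_ker]
    by_cases hlp : l = p
    · subst hlp
      have h3 : T l gy = 1 := hgy1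
      simp [h3]
    · have h3 : T l h₀ = 1 := hh₀ l hlp
      simp [h3]
  have hnorm : (commonKernel T).Normal := by
    unfold commonKernel
    exact Subgroup.normal_iInf_normal fun l => Subgroup.normal_iInf_normal fun hl =>
      MonoidHom.normal_ker _
  have hVi' : (((V v gy)⁻¹ : GL (Fin 2) (E v)) : Matrix (Fin 2) (Fin 2) (E v)) =
      ((y⁻¹ : Matrix.SpecialLinearGroup (Fin 2) (E v)) : Matrix (Fin 2) (Fin 2) (E v)) := by
    have h4 : V v gy = (y : GL (Fin 2) (E v)) := Units.ext hVgy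
    rw [h4, ← Matrix.SpecialLinearGroup.coe_GL_coe_matrix y⁻¹]
    congr 1
    simp
  refine full_of_nsc V v hε h (commonKernel T) hc ?_
  have h5 : (V v (h₀ * gy * h₀⁻¹ * gy⁻¹) : Matrix (Fin 2) (Fin 2) (E v)) =
      (V v h₀ : Matrix (Fin 2) (Fin 2) (E v)) * (y : Matrix (Fin 2) (Fin 2) (E v)) *
        (((V v h₀)⁻¹ : GL (Fin 2) (E v)) : Matrix (Fin 2) (Fin 2) (E v)) *
        ((y⁻¹ : Matrix.SpecialLinearGroup (Fin 2) (E v)) : Matrix (Fin 2) (Fin 2) (E v)) := by
    rw [map_mul, map_mul, map_mul, map_inv, map_inv, Units.val_mul, Units.val_mul, Units.val_mul,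
      hVgy, hVi']
  rw [h5]
  exact hys

end Pool.Agent.Helper37.Ad
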