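import Pool.Agent.Helper37.Ad.LawG

/-!
# Project ADL, module Tame: a metacyclic group which is not a quotient of a tame linear group

PLAN. Let `Q = τ.range`, a finite group, `N' = N.map τ.rangeRestrict`, normal in `Q`; by `hker` an element
`g` lies in `N` iff `τ g ∈ N'`. Let `B = Q ⧸ N'`, `π : Q →* B`, and `ū = π (τ u)`, `t̄ = π (τ t)`. So `ū ≠ 1`,
`ū ^ p = 1` (order exactly `p`) and `t̄ ū t̄⁻¹ = ū ^ m`. Let `U₁ = zpowers ū` (order `p`), `Q₁` the subgroup
of all `q ∈ Q` with `π q` normalising `U₁` (it contains `τ t`, `τ u`; note `t̄ U₁ t̄⁻¹ ⊆ U₁` and `U₁` is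
finite), `N₁` the subgroup of all `q` with `π q ∈ U₁`, a normal subgroup of `Q₁`. Let `P` be a Sylow
`p`-subgroup of `N₁`. The map `N₁ → U₁` is surjective (`ū = π (τ u)`) and `U₁` is a `p`-group, so
`P → U₁` is surjective (`Sylow.mapSurjective`; the only Sylow subgroup of a `p`-group is `⊤`): there is
`s ∈ P` with `π s = ū`. Frattini (`Sylow.normalizer_sup_eq_top`): `τ t = σ ν` with `σ ∈ Q₁` normalising `P` and
`ν ∈ N₁`. As `π ν ∈ U₁` commutes with `ū`, `π σ ū (π σ)⁻¹ = t̄ ū t̄⁻¹ = ū ^ m`. By `law_comm` the group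
`P ≤ GL_n(K)` is commutative (`n < p`), its order is a power of `p`, nonzero in `K`, so by `norm_gl`
`σ ^ n!` commutes with `s`. Apply `π`: `ū = (π σ) ^ n! ū (π σ) ^ (- n!) = ū ^ (m ^ n!)`, so
`m ^ n! ≡ 1` modulo the order `p` of `ū` (`pow_eq_pow_iff_modEq`).
-/

set_option autoImplicit false

namespace Pool.Agent.Helper37.Ad

/-- the core: a finite group `Q` of matrices, a quotient `B` of it, a normal commutative `p`-subgroup `U`
of `B` -/
private theorem tame_core {n p : ℕ} [Fact p.Prime] (hn : n < p) {K : Type*} [Field K]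
    (hK : (p : K) ≠ 0) {Q B : Type*} [Group Q] [Finite Q] [Group B] (ρ : Q →* GL (Fin n) K)
    (hρ : Function.Injective ρ) (π : Q →* B) (U : Subgroup B) [U.Normal] (hUp : IsPGroup p U)
    (hUc : ∀ a ∈ U, ∀ b ∈ U, a * b = b * a) (u t : Q) (m : ℕ) (hu : π u ∈ U)
    (ht : π t * π u * (π t)⁻¹ = π u ^ m) : π u ^ (m ^ n.factorial) = π u := by
  classical
  -- the normal subgroup `N₁` and its Sylow subgroup
  set N₁ : Subgroup Q := U.comap π with hN₁
  have : N₁.Normal := inferInstanceAs (U.comap π).Normal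
  obtain ⟨P⟩ : Nonempty (Sylow p N₁) := inferInstance
  -- the map `N₁ → π N₁`
  let f : N₁ →* (π.comp N₁.subtype).range := (π.comp N₁.subtype).rangeRestrict
  have hf : Function.Surjective f := MonoidHom.rangeRestrict_surjective _
  have hle : (π.comp N₁.subtype).range ≤ U := by
    rintro x ⟨y, rfl⟩
    exact y.2
  have hV : IsPGroup p (π.comp N₁.subtype).range := hUp.to_le hle
  have htop : (P.mapSurjective hf : Subgroup (π.comp N₁.subtype).range) = ⊤ := by
    have h1 := (P.mapSurjective hf).is_maximal' (Q := ⊤)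
      (hV.of_equiv Subgroup.topEquiv.symm) le_top
    exact h1.symm
  obtain ⟨s, hsP, hs⟩ : ∃ s ∈ (P : Subgroup N₁), π (s : Q) = π u := by
    have h2 : f ⟨u, hu⟩ ∈ (P.mapSurjective hf : Subgroup (π.comp N₁.subtype).range) := by
      rw [htop]; exact Subgroup.mem_top _
    rw [Sylow.coe_mapSurjective] at h2
    obtain ⟨s, hs, hs2⟩ := h2
    refine ⟨s, hs, ?_⟩
    have h3 := congrArg Subtype.val hs2
    exact h3
  -- Frattini
  set P' : Subgroup Q := (P : Subgroup N₁).map N₁.subtype with hP'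
  have hP'p : IsPGroup p P' := P.2.map N₁.subtype
  have hfr := Sylow.normalizer_sup_eq_top P
  have ht2 : t ∈ Subgroup.normalizer ((P : Subgroup N₁).map N₁.subtype : Set Q) ⊔ N₁ := by
    rw [hfr]; exact Subgroup.mem_top _
  obtain ⟨σ, hσ, ν, hν, hσν⟩ := Subgroup.mem_sup_of_normal_right.1 ht2
  have hσn : ∀ x ∈ P', σ * x * σ⁻¹ ∈ P' := fun x hx => (Subgroup.mem_normalizer_iff.1 hσ x).1 hx
  -- the group of matrices
  have hcomm : ∀ x ∈ P', ∀ y ∈ P', ρ x * ρ y = ρ y * ρ x := by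
    intro x hx y hy
    exact law_comm hK hn hP'p (ρ.comp P'.subtype) ⟨x, hx⟩ ⟨y, hy⟩
  have hAcomm : ∀ a ∈ P'.map ρ, ∀ b ∈ P'.map ρ, a * b = b * a := by
    rintro a ⟨x, hx, rfl⟩ b ⟨y, hy, rfl⟩
    exact hcomm x hx y hy
  have : Finite (P'.map ρ) := by
    have h0 : ((P' : Set Q).image ρ).Finite := (Set.toFinite (P' : Set Q)).image ρ
    exact h0.to_subtype
  have hcard : ((Nat.card (P'.map ρ) : ℕ) : K) ≠ 0 := by
    obtain ⟨k, hk⟩ := IsPGroup.iff_card.1 (hP'p.map ρ)
    rw [hk]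
    push_cast
    exact pow_ne_zero _ hK
  have hnorm := norm_gl (P'.map ρ) hAcomm hcard (ρ σ) (by
    rintro a ⟨x, hx, rfl⟩
    refine ⟨σ * x * σ⁻¹, hσn x hx, by simp⟩)
  have hsP' : (s : Q) ∈ P' := ⟨s, hsP, rfl⟩
  have h4 : σ ^ n.factorial * (s : Q) = (s : Q) * σ ^ n.factorial := by
    apply hρ
    have := hnorm (ρ s) ⟨s, hsP', rfl⟩
    simpa using this
  have h5 : π σ ^ n.factorial * π u = π u * π σ ^ n.factorial := by
    have := congrArg π h4
    simpa [hs] using this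
  -- conjugation by `π σ`
  have h6 : π σ * π u = π u ^ m * π σ := by
    have hc : π ν * π u = π u * π ν := hUc _ hν _ hu
    have h7 : π t = π σ * π ν := by rw [← hσν]; simp
    rw [h7] at ht
    have h8 : π σ * π ν * π u * (π σ * π ν)⁻¹ = π σ * π u * (π σ)⁻¹ := by
      rw [mul_assoc (π σ), hc, mul_inv_rev]
      group
    rw [h8] at ht
    rw [← ht]
    group
  have h7 : ∀ j : ℕ, π σ * π u ^ j = π u ^ (m * j) * π σ := by
    intro j
    induction j with
    | zero => simp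
    | succ j ih => rw [pow_succ, ← mul_assoc, ih, mul_assoc, h6, ← mul_assoc, ← pow_add, Nat.mul_succ]
  have h8 : ∀ k : ℕ, π σ ^ k * π u = π u ^ (m ^ k) * π σ ^ k := by
    intro k
    induction k with
    | zero => simp
    | succ k ih =>
        rw [pow_succ', mul_assoc, ih, ← mul_assoc, h7, mul_assoc, ← pow_succ', pow_succ' m]
  have h9 := h8 n.factorial
  rw [h5] at h9
  exact (mul_right_cancel h9).symm

theorem tame {n p : ℕ} [Fact p.Prime] (hn : n < p) {K : Type*} [Field K] (hK : (p : K) ≠ 0)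
    {G : Type*} [Group G] (τ : G →* GL (Fin n) K) (hfin : Finite τ.range) (N : Subgroup G)
    [N.Normal] (hker : τ.ker ≤ N) (u t : G) (m : ℕ) (hu : u ∉ N) (hup : u ^ p ∈ N)
    (ht : t * u * t⁻¹ * (u ^ m)⁻¹ ∈ N) : m ^ n.factorial ≡ 1 [MOD p] := by
  classical
  let φ : G ⧸ τ.ker →* G ⧸ N := QuotientGroup.lift τ.ker (QuotientGroup.mk' N) (fun g hg => by
    rw [QuotientGroup.ker_mk']; exact hker hg)
  let π : τ.range →* G ⧸ N := φ.comp (QuotientGroup.quotientKerEquivRange τ).symm.toMonoidHom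
  have hπ : ∀ g : G, π (τ.rangeRestrict g) = (g : G ⧸ N) := by
    intro g
    have h1 : (QuotientGroup.quotientKerEquivRange τ).symm (τ.rangeRestrict g)
        = (g : G ⧸ τ.ker) := by
      rw [MulEquiv.symm_apply_eq]
      rfl
    show φ ((QuotientGroup.quotientKerEquivRange τ).symm (τ.rangeRestrict g)) = _
    rw [h1]
    rfl
  set ub : G ⧸ N := (u : G ⧸ N) with hub
  set tb : G ⧸ N := (t : G ⧸ N) with htb
  have hub1 : ub ≠ 1 := fun h => hu ((QuotientGroup.eq_one_iff u).1 h)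
  have hubp : ub ^ p = 1 := by
    rw [hub, ← QuotientGroup.mk_pow, QuotientGroup.eq_one_iff]; exact hup
  have hord : orderOf ub = p := orderOf_eq_prime hubp hub1
  have htu : tb * ub * tb⁻¹ = ub ^ m := by
    have h2 : ((t * u * t⁻¹ * (u ^ m)⁻¹ : G) : G ⧸ N) = 1 := (QuotientGroup.eq_one_iff _).2 ht
    have h3 : tb * ub * tb⁻¹ * (ub ^ m)⁻¹ = 1 := h2
    exact mul_inv_eq_one.1 h3
  -- the normaliser
  let Z : Subgroup (G ⧸ N) := Subgroup.zpowers ub
  have hZf : Finite Z := by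
    have : 0 < orderOf ub := by rw [hord]; exact (Fact.out : p.Prime).pos
    exact (isOfFinOrder_iff_pow_eq_one.2 ⟨p, (Fact.out : p.Prime).pos, hubp⟩).finite_zpowers
  have hubZ : ub ∈ Z := Subgroup.mem_zpowers ub
  let M : Subgroup (G ⧸ N) := Subgroup.normalizer (Z : Set (G ⧸ N))
  have htM : tb ∈ M := by
    apply Subgroup.mem_normalizer_fintype
    intro x hx
    obtain ⟨k, rfl⟩ := Subgroup.mem_zpowers_iff.1 hx
    rw [← conj_zpow, htu]
    exact Z.zpow_mem (Z.pow_mem hubZ m) k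
  have huM : ub ∈ M := Subgroup.le_normalizer hubZ
  let Q₁ : Subgroup τ.range := M.comap π
  let π₁ : Q₁ →* M := π.subgroupComap M
  let u₁ : Q₁ := ⟨τ.rangeRestrict u, by show π _ ∈ M; rw [hπ]; exact huM⟩
  let t₁ : Q₁ := ⟨τ.rangeRestrict t, by show π _ ∈ M; rw [hπ]; exact htM⟩
  have hπu : π₁ u₁ = ⟨ub, huM⟩ := Subtype.ext (hπ u)
  have hπt : π₁ t₁ = ⟨tb, htM⟩ := Subtype.ext (hπ t)
  have hZc : Nat.card Z = p := by rw [← hord]; exact Nat.card_zpowers ub
  have hZp : IsPGroup p Z := IsPGroup.of_card (n := 1) (by rw [hZc, pow_one])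
  have : (Z.subgroupOf M).Normal := Subgroup.normal_in_normalizer
  have hmain := tame_core hn hK (τ.range.subtype.comp Q₁.subtype)
    (by
      intro x y hxy
      exact Subtype.ext (Subtype.ext hxy)) π₁ (Z.subgroupOf M)
    (hZp.comap_subtype) (by
      intro a ha b hb
      obtain ⟨i, hi⟩ := Subgroup.mem_zpowers_iff.1 (Subgroup.mem_subgroupOf.1 ha)
      obtain ⟨j, hj⟩ := Subgroup.mem_zpowers_iff.1 (Subgroup.mem_subgroupOf.1 hb)
      apply Subtype.ext
      show (a : G ⧸ N) * b = b * a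
      rw [← hi, ← hj, ← zpow_add, ← zpow_add, add_comm]) u₁ t₁ m
    (by rw [hπu]; exact Subgroup.mem_subgroupOf.2 hubZ)
    (by rw [hπu, hπt]; exact Subtype.ext htu)
  rw [hπu] at hmain
  have h5 : ub ^ (m ^ n.factorial) = ub ^ 1 := by
    rw [pow_one]; exact congrArg Subtype.val hmain
  rw [pow_eq_pow_iff_modEq, hord] at h5
  exact h5

end Pool.Agent.Helper37.Ad
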